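import Pool.Agent.H167Z.BP.Lower

set_option autoImplicit false

namespace Pool.Agent.H167Z.BP

open Set

theorem cr2_lower {n q : ℕ} (hn : 2 ≤ n) (k M : ℕ)
    (hM : M + 2 * (n - 1) * (k * (k + 1)) + 4 * k * q ≤ k * ((n + 1) * q)) :
    (M : ℕ∞) ≤ cr2 (completeBipartiteGraph (Fin (n + 1)) (Fin q)) := by
  classical
  refine le_iInf fun G₁ => le_iInf fun G₂ => le_iInf fun h => ?_
  unfold cr
  refine ENat.le_iInf_add_iInf fun D₁ D₂ => ?_
  by_cases h1 : D₁.crossings.encard = ⊤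
  · simp [h1]
  by_cases h2 : D₂.crossings.encard = ⊤
  · simp [h2]
  obtain ⟨m₁, e₁⟩ := ENat.ne_top_iff_exists.1 h1
  obtain ⟨m₂, e₂⟩ := ENat.ne_top_iff_exists.1 h2
  have b₁ := plane_bound hn G₁ D₁ m₁ e₁.symm k
  have b₂ := plane_bound hn G₂ D₂ m₂ e₂.symm k
  have s : (n + 1) * q ≤ ∑ w : Fin q, (Finset.univ.filter (fun c => G₁.Adj (.inr w) (.inl c))).card +
      ∑ w : Fin q, (Finset.univ.filter (fun c => G₂.Adj (.inr w) (.inl c))).card := by
    rw [← Finset.sum_add_distrib]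
    calc (n + 1) * q = ∑ _w : Fin q, (n + 1) := by simp [mul_comm]
      _ ≤ _ := by
        apply Finset.sum_le_sum
        intro w _
        refine le_trans ?_ (Finset.card_union_le _ _)
        have : (Finset.univ.filter (fun c => G₁.Adj (.inr w) (.inl c)) ∪
            Finset.univ.filter (fun c => G₂.Adj (.inr w) (.inl c))) =
            (Finset.univ : Finset (Fin (n + 1))) := by
          ext c
          have : (G₁ ⊔ G₂).Adj (.inr w) (.inl c) := by rw [h]; simp
          simpa using this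
        rw [this]; simp
  rw [← e₁, ← e₂]
  have := Nat.mul_le_mul_left k s
  have : M ≤ m₁ + m₂ := by nlinarith
  exact_mod_cast this

theorem lower6 (q : ℕ) : ((2 * (q / 8) * (q - 4 * (q / 8) - 4) : ℕ) : ℕ∞) ≤
    cr2 (completeBipartiteGraph (Fin 6) (Fin q)) := by
  refine cr2_lower (n := 5) (by norm_num) (q / 8) _ ?_
  have h := Nat.div_mul_le_self q 8
  generalize q / 8 = k at h ⊢
  rcases Nat.eq_zero_or_pos k with rfl | hk
  · simp
  obtain ⟨r, rfl⟩ : ∃ r, q = 4 * k + 4 + r := ⟨q - (4 * k + 4), by omega⟩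
  rw [show 4 * k + 4 + r - 4 * k - 4 = r by omega]
  norm_num; nlinarith

theorem lower8 (q : ℕ) : ((4 * (q / 6) * (q - 3 * (q / 6) - 3) : ℕ) : ℕ∞) ≤
    cr2 (completeBipartiteGraph (Fin 8) (Fin q)) := by
  refine cr2_lower (n := 7) (by norm_num) (q / 6) _ ?_
  have h := Nat.div_mul_le_self q 6
  generalize q / 6 = k at h ⊢
  rcases Nat.eq_zero_or_pos k with rfl | hk
  · simp
  obtain ⟨r, rfl⟩ : ∃ r, q = 3 * k + 3 + r := ⟨q - (3 * k + 3), by omega⟩
  rw [show 3 * k + 3 + r - 3 * k - 3 = r by omega]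
  norm_num; nlinarith

end Pool.Agent.H167Z.BP
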