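import Pool.Agent.H167Z.BP.Sphere

set_option autoImplicit false

namespace Pool.Agent.H167Z.BP

open Set

/-- The bipartite graph given by a relation. -/
def bip {B W : Type} (N : W → B → Prop) : SimpleGraph (B ⊕ W) where
  Adj x y := ∃ w c, N w c ∧ s(x, y) = s(.inr w, .inl c)
  symm := ⟨fun x y ⟨w, c, h, e⟩ => ⟨w, c, h, Sym2.eq_swap.trans e⟩⟩
  loopless := ⟨fun x ⟨w, c, _, e⟩ => by
    rcases Sym2.eq_iff.1 e with ⟨rfl, e⟩ | ⟨rfl, e⟩ <;> cases e⟩

lemma bip_sup {B W : Type} (N₁ N₂ : W → B → Prop) (h : ∀ w c, N₁ w c ∨ N₂ w c) :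
    bip N₁ ⊔ bip N₂ = completeBipartiteGraph B W := by
  ext x y
  simp only [SimpleGraph.sup_adj, bip, completeBipartiteGraph_adj]
  constructor
  · rintro (⟨w, c, -, e⟩ | ⟨w, c, -, e⟩) <;> rcases Sym2.eq_iff.1 e with ⟨rfl, rfl⟩ | ⟨rfl, rfl⟩ <;>
      simp
  · rcases x with c | w <;> rcases y with c' | w' <;> simp only [Sum.isLeft_inl, Sum.isRight_inl,
      Sum.isLeft_inr, Sum.isRight_inr, Bool.false_eq_true, and_false, false_and, or_self,
      IsEmpty.forall_iff, and_self, or_false, false_or, forall_const]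
    · exact (h w' c).imp (fun k => ⟨w', c, k, Sym2.eq_swap⟩) (fun k => ⟨w', c, k, Sym2.eq_swap⟩)
    · exact (h w c').imp (fun k => ⟨w, c', k, rfl⟩) (fun k => ⟨w, c', k, rfl⟩)

/-- A cyclic fan of directions in the plane. -/
structure Fan {I : Type} (nx : I → I) (u : I → ℝ × ℝ) (α : ℝ) : Prop where
  a0 : 0 ≤ α
  a1 : α ≤ 1
  rel : ∀ i, u i + u (nx (nx i)) = α • u (nx i)
  uniq : ∀ j j' (a b a' b' : ℝ), 0 < a → 0 ≤ b → 0 < a' → 0 ≤ b' →
    a • u j + b • u (nx j) = a' • u j' + b' • u (nx j') → j = j' ∧ a = a' ∧ b = b'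
  pole : ∀ i, ¬ ((u i).1 = (u i).2 ∧ 0 ≤ (u i).1)
  inj : Function.Injective nx

def sgn (h : Bool) : ℝ := if h then 1 else -1

def emb (p : ℝ × ℝ) (z : ℝ) : V3 := (p.1, p.2, z)

lemma emb_comb (s t : ℝ) (p p' : ℝ × ℝ) (z z' : ℝ) :
    s • emb p z + t • emb p' z' = emb (s • p + t • p') (s * z + t * z') := rfl

lemma emb_smul (s : ℝ) (p : ℝ × ℝ) (z : ℝ) : s • emb p z = emb (s • p) (s * z) := rfl

lemma emb_inj {p p' : ℝ × ℝ} {z z' : ℝ} (h : emb p z = emb p' z') : p = p' ∧ z = z' := by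
  simp only [emb, Prod.mk.injEq] at h
  exact ⟨Prod.ext h.1 h.2.1, h.2.2⟩

lemma sgn_eq {h h' : Bool} {r r' : ℝ} (hr : 0 < r) (hr' : 0 < r') (e : r * sgn h = r' * sgn h') :
    h = h' ∧ r = r' := by
  cases h <;> cases h' <;> simp [sgn] at e ⊢ <;> linarith

lemma sgn_ne {h : Bool} {r : ℝ} (hr : 0 < r) : r * sgn h ≠ 0 := by
  cases h <;> simp [sgn, hr.ne']

section
variable {I : Type} {nx : I → I} {u : I → ℝ × ℝ} {α : ℝ}

def Piece (nx : I → I) (α : ℝ) (h : Bool) (j : I) (Q : Prop) (β : ℝ) (c : I ⊕ Bool) (k : I)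
    (a b : ℝ) : Prop :=
  (c = .inl (nx j) ∧ k = nx j ∧ 1 - 2 * β < a ∧ b = β) ∨
  (c = .inl (nx (nx j)) ∧ k = nx j ∧ a = 1 - 2 * β ∧ β < b) ∨
  (c = .inl j ∧ Q ∧ k = nx j ∧ a = 1 - 2 * β + α * (β - b) ∧ b < β) ∨
  (c = .inl j ∧ Q ∧ k = j ∧ b = 1 - 2 * β + α * β) ∨
  (c = .inr h ∧ k = nx j ∧ ∃ l, 0 < l ∧ l < 1 ∧ a = l * (1 - 2 * β) ∧ b = l * β)

def Leaf (nx : I → I) (h : Bool) (j : I) (Q : Prop) (c : I ⊕ Bool) : Prop :=
  c = .inr h ∨ c = .inl (nx j) ∨ c = .inl (nx (nx j)) ∨ (Q ∧ c = .inl j)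

def PB (u : I → ℝ × ℝ) : I ⊕ Bool → V3
  | .inl i => emb (u i) 0
  | .inr h => emb 0 (sgn h)

def PW (nx : I → I) (u : I → ℝ × ℝ) (h : Bool) (j : I) (β : ℝ) : V3 :=
  emb ((1 - 2 * β) • u (nx j) + β • u (nx (nx j))) (sgn h)

lemma leg_rep (F : Fan nx u α) {h : Bool} {j : I} {Q : Prop} {β : ℝ} (b0 : 0 < β) (b1 : β < 1 / 4)
    {c : I ⊕ Bool} (hc : Leaf nx h j Q c) {s t : ℝ} (hs : 0 < s) (ht : 0 < t) :
    ∃ (r : ℝ) (k : I) (a b : ℝ), 0 < r ∧ 0 < a ∧ 0 ≤ b ∧ Piece nx α h j Q β c k a b ∧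
      s • PW nx u h j β + t • PB u c = emb (r • (a • u k + b • u (nx k))) (r * sgn h) := by
  have q0 : 0 < t / s := by positivity
  have et : t = s * (t / s) := by field_simp
  generalize t / s = x at q0 et
  subst et
  have a0 := F.a0
  rcases hc with rfl | rfl | rfl | ⟨hQ, rfl⟩
  · have p1 : 0 < 1 / (1 + x) := by positivity
    refine ⟨s * (1 + x), nx j, 1 / (1 + x) * (1 - 2 * β), 1 / (1 + x) * β, by positivity,
      mul_pos p1 (by linarith), by positivity, Or.inr (Or.inr (Or.inr (Or.inr ⟨rfl, rfl, _, p1,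
      by rw [div_lt_one (by positivity)]; linarith, rfl, rfl⟩))), ?_⟩
    simp only [PW, PB, emb_comb]
    congr 1
    · match_scalars <;> field_simp
    · ring
  · refine ⟨s, nx j, 1 - 2 * β + x, β, hs, by linarith, b0.le,
      Or.inl ⟨rfl, rfl, by linarith, rfl⟩, ?_⟩
    simp only [PW, PB, emb_comb]
    congr 1
    · module
    · ring
  · refine ⟨s, nx j, 1 - 2 * β, β + x, hs, by linarith, by linarith,
      Or.inr (Or.inl ⟨rfl, rfl, rfl, by linarith⟩), ?_⟩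
    simp only [PW, PB, emb_comb]
    congr 1
    · module
    · ring
  · have rel := F.rel j
    rcases le_or_gt x β with l | l
    · refine ⟨s, nx j, 1 - 2 * β + α * x, β - x, hs, by nlinarith, by linarith,
        Or.inr (Or.inr (Or.inl ⟨rfl, hQ, rfl, by ring, by linarith⟩)), ?_⟩
      simp only [PW, PB, emb_comb]
      congr 1
      · linear_combination (norm := module) (s * x) • rel
      · ring
    · refine ⟨s, j, x - β, 1 - 2 * β + α * β, hs, by linarith, by nlinarith,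
        Or.inr (Or.inr (Or.inr (Or.inl ⟨rfl, hQ, rfl, rfl⟩))), ?_⟩
      simp only [PW, PB, emb_comb]
      congr 1
      · linear_combination (norm := module) (s * β) • rel
      · ring

def Cr (nx : I → I) (h : Bool) (j : I) (β : ℝ) (c : I ⊕ Bool) (j' : I) (Q' : Prop) (β' : ℝ)
    (c' : I ⊕ Bool) : Prop :=
  (j = j' ∧ β < β' ∧ c = .inl (nx (nx j')) ∧ c' = .inl (nx j')) ∨
  (j = j' ∧ β < β' ∧ Q' ∧ c = .inr h ∧ c' = .inl j') ∨
  (j' = nx j ∧ Q' ∧ c = .inl (nx j') ∧ c' = .inl j')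

lemma piece_meet (F : Fan nx u α) {h : Bool} {j j' : I} {Q Q' : Prop} {β β' : ℝ} (b0 : 0 < β)
    (b1 : β < 1 / 4) (b0' : 0 < β') (b1' : β' < 1 / 4) {c c' : I ⊕ Bool} {k : I} {a b : ℝ}
    (p : Piece nx α h j Q β c k a b) (p' : Piece nx α h j' Q' β' c' k a b) :
    (j = j' ∧ β = β' ∧ c = c') ∨ Cr nx h j β c j' Q' β' c' ∨ Cr nx h j' β' c' j Q β c := by
  have a0 := F.a0
  have a1 := F.a1
  have m1 : 0 ≤ α * β := by positivity
  have m2 : 0 ≤ α * β' := by positivity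
  rcases p with ⟨rfl, rfl, h1, h2⟩ | ⟨rfl, rfl, h1, h2⟩ | ⟨rfl, hQ, rfl, h1, h2⟩ |
    ⟨rfl, hQ, rfl, h1⟩ | ⟨rfl, rfl, l, l0, l1, h1, h2⟩ <;>
  rcases p' with ⟨rfl, e, k1, k2⟩ | ⟨rfl, e, k1, k2⟩ | ⟨rfl, hQ', e, k1, k2⟩ |
    ⟨rfl, hQ', e, k1⟩ | ⟨rfl, e, l', l0', l1', k1, k2⟩
  · obtain rfl := F.inj e; exact Or.inl ⟨rfl, by linarith, rfl⟩
  · obtain rfl := F.inj e; exact Or.inr (Or.inr (Or.inl ⟨rfl, by linarith, rfl, rfl⟩))
  · exfalso; nlinarith
  · exfalso; nlinarith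
  · exfalso; nlinarith
  · obtain rfl := F.inj e; exact Or.inr (Or.inl (Or.inl ⟨rfl, by linarith, rfl, rfl⟩))
  · obtain rfl := F.inj e; exact Or.inl ⟨rfl, by linarith, rfl⟩
  · exfalso; nlinarith
  · subst e; exact Or.inr (Or.inl (Or.inr (Or.inr ⟨rfl, hQ', rfl, rfl⟩)))
  · exfalso; nlinarith
  · exfalso; nlinarith
  · exfalso; nlinarith
  · obtain rfl := F.inj e; exact Or.inl ⟨rfl, by nlinarith, rfl⟩
  · exfalso; nlinarith
  · obtain rfl := F.inj e
    refine Or.inr (Or.inr (Or.inr (Or.inl ⟨rfl, ?_, hQ, rfl, rfl⟩)))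
    by_contra hh
    nlinarith
  · exfalso; nlinarith
  · subst e; exact Or.inr (Or.inr (Or.inr (Or.inr ⟨rfl, hQ, rfl, rfl⟩)))
  · exfalso; nlinarith
  · subst e; exact Or.inl ⟨rfl, by nlinarith, rfl⟩
  · exfalso; nlinarith
  · exfalso; nlinarith
  · exfalso; nlinarith
  · obtain rfl := F.inj e
    refine Or.inr (Or.inl (Or.inr (Or.inl ⟨rfl, ?_, hQ', rfl, rfl⟩)))
    by_contra hh
    nlinarith
  · exfalso; nlinarith
  · obtain rfl := F.inj e
    refine Or.inl ⟨rfl, ?_, rfl⟩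
    have : l = l' := by nlinarith
    subst this
    exact mul_left_cancel₀ l0.ne' (by linarith)

lemma Fan.ne (F : Fan nx u α) (k : I) {a b : ℝ} (ha : 0 < a) (hb : 0 ≤ b) :
    a • u k + b • u (nx k) ≠ 0 := by
  intro e
  have := (F.uniq k k a b (2 * a) (2 * b) ha hb (by linarith) (by linarith)
    (by linear_combination (norm := module) (-1 : ℝ) • e)).2.1
  linarith

lemma piece_white (F : Fan nx u α) {h : Bool} {j : I} {Q : Prop} {β β' : ℝ} (b0 : 0 < β)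
    (b1 : β < 1 / 4) (b1' : β' < 1 / 4) {c : I ⊕ Bool} {k : I}
    (p : Piece nx α h j Q β c k (1 - 2 * β') β') : False := by
  have a0 := F.a0
  have a1 := F.a1
  have m1 : 0 ≤ α * β := by positivity
  rcases p with ⟨-, -, h1, h2⟩ | ⟨-, -, h1, h2⟩ | ⟨-, -, -, h1, h2⟩ |
    ⟨-, -, -, h1⟩ | ⟨-, -, l, l0, l1, h1, h2⟩ <;> nlinarith

variable {B W : Type} (κ : B ≃ I ⊕ Bool) (h : W → Bool) (j : W → I) (Q : W → Prop) (β : W → ℝ)

def PP (nx : I → I) (u : I → ℝ × ℝ) : B ⊕ W → V3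
  | .inl c => PB u (κ c)
  | .inr w => PW nx u (h w) (j w) (β w)

lemma edge_rep (F : Fan nx u α) (b0 : ∀ w, 0 < β w) (b1 : ∀ w, β w < 1 / 4) {x y : B ⊕ W}
    (hxy : (bip (fun w c => Leaf nx (h w) (j w) (Q w) (κ c))).Adj x y) {s t : ℝ} (hs : 0 < s)
    (ht : 0 < t) : ∃ w c, s(x, y) = s(.inr w, .inl c) ∧ ∃ (r : ℝ) (k : I) (a b : ℝ), 0 < r ∧
      0 < a ∧ 0 ≤ b ∧ Piece nx α (h w) (j w) (Q w) (β w) (κ c) k a b ∧
      s • PP κ h j β nx u x + t • PP κ h j β nx u y =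
        emb (r • (a • u k + b • u (nx k))) (r * sgn (h w)) := by
  obtain ⟨w, c, hc, e⟩ := hxy
  refine ⟨w, c, e, ?_⟩
  rcases Sym2.eq_iff.1 e with ⟨rfl, rfl⟩ | ⟨rfl, rfl⟩
  · exact leg_rep F (b0 w) (b1 w) hc hs ht
  · rw [add_comm]; exact leg_rep F (b0 w) (b1 w) hc ht hs

lemma geo (F : Fan nx u α) (b0 : ∀ w, 0 < β w) (b1 : ∀ w, β w < 1 / 4)
    (hi : ∀ w w', h w = h w' → j w = j w' → β w = β w' → w = w') :
    Geo (bip (fun w c => Leaf nx (h w) (j w) (Q w) (κ c))) (PP κ h j β nx u) := by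
  have s1 : ∀ b : Bool, sgn b ≠ 0 := fun b => by simpa using sgn_ne (h := b) one_pos
  have wne : ∀ w, (1 - 2 * β w) • u (nx (j w)) + β w • u (nx (nx (j w))) ≠ 0 := fun w =>
    F.ne _ (by linarith [b1 w]) (b0 w).le
  constructor
  · rintro (c | w)
    · simp only [PP]
      rcases κ c with i | b
      · exact fun k => F.pole i ⟨k.1, k.2.2⟩
      · exact fun k => s1 b k.2.1
    · exact fun k => s1 _ k.2.1
  · intro x y hxy s t hs ht
    obtain ⟨w, c, -, r, k, a, b, hr, -, -, -, e⟩ := edge_rep κ h j Q β F b0 b1 hxy hs ht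
    rw [e]; exact fun k => sgn_ne hr k.2.1
  · rintro (c | w) (c' | w') l hl e
    · congr 1
      apply κ.injective
      simp only [PP] at e
      rcases hc : κ c with i | b <;> rcases hc' : κ c' with i' | b' <;>
        simp only [hc, hc', PB, emb_smul] at e <;> obtain ⟨e1, e2⟩ := emb_inj e
      · rw [(F.uniq i i' l 0 1 0 hl le_rfl one_pos le_rfl (by simp [e1])).1]
      · exact absurd (by simpa using e2) (s1 b')
      · exact absurd e2.symm (sgn_ne hl)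
      · rw [(sgn_eq (h := b) (h' := b') hl one_pos (by rw [← e2, one_mul])).1]
    · exfalso
      simp only [PP] at e
      rcases hc : κ c with i | b <;> simp only [hc, PB, PW, emb_smul] at e <;>
        obtain ⟨e1, e2⟩ := emb_inj e
      · exact s1 _ (by simpa using e2)
      · exact wne w' (by simpa using e1)
    · exfalso
      simp only [PP] at e
      rcases hc : κ c' with i | b <;> simp only [hc, PB, PW, emb_smul] at e <;>
        obtain ⟨e1, e2⟩ := emb_inj e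
      · exact sgn_ne hl e2.symm
      · exact wne w ((smul_eq_zero.1 e1.symm).resolve_left hl.ne')
    · simp only [PP, PW, emb_smul] at e
      obtain ⟨e1, e2⟩ := emb_inj e
      obtain ⟨k1, rfl⟩ := sgn_eq hl one_pos (by rw [← e2, one_mul])
      obtain ⟨k2, -, k3⟩ := F.uniq _ _ _ _ _ _ (by linarith [b1 w]) (b0 w).le (by linarith [b1 w'])
        (b0 w').le ((one_smul _ _).symm.trans e1.symm)
      rw [hi w w' k1 (F.inj k2) k3]
  · intro x y hxy s t hs ht v e'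
    obtain ⟨w, c, -, r, k, a, b, hr, ha, hb, p, e⟩ := edge_rep κ h j Q β F b0 b1 hxy hs ht
    rw [e] at e'
    rcases v with c' | w'
    · simp only [PP] at e'
      rcases hc : κ c' with i | b <;> simp only [hc, PB] at e' <;> obtain ⟨e1, e2⟩ := emb_inj e'
      · exact sgn_ne hr e2.symm
      · exact F.ne k ha hb ((smul_eq_zero.1 e1.symm).resolve_left hr.ne')
    · simp only [PP, PW] at e'
      obtain ⟨e1, e2⟩ := emb_inj e'
      obtain ⟨-, rfl⟩ := sgn_eq hr one_pos (by rw [← e2, one_mul])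
      obtain ⟨-, rfl, rfl⟩ := F.uniq _ _ _ _ _ _ ha hb (by linarith [b1 w'])
        (b0 w').le ((one_smul _ _).symm.trans e1.symm)
      exact piece_white F (b0 w) (b1 w) (b1 w') p

open Classical in
theorem bipyr_le [Fintype W] (F : Fan nx u α) (b0 : ∀ w, 0 < β w) (b1 : ∀ w, β w < 1 / 4)
    (hi : ∀ w w', h w = h w' → j w = j w' → β w = β w' → w = w') :
    cr (bip (fun w c => Leaf nx (h w) (j w) (Q w) (κ c))) ≤ ((∑ w' : W,
      ((Finset.univ.filter (fun w => h w = h w' ∧ j w = j w' ∧ β w < β w')).card +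
      (Finset.univ.filter (fun w => h w = h w' ∧ j w = j w' ∧ β w < β w' ∧ Q w')).card +
      (Finset.univ.filter (fun w => h w = h w' ∧ j w' = nx (j w) ∧ Q w')).card) : ℕ) : ℕ∞) := by
  let pr : W → I ⊕ Bool → W → I ⊕ Bool → Sym2 (Sym2 (B ⊕ W)) := fun w c w' c' =>
    s(s(.inr w, .inl (κ.symm c)), s(.inr w', .inl (κ.symm c')))
  let X : Finset (Sym2 (Sym2 (B ⊕ W))) := Finset.univ.biUnion fun w' =>
    (Finset.univ.filter (fun w => h w = h w' ∧ j w = j w' ∧ β w < β w')).image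
      (fun w => pr w (.inl (nx (nx (j w')))) w' (.inl (nx (j w')))) ∪
    (Finset.univ.filter (fun w => h w = h w' ∧ j w = j w' ∧ β w < β w' ∧ Q w')).image
      (fun w => pr w (.inr (h w')) w' (.inl (j w'))) ∪
    (Finset.univ.filter (fun w => h w = h w' ∧ j w' = nx (j w) ∧ Q w')).image
      (fun w => pr w (.inl (nx (j w'))) w' (.inl (j w')))
  have mem : ∀ w c w' c', h w = h w' → Cr nx (h w') (j w) (β w) (κ c) (j w') (Q w') (β w') (κ c') →
      s(s(Sum.inr w, Sum.inl c), s(Sum.inr w', Sum.inl c')) ∈ X := by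
    intro w c w' c' e hC
    refine Finset.mem_biUnion.2 ⟨w', Finset.mem_univ _, ?_⟩
    simp only [Finset.mem_union, Finset.mem_image, Finset.mem_filter, Finset.mem_univ, true_and]
    rcases hC with ⟨h1, h2, h3, h4⟩ | ⟨h1, h2, h5, h3, h4⟩ | ⟨h1, h2, h3, h4⟩
    · exact Or.inl (Or.inl ⟨w, ⟨e, h1, h2⟩, by simp only [pr, ← h3, ← h4, κ.symm_apply_apply]⟩)
    · exact Or.inl (Or.inr ⟨w, ⟨e, h1, h2, h5⟩, by simp only [pr, ← h3, ← h4, κ.symm_apply_apply]⟩)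
    · exact Or.inr ⟨w, ⟨e, h1, h2⟩, by simp only [pr, ← h3, ← h4, κ.symm_apply_apply]⟩
  refine ((geo κ h j Q β F b0 b1 hi).cr_le X ?_).trans ?_
  · intro x y x' y' h1 h2 ne s t s' t' hs ht hs' ht' e
    obtain ⟨w, c, e1, r, k, a, b, hr, ha, hb, p, f1⟩ := edge_rep κ h j Q β F b0 b1 h1 hs ht
    obtain ⟨w', c', e2, r', k', a', b', hr', ha', hb', p', f2⟩ :=
      edge_rep κ h j Q β F b0 b1 h2 hs' ht'
    rw [f1, f2] at e
    rw [e1, e2] at ne ⊢
    obtain ⟨g1, g2⟩ := emb_inj e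
    obtain ⟨g3, rfl⟩ := sgn_eq hr hr' g2
    obtain ⟨rfl, rfl, rfl⟩ := F.uniq _ _ _ _ _ _ ha hb ha' hb' (smul_right_injective _ hr.ne' g1)
    rw [g3] at p
    rcases piece_meet F (b0 w) (b1 w) (b0 w') (b1 w') p p' with ⟨m1, m2, m3⟩ | m | m
    · exact absurd (by rw [hi w w' g3 m1 m2, κ.injective m3]) ne
    · exact mem w c w' c' g3 m
    · rw [Sym2.eq_swap]; exact mem w' c' w c g3.symm (g3 ▸ m)
  · refine Nat.cast_le.2 (Finset.card_biUnion_le.trans (Finset.sum_le_sum fun w' _ => ?_))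
    refine (Finset.card_union_le _ _).trans (add_le_add ((Finset.card_union_le _ _).trans
      (add_le_add Finset.card_image_le Finset.card_image_le)) Finset.card_image_le)

end

end Pool.Agent.H167Z.BP
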