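import Pool.Agent.H167Z.BP.Ends

set_option autoImplicit false

namespace Pool.Agent.H167Z.BP

open Filter Topology

/-! ### moving finitely many points to standard position -/

noncomputable def shY (A : ℝ → ℝ) (hA : Continuous A) : ℂ ≃ₜ ℂ where
  toFun z := z + Complex.I * (A z.re : ℝ)
  invFun z := z - Complex.I * (A z.re : ℝ)
  left_inv z := by simp
  right_inv z := by simp
  continuous_toFun := by fun_prop
  continuous_invFun := by fun_prop

noncomputable def shX (A : ℝ → ℝ) (hA : Continuous A) : ℂ ≃ₜ ℂ where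
  toFun z := z + (A z.im : ℝ)
  invFun z := z - (A z.im : ℝ)
  left_inv z := by simp
  right_inv z := by simp
  continuous_toFun := by fun_prop
  continuous_invFun := by fun_prop

lemma shY_app (A : ℝ → ℝ) (hA : Continuous A) (z : ℂ) :
    shY A hA z = z + Complex.I * (A z.re : ℝ) := rfl
lemma shX_app (A : ℝ → ℝ) (hA : Continuous A) (z : ℂ) : shX A hA z = z + (A z.im : ℝ) := rfl

lemma interp {ι : Type} [Fintype ι] (x v : ι → ℝ) (hx : Function.Injective x) :
    ∃ A : ℝ → ℝ, Continuous A ∧ ∀ i, A (x i) = v i := by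
  classical
  refine ⟨fun t => (Lagrange.interpolate Finset.univ x v).eval t, Polynomial.continuous _, ?_⟩
  intro i
  exact Lagrange.eval_interpolate_at_node v hx.injOn (Finset.mem_univ i)

lemma exists_norm {ι : Type} [Fintype ι] (r : ι → ℂ) (hr : Function.Injective r) (t : ι → ℝ)
    (ht : Function.Injective t) : ∃ N : ℂ ≃ₜ ℂ, ∀ i, N (r i) = t i := by
  classical
  obtain ⟨c, hc⟩ := Infinite.exists_notMem_finset
    (Finset.univ.image (fun p : ι × ι => ((r p.2).re - (r p.1).re) / ((r p.1).im - (r p.2).im)))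
  have hx : Function.Injective (fun i => (r i).re + c * (r i).im) := by
    intro i j h
    by_cases him : (r i).im = (r j).im
    · apply hr
      apply Complex.ext _ him
      simp only [him] at h; linarith
    · exfalso; apply hc
      refine Finset.mem_image.2 ⟨(i, j), Finset.mem_univ _, ?_⟩
      have := sub_ne_zero.2 him
      simp only at h ⊢
      field_simp; linarith
  obtain ⟨A, hA, hAv⟩ := interp _ (fun i => t i - (r i).im) hx
  obtain ⟨B, hB, hBv⟩ := interp t (fun i => t i - ((r i).re + c * (r i).im)) ht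
  refine ⟨(((shX (fun y => c * y) (by fun_prop)).trans (shY A hA)).trans (shX B hB)).trans
    (shY (fun x => -x) (by fun_prop)), fun i => ?_⟩
  have e1 : shX (fun y => c * y) (by fun_prop) (r i) = ⟨(r i).re + c * (r i).im, (r i).im⟩ := by
    rw [shX_app]; apply Complex.ext <;> simp
  have e2 : shY A hA ⟨(r i).re + c * (r i).im, (r i).im⟩ = ⟨(r i).re + c * (r i).im, t i⟩ := by
    rw [shY_app]; apply Complex.ext <;> simp [hAv]
  have e3 : shX B hB ⟨(r i).re + c * (r i).im, t i⟩ = ⟨t i, t i⟩ := by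
    rw [shX_app]; apply Complex.ext <;> simp [hBv]
  simp only [Homeomorph.trans_apply]
  rw [e1, e2, e3, shY_app]; apply Complex.ext <;> simp

/-! ### folding the punctured plane onto the ideal polygon -/

noncomputable def HH (x : ℝ) : ℝ := Int.fract x * (1 - Int.fract x)

lemma HH_cont : Continuous HH :=
  ContinuousOn.comp_fract'' (f := fun t : ℝ => t * (1 - t)) (by fun_prop) (by simp)

lemma HH_ge (x : ℝ) (k : ℤ) : (x - k) * (k + 1 - x) ≤ HH x := by
  have h0 := Int.fract_nonneg x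
  have h1 := Int.fract_lt_one x
  have hH : 0 ≤ HH x := mul_nonneg h0 (by linarith)
  have hf := Int.floor_add_fract x
  rcases lt_trichotomy k ⌊x⌋ with h | h | h
  · have : (k : ℝ) + 1 ≤ ⌊x⌋ := by exact_mod_cast h
    nlinarith
  · subst h; unfold HH; apply le_of_eq; rw [Int.fract]; ring
  · have : (⌊x⌋ : ℝ) + 1 ≤ k := by exact_mod_cast h
    nlinarith

lemma HH_nonneg (x : ℝ) : 0 ≤ HH x :=
  mul_nonneg (Int.fract_nonneg x) (by linarith [Int.fract_lt_one x])

noncomputable def eta (n : ℕ) (z : ℂ) : ℝ :=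
  |z.im| + max (|z.re - ((n : ℝ) + 1) / 2| - ((n : ℝ) - 1) / 2) 0
noncomputable def xi (n : ℕ) (z : ℂ) : ℝ :=
  ((n : ℝ) + 1) / 2 + (z.re - ((n : ℝ) + 1) / 2) * (((n : ℝ) - 1) / 2) / (((n : ℝ) - 1) / 2 + eta n z)
noncomputable def ss (n : ℕ) (z : ℂ) : ℝ := HH (xi n z) + eta n z

variable {n : ℕ} (hn : 2 ≤ n)

lemma eta_nonneg (z : ℂ) : 0 ≤ eta n z := add_nonneg (abs_nonneg _) (le_max_right _ _)

lemma eta_cont : Continuous (eta n) := by unfold eta; fun_prop

include hn

lemma R_pos : 0 < ((n : ℝ) - 1) / 2 := by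
  have : (2 : ℝ) ≤ n := by exact_mod_cast hn
  linarith

lemma xi_cont : Continuous (xi n) := by
  unfold xi
  have := eta_cont (n := n)
  refine continuous_const.add (Continuous.div (by fun_prop) (by fun_prop) (fun z => ?_))
  have := R_pos hn; have := eta_nonneg (n := n) z; linarith

lemma ss_cont : Continuous (ss n) := (HH_cont.comp (xi_cont hn)).add eta_cont

lemma xi_mul (z : ℂ) : (xi n z - ((n : ℝ) + 1) / 2) * (((n : ℝ) - 1) / 2 + eta n z) =
    (z.re - ((n : ℝ) + 1) / 2) * (((n : ℝ) - 1) / 2) := by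
  have := R_pos hn; have := eta_nonneg (n := n) z
  unfold xi; rw [add_sub_cancel_left, div_mul_cancel₀]; linarith

lemma xi_bd (z : ℂ) : 1 ≤ xi n z ∧ xi n z ≤ n := by
  have hR := R_pos hn
  have h0 := eta_nonneg (n := n) z
  have h1 := xi_mul hn z
  have h2 : |z.re - ((n : ℝ) + 1) / 2| ≤ ((n : ℝ) - 1) / 2 + eta n z := by
    unfold eta
    linarith [abs_nonneg z.im, le_max_left (|z.re - ((n : ℝ) + 1) / 2| - ((n : ℝ) - 1) / 2) 0]
  obtain ⟨h3, h4⟩ := abs_le.1 h2
  constructor <;> by_contra hc <;> push Not at hc <;> nlinarith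

lemma xi_of_eta {z : ℂ} (h : eta n z = 0) : xi n z = z.re := by
  have hR := R_pos hn
  have h1 := xi_mul hn z
  rw [h, add_zero] at h1
  have := mul_right_cancel₀ hR.ne' h1
  linarith

lemma ss_pos {z : ℂ} (hz : ∀ i : ℕ, 1 ≤ i → i ≤ n → z ≠ (i : ℝ)) : 0 < ss n z := by
  have h0 := eta_nonneg (n := n) z
  have h1 := HH_nonneg (xi n z)
  unfold ss
  by_contra hc
  have e1 : eta n z = 0 := by linarith
  have e2 : HH (xi n z) = 0 := by linarith
  have e3 := xi_of_eta hn e1
  have e4 : z.im = 0 := by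
    unfold eta at e1
    have := le_max_right (|z.re - ((n : ℝ) + 1) / 2| - ((n : ℝ) - 1) / 2) 0
    exact abs_eq_zero.1 (by linarith [abs_nonneg z.im])
  have e5 : Int.fract (xi n z) = 0 := by
    rcases mul_eq_zero.1 e2 with h | h
    · exact h
    · linarith [Int.fract_lt_one (xi n z)]
  obtain ⟨b1, b2⟩ := xi_bd hn z
  have e6 : (⌊xi n z⌋₊ : ℝ) = xi n z := by
    have := Int.floor_add_fract (xi n z)
    rw [e5, add_zero] at this
    rw [← this]
    have h0 : 0 ≤ ⌊xi n z⌋ := Int.floor_nonneg.2 (by linarith)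
    rw [this, ← Int.cast_natCast, Int.natCast_floor_eq_floor (by linarith), this]
  refine hz ⌊xi n z⌋₊ (Nat.one_le_floor_iff _ |>.2 b1) (Nat.floor_le_of_le b2) ?_
  rw [e6, e3]; apply Complex.ext <;> simp [e4]

lemma side_val (z : ℂ) (j : Fin (n + 1)) :
    ((j : ℕ) = 0 ∧ FF (xi n z) (ss n z) (al n j) (be n j) = xi n z - 1) ∨
    (1 ≤ (j : ℕ) ∧ (j : ℕ) + 1 ≤ n ∧ FF (xi n z) (ss n z) (al n j) (be n j) =
      ss n z - (xi n z - (j : ℕ)) * ((j : ℕ) + 1 - xi n z)) ∨
    ((j : ℕ) = n ∧ FF (xi n z) (ss n z) (al n j) (be n j) = n - xi n z) := by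
  rcases side_cases hn j with ⟨j0, h1, h2⟩ | ⟨j1, j2, h1, h2⟩ | ⟨j0, h1, h2⟩
  · left; refine ⟨j0, ?_⟩; simp [h1, h2, FF]
  · right; left; refine ⟨j1, j2, ?_⟩; simp [h1, h2, FF]; ring
  · right; right; refine ⟨j0, ?_⟩; simp [h1, h2, FF]

omit hn in
lemma mid_ge (z : ℂ) (j : ℕ) : eta n z ≤ ss n z - (xi n z - j) * (j + 1 - xi n z) := by
  have := HH_ge (xi n z) j
  unfold ss; push_cast at this; linarith

lemma fold_InP {z : ℂ} (hz : ∀ i : ℕ, 1 ≤ i → i ≤ n → z ≠ (i : ℝ)) : InP n (xi n z) (ss n z) := by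
  refine ⟨ss_pos hn hz, fun j => ?_⟩
  have := xi_bd hn z
  rcases side_val hn z j with ⟨-, h⟩ | ⟨-, -, h⟩ | ⟨-, h⟩ <;> rw [h]
  · linarith [this.1]
  · linarith [mid_ge (n := n) z j, eta_nonneg (n := n) z]
  · linarith [this.2]

lemma fold_side (z : ℂ) : z.im = 0 ↔ ∃ j, FF (xi n z) (ss n z) (al n j) (be n j) = 0 := by
  have hR := R_pos hn
  have h0 := eta_nonneg (n := n) z
  have h1 := xi_mul hn z
  constructor
  · intro h
    by_cases c1 : z.re ≤ 1
    · refine ⟨0, ?_⟩
      have e : eta n z = 1 - z.re := by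
        unfold eta; rw [h, abs_zero, zero_add, abs_of_nonpos (by linarith), max_eq_left (by linarith)]
        ring
      rcases side_val hn z 0 with ⟨-, k⟩ | ⟨k, -⟩ | ⟨k, -⟩
      · rw [k]; rw [e] at h1
        have : (xi n z - 1) * (((n : ℝ) - 1) / 2 + (1 - z.re)) = 0 := by linarith
        exact (mul_eq_zero.1 this).resolve_right (by linarith)
      · simp at k
      · simp at k; omega
    · by_cases c2 : (n : ℝ) ≤ z.re
      · refine ⟨Fin.last n, ?_⟩
        have e : eta n z = z.re - n := by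
          unfold eta
          rw [h, abs_zero, zero_add, abs_of_nonneg (by linarith), max_eq_left (by linarith)]
          ring
        rcases side_val hn z (Fin.last n) with ⟨k, -⟩ | ⟨-, k, -⟩ | ⟨-, k⟩
        · simp at k; omega
        · simp at k
        · rw [k]; rw [e] at h1
          have : (n - xi n z) * (((n : ℝ) - 1) / 2 + (z.re - n)) = 0 := by linarith
          exact (mul_eq_zero.1 this).resolve_right (by linarith)
      · push Not at c1 c2
        have e : eta n z = 0 := by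
          unfold eta
          rw [h, abs_zero, zero_add, max_eq_right]
          have : |z.re - ((n : ℝ) + 1) / 2| ≤ ((n : ℝ) - 1) / 2 := abs_le.2 ⟨by linarith, by linarith⟩
          linarith
        have e2 := xi_of_eta hn e
        have f1 : 1 ≤ ⌊z.re⌋₊ := (Nat.one_le_floor_iff _).2 c1.le
        have f2 : ⌊z.re⌋₊ < n := (Nat.floor_lt (by linarith)).2 c2
        refine ⟨⟨⌊z.re⌋₊, by omega⟩, ?_⟩
        rcases side_val hn z ⟨⌊z.re⌋₊, by omega⟩ with ⟨k, -⟩ | ⟨-, -, k⟩ | ⟨k, -⟩
        · simp at k; linarith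
        · rw [k]; unfold ss HH; rw [e, e2, Int.fract]
          have : ((⌊z.re⌋₊ : ℕ) : ℝ) = (⌊z.re⌋ : ℤ) := by
            rw [← Int.cast_natCast, Int.natCast_floor_eq_floor (by linarith)]
          simp only [this]; ring
        · simp at k; omega
  · rintro ⟨j, hj⟩
    have m1 := le_max_left (|z.re - ((n : ℝ) + 1) / 2| - ((n : ℝ) - 1) / 2) 0
    have m2 := le_max_right (|z.re - ((n : ℝ) + 1) / 2| - ((n : ℝ) - 1) / 2) 0
    have m3 := abs_nonneg z.im
    have m4 := le_abs_self (z.re - ((n : ℝ) + 1) / 2)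
    have m5 := neg_abs_le (z.re - ((n : ℝ) + 1) / 2)
    have e0 : eta n z = |z.im| + max (|z.re - ((n : ℝ) + 1) / 2| - ((n : ℝ) - 1) / 2) 0 := rfl
    apply abs_eq_zero.1
    rcases side_val hn z j with ⟨-, k⟩ | ⟨-, -, k⟩ | ⟨-, k⟩ <;> rw [k] at hj
    · have e : xi n z = 1 := by linarith
      rw [e] at h1
      have : (((n : ℝ) - 1) / 2) * (((n : ℝ) + 1) / 2 - z.re - (((n : ℝ) - 1) / 2 + eta n z)) = 0 := by
        linarith
      have := (mul_eq_zero.1 this).resolve_left hR.ne'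
      linarith
    · linarith [mid_ge (n := n) z j]
    · have e : xi n z = n := by linarith
      rw [e] at h1
      have : (((n : ℝ) - 1) / 2) * (z.re - ((n : ℝ) + 1) / 2 - (((n : ℝ) - 1) / 2 + eta n z)) = 0 := by
        linarith
      have := (mul_eq_zero.1 this).resolve_left hR.ne'
      linarith

lemma fold_inj {z z' : ℂ} (h1 : xi n z = xi n z') (h2 : ss n z = ss n z')
    (h3 : 0 ≤ z.im ↔ 0 ≤ z'.im) : z = z' := by
  have hR := R_pos hn
  have e1 : eta n z = eta n z' := by unfold ss at h2; rw [h1] at h2; linarith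
  have e2 : z.re = z'.re := by
    have a := xi_mul hn z
    have b := xi_mul hn z'
    rw [h1, e1, b] at a
    have := mul_right_cancel₀ hR.ne' a
    linarith
  have e3 : |z.im| = |z'.im| := by unfold eta at e1; rw [e2] at e1; linarith
  apply Complex.ext e2
  by_cases h : 0 ≤ z.im
  · rwa [abs_of_nonneg h, abs_of_nonneg (h3.1 h)] at e3
  · have h' : ¬0 ≤ z'.im := fun x => h (h3.2 x)
    rw [abs_of_neg (not_le.1 h), abs_of_neg (not_le.1 h')] at e3; linarith

omit hn in
lemma eta_top : Tendsto (eta n) (cocompact ℂ) atTop := by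
  have h : Tendsto (fun z : ℂ => ‖z‖ + -(n : ℝ)) (cocompact ℂ) atTop :=
    tendsto_atTop_add_const_right _ _ tendsto_norm_cocompact_atTop
  refine tendsto_atTop_mono (fun z => ?_) h
  have m1 := le_max_left (|z.re - ((n : ℝ) + 1) / 2| - ((n : ℝ) - 1) / 2) 0
  have m2 := Complex.norm_le_abs_re_add_abs_im z
  have m3 : |z.re| ≤ |z.re - ((n : ℝ) + 1) / 2| + ((n : ℝ) + 1) / 2 := by
    have := abs_add_le (z.re - ((n : ℝ) + 1) / 2) (((n : ℝ) + 1) / 2)
    rwa [sub_add_cancel, abs_of_nonneg (a := ((n : ℝ) + 1) / 2) (by positivity)] at this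
  unfold eta; linarith

lemma node_val (i : ℕ) (h1 : 1 ≤ i) (h2 : i ≤ n) : xi n (i : ℝ) = i ∧ ss n (i : ℝ) = 0 := by
  have a : (1 : ℝ) ≤ i := by exact_mod_cast h1
  have b : (i : ℝ) ≤ n := by exact_mod_cast h2
  have e : eta n ((i : ℝ) : ℂ) = 0 := by
    unfold eta
    simp only [Complex.ofReal_im, abs_zero, zero_add, Complex.ofReal_re]
    apply max_eq_right
    have : |(i : ℝ) - ((n : ℝ) + 1) / 2| ≤ ((n : ℝ) - 1) / 2 := abs_le.2 ⟨by linarith, by linarith⟩
    linarith
  have e2 := xi_of_eta hn e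
  refine ⟨e2, ?_⟩
  unfold ss HH; rw [e, e2]; simp

/-- the data of a folding chart for the plane punctured at the points `p c` -/
structure Chart (n : ℕ) (p : Fin (n + 1) → ℂ) (X S Y : ℂ → ℝ) : Prop where
  cX : ContinuousOn X {z | ∀ c, z ≠ p c}
  cS : ContinuousOn S {z | ∀ c, z ≠ p c}
  cY : ContinuousOn Y {z | ∀ c, z ≠ p c}
  inP : ∀ z, (∀ c, z ≠ p c) → InP n (X z) (S z)
  side : ∀ z, Y z = 0 ↔ ∃ j, FF (X z) (S z) (al n j) (be n j) = 0
  inj : ∀ z z', (∀ c, z ≠ p c) → (∀ c, z' ≠ p c) → X z = X z' → S z = S z' →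
    (0 ≤ Y z ↔ 0 ≤ Y z') → z = z'
  horo : ∀ c : Fin (n + 1), Tendsto (fun z => FF (X z) (S z) (qv n c) (qv n c) ^ 2 / S z)
    (𝓝[{z | ∀ c, z ≠ p c}] (p c)) (𝓝 0)
  near : ∀ c : Fin (n + 1), ∀ᶠ z in 𝓝[{z | ∀ c, z ≠ p c}] (p c),
    ∀ j, FF (X z) (S z) (al n j) (be n j) = 0 → cone n j (qv n c) = 0

theorem exists_chart (p : Fin (n + 1) → ℂ) (hp : Function.Injective p) :
    ∃ X S Y : ℂ → ℝ, Chart n p X S Y := by
  obtain ⟨N, hN⟩ := exists_norm (fun i : Fin n => (p i.succ - p 0)⁻¹)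
    (fun i j h => Fin.succ_injective _ (hp (by simpa using h))) (fun i => ((i : ℕ) : ℝ) + 1)
    (fun i j h => Fin.ext (by simpa using h))
  set Φ : ℂ → ℂ := fun z => N (z - p 0)⁻¹ with hΦ
  have Φinj : Function.Injective Φ := fun z z' h => by simpa using N.injective h
  have Φc : ∀ z, z ≠ p 0 → ContinuousAt Φ z := fun z hz =>
    N.continuous.continuousAt.comp (ContinuousAt.inv₀ (by fun_prop) (sub_ne_zero.2 hz))
  have Φon : ContinuousOn Φ {z | ∀ c, z ≠ p c} := fun z hz => (Φc z (hz 0)).continuousWithinAt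
  have Φp : ∀ c : Fin (n + 1), c ≠ 0 → Φ (p c) = ((c : ℕ) : ℝ) := by
    intro c hc
    obtain ⟨i, rfl⟩ := Fin.exists_succ_eq.2 hc
    have := hN i
    simp only [hΦ]; rw [this]; simp
  have Φne : ∀ z, (∀ c, z ≠ p c) → ∀ i : ℕ, 1 ≤ i → i ≤ n → Φ z ≠ (i : ℝ) := by
    intro z hz i h1 h2 h
    have := Φp ⟨i, by omega⟩ (by intro e; simp at e; omega)
    exact hz _ (Φinj (h.trans this.symm))
  have Φinf : Tendsto Φ (𝓝[{z | ∀ c, z ≠ p c}] (p 0)) (cocompact ℂ) := by
    have h1 : Tendsto (fun z => z - p 0) (𝓝[{z | ∀ c, z ≠ p c}] (p 0)) (𝓝[≠] 0) := by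
      apply tendsto_nhdsWithin_iff.2
      constructor
      · have : Tendsto (fun z => z - p 0) (𝓝 (p 0)) (𝓝 (p 0 - p 0)) :=
          (continuous_id.sub continuous_const).tendsto _
        rw [sub_self] at this
        exact this.mono_left nhdsWithin_le_nhds
      · filter_upwards [self_mem_nhdsWithin] with z hz using sub_ne_zero.2 (hz 0)
    have h2 := (tendsto_inv₀_nhdsNE_zero (α := ℂ)).comp h1
    rw [Metric.cobounded_eq_cocompact] at h2
    exact (N.isClosedEmbedding.tendsto_cocompact).comp h2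
  have etop := (eta_top (n := n)).comp Φinf
  have lim : ∀ c : Fin (n + 1), c ≠ 0 →
      Tendsto (fun z => xi n (Φ z)) (𝓝[{z | ∀ c, z ≠ p c}] (p c)) (𝓝 (c : ℕ)) ∧
      Tendsto (fun z => ss n (Φ z)) (𝓝[{z | ∀ c, z ≠ p c}] (p c)) (𝓝 0) := by
    intro c hc
    have c1 : 1 ≤ (c : ℕ) := Nat.one_le_iff_ne_zero.2 (fun e => hc (Fin.ext e))
    have v := node_val hn c c1 (by omega)
    have t := (Φc (p c) (fun e => hc (hp e))).tendsto
    rw [Φp c hc] at t
    constructor
    · have := ((xi_cont hn).tendsto _).comp t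
      rw [v.1] at this; exact this.mono_left nhdsWithin_le_nhds
    · have := ((ss_cont hn).tendsto _).comp t
      rw [v.2] at this; exact this.mono_left nhdsWithin_le_nhds
  have qfin : ∀ c : Fin (n + 1), c ≠ 0 → qv n c = (((c : ℕ) : ℝ), 1) := by
    intro c hc
    have h0 : (c : ℕ) ≠ 0 := fun e => hc (Fin.ext e)
    unfold qv; rw [if_neg h0, if_pos (by omega)]
  refine ⟨fun z => xi n (Φ z), fun z => ss n (Φ z), fun z => (Φ z).im,
    (xi_cont hn).comp_continuousOn Φon, (ss_cont hn).comp_continuousOn Φon,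
    Complex.continuous_im.comp_continuousOn Φon, fun z hz => fold_InP hn (Φne z hz),
    fun z => fold_side hn _, fun z z' _ _ h1 h2 h3 => Φinj (fold_inj hn h1 h2 h3), ?_, ?_⟩
  · intro c
    by_cases hc : c = 0
    · subst hc
      have : ∀ x s, FF x s (qv n (0 : Fin (n + 1))) (qv n (0 : Fin (n + 1))) = 1 := by
        intro x s; simp [qv, FF]
      simp only [this, one_pow]
      refine Tendsto.div_atTop tendsto_const_nhds (tendsto_atTop_mono (fun z => ?_) etop)
      have := HH_nonneg (xi n (Φ z))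
      simp only [ss, Function.comp]; linarith
    · obtain ⟨l1, l2⟩ := lim c hc
      have l3 : Tendsto (fun z => 4 * ss n (Φ z)) (𝓝[{z | ∀ c, z ≠ p c}] (p c)) (𝓝 0) := by
        simpa using l2.const_mul 4
      refine squeeze_zero' ?_ ?_ l3
      · filter_upwards [self_mem_nhdsWithin] with z hz
        have := ss_pos hn (Φne z hz); positivity
      · have ev := l1.eventually (Metric.ball_mem_nhds ((c : ℕ) : ℝ) (show (0 : ℝ) < 1 / 2 by norm_num))
        filter_upwards [self_mem_nhdsWithin, ev] with z hz hb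
        have sp := ss_pos hn (Φne z hz)
        rw [Real.dist_eq, abs_lt] at hb
        have g1 := mid_ge (n := n) (Φ z) c
        have g2 := HH_ge (xi n (Φ z)) ((c : ℕ) - 1)
        have g3 := eta_nonneg (n := n) (Φ z)
        push_cast at g2
        have g4 : HH (xi n (Φ z)) ≤ ss n (Φ z) := by unfold ss; linarith
        have g5 : ((c : ℕ) - xi n (Φ z)) ^ 2 ≤ ss n (Φ z) := by
          by_cases hx : ((c : ℕ) : ℝ) ≤ xi n (Φ z) <;> nlinarith [hb.1, hb.2]
        rw [qfin c hc, div_le_iff₀ sp]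
        simp only [FF, mul_one]
        nlinarith [sq_nonneg ((c : ℕ) - xi n (Φ z))]
  · intro c
    by_cases hc : c = 0
    · subst hc
      filter_upwards [etop.eventually (eventually_gt_atTop 0)] with z hz j hj
      rcases side_val hn (Φ z) j with ⟨k, -⟩ | ⟨-, -, k⟩ | ⟨k, -⟩
      · simp [cone, al, k, om, qv]
      · have := mid_ge (n := n) (Φ z) j
        simp only [Function.comp] at hz; linarith
      · simp [cone, be, k, om, qv]
    · obtain ⟨l1, l2⟩ := lim c hc
      rw [eventually_all]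
      intro j
      rcases (cone_cusp hn c j).lt_or_eq with h | h
      · have t : Tendsto (fun z => FF (xi n (Φ z)) (ss n (Φ z)) (al n j) (be n j))
            (𝓝[{z | ∀ c, z ≠ p c}] (p c)) (𝓝 (FF (c : ℕ) 0 (al n j) (be n j))) := by
          unfold FF
          exact ((tendsto_const_nhds.sub (l1.mul_const _)).mul
            (tendsto_const_nhds.sub (l1.mul_const _))).add ((l2.mul_const _).mul_const _)
        have e : FF (c : ℕ) 0 (al n j) (be n j) = cone n j (qv n c) := by
          rw [qfin c hc]; simp [FF, cone, om]; ring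
        rw [e] at t
        filter_upwards [t.eventually (lt_mem_nhds h)] with z hz h0
        exact absurd h0 hz.ne'
      · exact Eventually.of_forall fun _ _ => h.symm

end Pool.Agent.H167Z.BP
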