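import Pool.Agent.H167Z.BP.Ends

set_option autoImplicit false

namespace Pool.Agent.H167Z.BP

variable {n : ℕ} (hn : 2 ≤ n)

def Mid (D : Finset (Fin (n + 1))) (b : Fin (n + 1) → Fin (n + 1)) (j : Fin (n + 1)) : Prop :=
  ∃ e₁ ∈ D, ∃ e ∈ D, ∃ e₂ ∈ D, b e₁ < j ∧ b e = j ∧ j < b e₂

lemma Mid.new {D : Finset (Fin (n + 1))} {b : Fin (n + 1) → Fin (n + 1)} {j e : Fin (n + 1)}
    (h : Mid (insert e D) b j) (h' : ¬Mid D b j) :
    (∀ f ∈ D, b f ≠ b e) ∧ ∃ f ∈ D, ∃ f' ∈ D, b f ≠ b f' := by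
  obtain ⟨e₁, m₁, e₀, m₀, e₂, m₂, l₁, l₀, l₂⟩ := h
  constructor
  · intro f hf hfe
    apply h'
    have r : ∀ x ∈ insert e D, ∃ y ∈ D, b y = b x := by
      intro x hx
      rcases Finset.mem_insert.1 hx with rfl | hx
      · exact ⟨f, hf, hfe⟩
      · exact ⟨x, hx, rfl⟩
    obtain ⟨y₁, k₁, q₁⟩ := r e₁ m₁
    obtain ⟨y₀, k₀, q₀⟩ := r e₀ m₀
    obtain ⟨y₂, k₂, q₂⟩ := r e₂ m₂
    exact ⟨y₁, k₁, y₀, k₀, y₂, k₂, q₁ ▸ l₁, q₀ ▸ l₀, q₂ ▸ l₂⟩
  · rcases Finset.mem_insert.1 m₁ with rfl | n₁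
    · have m₀' : e₀ ∈ D := (Finset.mem_insert.1 m₀).resolve_left (by rintro rfl; omega)
      have m₂' : e₂ ∈ D := (Finset.mem_insert.1 m₂).resolve_left (by rintro rfl; omega)
      exact ⟨e₀, m₀', e₂, m₂', by omega⟩
    · clear m₁
      rcases Finset.mem_insert.1 m₀ with rfl | n₀
      · have m₂' : e₂ ∈ D := (Finset.mem_insert.1 m₂).resolve_left (by rintro rfl; omega)
        exact ⟨e₁, n₁, e₂, m₂', by omega⟩
      · exact ⟨e₁, n₁, e₀, n₀, by omega⟩

lemma Mid.new_lt {D : Finset (Fin (n + 1))} {b : Fin (n + 1) → Fin (n + 1)} {j j' e : Fin (n + 1)}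
    (h : Mid (insert e D) b j) (h' : ¬Mid D b j) (k : Mid (insert e D) b j') (k' : ¬Mid D b j')
    (hl : j < j') : False := by
  obtain ⟨e₁, m₁, e₀, m₀, -, -, l₁, l₀, -⟩ := h
  obtain ⟨-, -, f₀, p₀, f₂, p₂, -, r₀, r₂⟩ := k
  rcases Finset.mem_insert.1 m₁ with rfl | n₁
  · have a : e₀ ∈ D := (Finset.mem_insert.1 m₀).resolve_left (by rintro rfl; omega)
    have c : f₀ ∈ D := (Finset.mem_insert.1 p₀).resolve_left (by rintro rfl; omega)
    have d : f₂ ∈ D := (Finset.mem_insert.1 p₂).resolve_left (by rintro rfl; omega)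
    exact k' ⟨e₀, a, f₀, c, f₂, d, by omega, r₀, r₂⟩
  · rcases Finset.mem_insert.1 m₀ with rfl | n₀
    · have c : f₀ ∈ D := (Finset.mem_insert.1 p₀).resolve_left (by rintro rfl; omega)
      have d : f₂ ∈ D := (Finset.mem_insert.1 p₂).resolve_left (by rintro rfl; omega)
      exact k' ⟨e₁, n₁, f₀, c, f₂, d, by omega, r₀, r₂⟩
    · rcases Finset.mem_insert.1 p₀ with rfl | q₀
      · have d : f₂ ∈ D := (Finset.mem_insert.1 p₂).resolve_left (by rintro rfl; omega)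
        exact h' ⟨e₁, n₁, e₀, n₀, f₂, d, l₁, l₀, by omega⟩
      · exact h' ⟨e₁, n₁, e₀, n₀, f₀, q₀, l₁, l₀, by omega⟩

lemma Mid.exists_new {D : Finset (Fin (n + 1))} {b : Fin (n + 1) → Fin (n + 1)} {e : Fin (n + 1)}
    (h1 : ∀ f ∈ D, b f ≠ b e) (h2 : ∃ f ∈ D, ∃ f' ∈ D, b f ≠ b f') :
    ∃ j, Mid (insert e D) b j ∧ ¬Mid D b j := by
  obtain ⟨f, hf, f', hf', hne⟩ := h2
  obtain ⟨a, ha, hmin⟩ := D.exists_min_image b ⟨f, hf⟩
  obtain ⟨z, hz, hmax⟩ := D.exists_max_image b ⟨f, hf⟩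
  have haz : b a < b z := by
    have := hmin f hf; have := hmin f' hf'; have := hmax f hf; have := hmax f' hf'
    omega
  have ma := Finset.mem_insert_of_mem (b := e) ha
  have mz := Finset.mem_insert_of_mem (b := e) hz
  have me := Finset.mem_insert_self e D
  rcases lt_or_gt_of_ne (h1 a ha) with l | l
  · rcases lt_or_gt_of_ne (h1 z hz) with l' | l'
    · refine ⟨b z, ⟨a, ma, z, mz, e, me, haz, rfl, l'⟩, ?_⟩
      rintro ⟨-, -, -, -, y, hy, -, -, l2⟩
      exact absurd (hmax y hy) (not_le.2 l2)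
    · refine ⟨b e, ⟨a, ma, e, me, z, mz, l, rfl, l'⟩, ?_⟩
      rintro ⟨-, -, y, hy, -, -, -, l2, -⟩
      exact h1 y hy l2
  · refine ⟨b a, ⟨e, me, a, ma, z, mz, l, rfl, haz⟩, ?_⟩
    rintro ⟨y, hy, -, -, -, -, l2, -, -⟩
    exact absurd (hmin y hy) (not_le.2 l2)

/-- the tokens of a star with ends `u c`, `c ∈ D` -/
def TT (u : Fin (n + 1) → V2) (D : Finset (Fin (n + 1))) : Set (GG × Fin (n + 1)) :=
  {p | p.1 ∈ WW hn ∧ Mid D (fun c => bb n p.1 (u c)) p.2}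

lemma TT_mono (u : Fin (n + 1) → V2) {D D' : Finset (Fin (n + 1))} (h : D ⊆ D') :
    TT hn u D ⊆ TT hn u D' := by
  rintro p ⟨h1, e₁, m₁, e₀, m₀, e₂, m₂, l⟩
  exact ⟨h1, e₁, h m₁, e₀, h m₀, e₂, h m₂, l⟩

lemma TT_sub (u : Fin (n + 1) → V2) (D : Finset (Fin (n + 1))) (e : Fin (n + 1))
    (hu : ∀ c ∈ insert e D, u c ≠ 0) : (TT hn u (insert e D) \ TT hn u D).Subsingleton := by
  rintro ⟨h, j⟩ ⟨⟨hW, m⟩, nm⟩ ⟨h', j'⟩ ⟨⟨hW', m'⟩, nm'⟩
  have nm1 : ¬Mid D (fun c => bb n h (u c)) j := fun x => nm ⟨hW, x⟩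
  have nm1' : ¬Mid D (fun c => bb n h' (u c)) j' := fun x => nm' ⟨hW', x⟩
  have hh : h = h' := by
    obtain ⟨l, hl, el⟩ := exists_red hn (mul_mem (inv_mem hW) hW')
    cases l with
    | nil => exact inv_mul_eq_one.1 el
    | cons k l =>
      exfalso
      have e' : h' = h * pr hn (k :: l) := by rw [← el]; simp
      have A : ∀ c ∈ insert e D, bb n h (u c) ≠ k →
          bb n h' (u c) = (k :: l).getLast (by simp) := fun c hc hb => by
        rw [e']; exact bb_nest hn (hu c hc) l k hl h hb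
      obtain ⟨a1, f, hf, f', hf', a2⟩ := m.new nm1
      obtain ⟨b1, g, hg, g', hg', b2⟩ := m'.new nm1'
      have ex : ∃ x ∈ D, bb n h (u x) ≠ k := by
        by_cases hx : bb n h (u f) = k
        · exact ⟨f', hf', fun y => a2 (hx.trans y.symm)⟩
        · exact ⟨f, hf, hx⟩
      obtain ⟨x, hx, hxk⟩ := ex
      have c1 := A x (Finset.mem_insert_of_mem hx) hxk
      have c2 : bb n h (u e) = k := by
        by_contra hc
        exact b1 x hx (c1.trans (A e (Finset.mem_insert_self _ _) hc).symm)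
      have c3 : ∀ y ∈ D, bb n h' (u y) = (k :: l).getLast (by simp) := fun y hy =>
        A y (Finset.mem_insert_of_mem hy) (by rw [← c2]; exact a1 y hy)
      exact b2 ((c3 g hg).trans (c3 g' hg').symm)
  subst hh
  have : j = j' := by
    rcases lt_trichotomy j j' with l | l | l
    · exact (Mid.new_lt m nm1 m' nm1' l).elim
    · exact l
    · exact (Mid.new_lt m' nm1' m nm1 l).elim
  rw [this]

lemma TT_new (u : Fin (n + 1) → V2) (D : Finset (Fin (n + 1))) (e : Fin (n + 1)) (he : e ∉ D)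
    (hD : 2 ≤ D.card) (hu : ∀ c ∈ insert e D, IsEnd hn c (u c)) :
    (TT hn u (insert e D) \ TT hn u D).Nonempty := by
  have huD : ∀ c ∈ D, IsEnd hn c (u c) := fun c hc => hu c (Finset.mem_insert_of_mem hc)
  have hue := hu e (Finset.mem_insert_self _ _)
  obtain ⟨f, hf, f', hf', hff⟩ := Finset.one_lt_card.1 hD
  obtain ⟨N, hN⟩ := diverge hn (huD f hf) (huD f' hf') hff (one_mem _)
  set h₀ := fol hn (u f) 1 N with hh₀
  have h₀W : h₀ ∈ WW hn := fol_mem hn _ (one_mem _) N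
  have key : ∀ m, (∃ x ∈ D, ∃ y ∈ D, bb n (fol hn (u e) h₀ m) (u x) ≠ bb n (fol hn (u e) h₀ m) (u y))
      ∨ (TT hn u (insert e D) \ TT hn u D).Nonempty := by
    intro m
    induction m with
    | zero => exact Or.inl ⟨f', hf', f, hf, hN N le_rfl⟩
    | succ m ih =>
      rcases ih with ih | ih
      · by_cases hc : ∀ x ∈ D, bb n (fol hn (u e) h₀ m) (u x) ≠ bb n (fol hn (u e) h₀ m) (u e)
        · right
          obtain ⟨j, h1, h2⟩ := Mid.exists_new (b := fun c => bb n (fol hn (u e) h₀ m) (u c)) hc ih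
          exact ⟨(fol hn (u e) h₀ m, j), ⟨fol_mem hn _ h₀W m, h1⟩, fun x => h2 x.2⟩
        · left
          push Not at hc
          obtain ⟨z, hz, hze⟩ := hc
          obtain ⟨x, hx, y, hy, hxy⟩ := ih
          have ex : ∃ x ∈ D, bb n (fol hn (u e) h₀ m) (u x) ≠ bb n (fol hn (u e) h₀ m) (u e) := by
            by_cases h : bb n (fol hn (u e) h₀ m) (u x) = bb n (fol hn (u e) h₀ m) (u e)
            · exact ⟨y, hy, fun q => hxy (h.trans q.symm)⟩
            · exact ⟨x, hx, h⟩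
          obtain ⟨x, hx, hxe⟩ := ex
          refine ⟨z, hz, x, hx, ?_⟩
          rw [fol, (bb_step hn _ ((huD x hx).ne hn) _).2 hxe]
          exact (bb_step hn _ ((huD z hz).ne hn) _).not.2 (by simp [hze])
      · exact Or.inr ih
  have hdiv : ∀ x ∈ D, ∃ N, ∀ m ≥ N, bb n (fol hn (u e) h₀ m) (u x) ≠
      bb n (fol hn (u e) h₀ m) (u e) := fun x hx =>
    diverge hn hue (huD x hx) (fun q => he (q ▸ hx)) h₀W
  choose! M hM using hdiv
  rcases key (D.sup M) with k | k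
  · obtain ⟨j, h1, h2⟩ := Mid.exists_new (b := fun c => bb n (fol hn (u e) h₀ (D.sup M)) (u c))
      (fun x hx => hM x hx _ (Finset.le_sup hx)) k
    exact ⟨(fol hn (u e) h₀ (D.sup M), j), ⟨fol_mem hn _ h₀W _, h1⟩, fun x => h2 x.2⟩
  · exact k

lemma TT_diff (u : Fin (n + 1) → V2) (D₀ C : Finset (Fin (n + 1)))
    (hu : ∀ c ∈ D₀ ∪ C, u c ≠ 0) : (TT hn u (D₀ ∪ C) \ TT hn u D₀).encard ≤ C.card := by
  induction C using Finset.induction_on with
  | empty => simp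
  | insert e C he ih =>
    have e1 : D₀ ∪ insert e C = insert e (D₀ ∪ C) := by simp
    rw [e1] at hu ⊢
    have h1 := ih (fun c hc => hu c (Finset.mem_insert_of_mem hc))
    have h2 := Set.encard_le_one_iff_subsingleton.2 (TT_sub hn u (D₀ ∪ C) e hu)
    calc (TT hn u (insert e (D₀ ∪ C)) \ TT hn u D₀).encard
        ≤ ((TT hn u (insert e (D₀ ∪ C)) \ TT hn u (D₀ ∪ C)) ∪
            (TT hn u (D₀ ∪ C) \ TT hn u D₀)).encard := by
          apply Set.encard_le_encard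
          intro p hp
          by_cases h : p ∈ TT hn u (D₀ ∪ C)
          · exact Or.inr ⟨h, hp.2⟩
          · exact Or.inl ⟨hp.1, h⟩
      _ ≤ 1 + C.card := (Set.encard_union_le _ _).trans (add_le_add h2 h1)
      _ = _ := by rw [Finset.card_insert_of_notMem he]; push_cast; ring

lemma TT_finite (u : Fin (n + 1) → V2) (D : Finset (Fin (n + 1))) (hu : ∀ c ∈ D, u c ≠ 0) :
    (TT hn u D).Finite := by
  have h := TT_diff hn u ∅ D (by simpa using hu)
  have : TT hn u ∅ = ∅ := by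
    ext p; simp [TT, Mid]
  rw [this, Finset.empty_union, Set.sdiff_empty] at h
  exact Set.finite_of_encard_le_coe h

lemma TT_card (u : Fin (n + 1) → V2) (D : Finset (Fin (n + 1)))
    (hu : ∀ c ∈ D, IsEnd hn c (u c)) : D.card ≤ (TT hn u D).ncard + 2 := by
  induction D using Finset.induction_on with
  | empty => simp
  | insert e D he ih =>
    rw [Finset.card_insert_of_notMem he]
    by_cases hD : 2 ≤ D.card
    · have h1 := ih (fun c hc => hu c (Finset.mem_insert_of_mem hc))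
      obtain ⟨p, hp, hp'⟩ := TT_new hn u D e he hD hu
      have h2 : (TT hn u D).ncard < (TT hn u (insert e D)).ncard :=
        Set.ncard_lt_ncard ⟨TT_mono hn u (Finset.subset_insert _ _), fun h => hp' (h hp)⟩
          (TT_finite hn u _ (fun c hc => (hu c hc).ne hn))
      omega
    · omega

end Pool.Agent.H167Z.BP
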