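import Mathlib

set_option autoImplicit false

namespace Pool.Agent.H167Z.BP

open Complex

lemma log_unique (φ : ℝ → ℂ) (hφ : Continuous φ) (c : ℂ) (h : ∀ t, exp (φ t) = c) (s t : ℝ) :
    φ s = φ t :=
  Complex.isCoveringMap_exp.const_of_comp hφ (fun a a' => Subtype.ext (by simp [h])) s t

lemma exists_log2 (g : ℝ × ℝ → ℂ) (hg : Continuous g) (h0 : ∀ x, g x ≠ 0) :
    ∃ L : ℝ × ℝ → ℂ, Continuous L ∧ ∀ x, exp (L x) = g x := by
  obtain ⟨F, ⟨-, hF⟩, -⟩ := Complex.isCoveringMapOn_exp.existsUnique_continuousMap_lifts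
    (⟨g, hg⟩ : C(ℝ × ℝ, ℂ)) (a₀ := (0, 0)) (e₀ := log (g (0, 0))) (exp_log (h0 _))
    (fun a => h0 a)
  exact ⟨F, F.continuous, fun x => congrFun hF x⟩

lemma slit_of_re {z : ℂ} (h : 0 ≤ z.re) (h0 : z ≠ 0) : z ∈ slitPlane := by
  rw [mem_slitPlane_iff]
  rcases h.lt_or_eq with h | h
  · exact Or.inl h
  · right; intro him; exact h0 (Complex.ext h.symm him)

/-- jump of the two branches of the logarithm on the real line -/
noncomputable def Jm (u : ℝ) : ℂ := log (-I * u) - log (I * u)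

lemma Jm_pos {u : ℝ} (h : 0 < u) : Jm u = -(Real.pi * I) := by
  unfold Jm
  rw [mul_comm (-I), mul_comm I, log_ofReal_mul h (by simp), log_ofReal_mul h I_ne_zero,
    log_I, log_neg_I]
  ring

lemma Jm_neg {u : ℝ} (h : u < 0) : Jm u = Real.pi * I := by
  have h1 : Jm u = -Jm (-u) := by
    unfold Jm; push_cast
    rw [show -I * -(u : ℂ) = I * u by ring, show I * -(u : ℂ) = -I * u by ring]; ring
  rw [h1, Jm_pos (by linarith)]; ring

lemma tripod_step (e f : ℝ → ℂ) (he : Continuous e) (hf : Continuous f) (a x : ℝ)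
    (he1 : e 1 = a) (hf1 : f 1 = x) (him : ∀ s, 0 ≤ (e s).im) (hd : ∀ s t, e s ≠ f t) :
    ∃ α : ℝ → ℂ, Continuous α ∧ (∀ t, exp (α t) = (a - f t) / (e 0 - f t)) ∧
      α 1 = log (-I * (a - x : ℝ)) - log (-I * (e 0 - x)) ∧
      (∀ L : ℝ → ℂ, Continuous L → (∀ s, exp (L s) = e s - f 0) → α 0 = L 1 - L 0) ∧
      ∃ L : ℝ → ℂ, Continuous L ∧ ∀ s, exp (L s) = e s - f 0 := by
  obtain ⟨L, hL, hLe⟩ := exists_log2 (fun p => e p.1 - f p.2) (by fun_prop)
    (fun p => sub_ne_zero.2 (hd _ _))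
  refine ⟨fun t => L (1, t) - L (0, t), by fun_prop, ?_, ?_, ?_, fun s => L (s, 0), by fun_prop,
    fun s => hLe _⟩
  · intro t; rw [exp_sub, hLe, hLe, he1]
  · have hne : ∀ s, -I * (e s - x) ≠ 0 := fun s =>
      mul_ne_zero (by simp) (by rw [← hf1]; exact sub_ne_zero.2 (hd _ _))
    have hc : Continuous fun s => log (-I * (e s - x)) := by
      refine Continuous.clog (by fun_prop) (fun s => slit_of_re ?_ (hne s))
      simpa using him s
    have := log_unique (fun s => L (s, 1) - log (-I * (e s - x))) (by fun_prop) I (fun s => by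
      have h1 : e s - x ≠ 0 := by rw [← hf1]; exact sub_ne_zero.2 (hd _ _)
      rw [exp_sub, hLe, exp_log (hne s), hf1]
      field_simp
      simp) 1 0
    simp only [he1] at this
    push_cast
    linear_combination this
  · intro L' hL' hL'e
    have := log_unique (fun s => L (s, 0) - L' s) (by fun_prop) 1 (fun s => by
      rw [exp_sub, hLe, hL'e]; exact div_self (sub_ne_zero.2 (hd _ _))) 1 0
    linear_combination this

lemma tripod_pair (e₁ e₂ f : ℝ → ℂ) (he₁ : Continuous e₁) (he₂ : Continuous e₂)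
    (hf : Continuous f) (a₁ a₂ x : ℝ) (h0 : e₁ 0 = e₂ 0)
    (h₁ : e₁ 1 = a₁) (h₂ : e₂ 1 = a₂) (hf1 : f 1 = x) (him₁ : ∀ s, 0 ≤ (e₁ s).im)
    (him₂ : ∀ s, 0 ≤ (e₂ s).im) (himf : ∀ s, 0 ≤ (f s).im)
    (hd₁ : ∀ s t, e₁ s ≠ f t) (hd₂ : ∀ s t, e₂ s ≠ f t)
    (L₁ L₂ : ℝ → ℂ) (hL₁ : Continuous L₁) (hL₂ : Continuous L₂)
    (hL₁e : ∀ s, exp (L₁ s) = e₁ s - f 0) (hL₂e : ∀ s, exp (L₂ s) = e₂ s - f 0) :
    (L₂ 1 - L₂ 0 - log (I * (a₂ - f 0))) - (L₁ 1 - L₁ 0 - log (I * (a₁ - f 0))) =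
      Jm (a₂ - x) - Jm (a₁ - x) := by
  obtain ⟨α₁, c₁, x₁, y₁, z₁, -⟩ := tripod_step e₁ f he₁ hf a₁ x h₁ hf1 him₁ hd₁
  obtain ⟨α₂, c₂, x₂, y₂, z₂, -⟩ := tripod_step e₂ f he₂ hf a₂ x h₂ hf1 him₂ hd₂
  have n₁ : ∀ t, (a₁ : ℂ) - f t ≠ 0 := fun t => by rw [← h₁]; exact sub_ne_zero.2 (hd₁ _ _)
  have n₂ : ∀ t, (a₂ : ℂ) - f t ≠ 0 := fun t => by rw [← h₂]; exact sub_ne_zero.2 (hd₂ _ _)
  have n₀ : ∀ t, e₂ 0 - f t ≠ 0 := fun t => sub_ne_zero.2 (hd₂ _ _)
  have k : ∀ a : ℝ, (∀ t, (a : ℂ) - f t ≠ 0) → Continuous fun t => log (I * (a - f t)) := by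
    intro a ha
    refine Continuous.clog (by fun_prop) (fun t => slit_of_re ?_ (mul_ne_zero I_ne_zero (ha t)))
    simpa using himf t
  have k₁ := k a₁ n₁
  have k₂ := k a₂ n₂
  have := log_unique (fun t => α₂ t - α₁ t - (log (I * (a₂ - f t)) - log (I * (a₁ - f t))))
    (by fun_prop) 1 (fun t => by
      rw [exp_sub, exp_sub, exp_sub, x₁, x₂, exp_log (mul_ne_zero I_ne_zero (n₁ t)),
        exp_log (mul_ne_zero I_ne_zero (n₂ t)), h0]
      have := n₁ t; have := n₂ t; have := n₀ t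
      field_simp) 0 1
  simp only [y₁, y₂, z₁ L₁ hL₁ hL₁e, z₂ L₂ hL₂ hL₂e, hf1, h0] at this
  unfold Jm
  push_cast at this ⊢
  linear_combination this

/-- Two tripods in the closed upper half plane with matching feet on the real line meet in
two legs going to different feet. -/
theorem tripod (e f : Fin 3 → ℝ → ℂ) (he : ∀ i, Continuous (e i)) (hf : ∀ i, Continuous (f i))
    (w w' : ℂ) (a a' : Fin 3 → ℝ) (he0 : ∀ i, e i 0 = w) (hf0 : ∀ i, f i 0 = w')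
    (he1 : ∀ i, e i 1 = a i) (hf1 : ∀ i, f i 1 = a' i)
    (heim : ∀ i s, 0 ≤ (e i s).im) (hfim : ∀ i s, 0 ≤ (f i s).im)
    (hd : ∀ i k, i ≠ k → ∀ s t, e i s ≠ f k t)
    (o : ∀ i k, i < k → a i < a' k ∧ a' i < a k) : False := by
  have hL : ∀ i, ∃ L : ℝ → ℂ, Continuous L ∧ ∀ s, exp (L s) = e i s - w' := by
    intro i
    have hne : i ≠ i + 1 := by fin_cases i <;> decide
    obtain ⟨-, -, -, -, -, L, h1, h2⟩ := tripod_step (e i) (f (i + 1)) (he i) (hf _) (a i)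
      (a' (i + 1)) (he1 i) (hf1 _) (heim i) (hd i _ hne)
    exact ⟨L, h1, fun s => by rw [h2, hf0]⟩
  choose L hL hLe using hL
  have P : ∀ i j k, i ≠ k → j ≠ k →
      (L j 1 - L j 0 - log (I * (a j - w'))) - (L i 1 - L i 0 - log (I * (a i - w'))) =
        Jm (a j - a' k) - Jm (a i - a' k) := by
    intro i j k hik hjk
    have := tripod_pair (e i) (e j) (f k) (he i) (he j) (hf k) (a i) (a j) (a' k)
      (by rw [he0, he0]) (he1 i) (he1 j) (hf1 k) (heim i) (heim j) (hfim k) (hd i k hik)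
      (hd j k hjk) (L i) (L j) (hL i) (hL j) (fun s => by rw [hLe, hf0])
      (fun s => by rw [hLe, hf0])
    rwa [hf0] at this
  have p1 := P 0 1 2 (by decide) (by decide)
  have p2 := P 1 2 0 (by decide) (by decide)
  have p3 := P 2 0 1 (by decide) (by decide)
  have o01 := o 0 1 (by decide)
  have o02 := o 0 2 (by decide)
  have o12 := o 1 2 (by decide)
  rw [Jm_neg (by linarith [o12.1]), Jm_neg (by linarith [o02.1])] at p1
  rw [Jm_pos (by linarith [o02.2]), Jm_pos (by linarith [o01.2])] at p2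
  rw [Jm_neg (by linarith [o01.1]), Jm_pos (by linarith [o12.2])] at p3
  have : (2 * Real.pi * I : ℂ) = 0 := by linear_combination -p1 - p2 - p3
  simp [Real.pi_ne_zero] at this

end Pool.Agent.H167Z.BP
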