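import Pool.Agent.H167Z.BP.Lift
import Pool.Agent.H167Z.BP.Tokens
import Pool.Agent.H167Z.BP.Tripod

set_option autoImplicit false

namespace Pool.Agent.H167Z.BP

open Filter Topology Set

variable {n : ℕ} (hn : 2 ≤ n) {p : Fin (n + 1) → ℂ} {X S Y : ℂ → ℝ}

/-- developed point -/
noncomputable def Zp (X S : ℂ → ℝ) (g : GG) (z : ℂ) : ℂ :=
  ⟨muf g (X z) (S z), sgf g (X z) (S z)⟩

lemma tendsto_mk {α : Type} {l : Filter α} {x y : α → ℝ} {a b : ℝ} (hx : Tendsto x l (𝓝 a))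
    (hy : Tendsto y l (𝓝 b)) : Tendsto (fun t => (⟨x t, y t⟩ : ℂ)) l (𝓝 ⟨a, b⟩) := by
  simp only [Complex.mk_eq_add_mul_I]
  exact ((Complex.continuous_ofReal.tendsto _).comp hx).add
    (((Complex.continuous_ofReal.tendsto _).comp hy).mul_const _)

lemma tendsto_of_or {α β : Type} [TopologicalSpace β] {l : Filter α} {f f₁ f₂ : α → β} {a : β}
    (h : ∀ᶠ x in l, f x = f₁ x ∨ f x = f₂ x) (h₁ : Tendsto f₁ l (𝓝 a)) (h₂ : Tendsto f₂ l (𝓝 a)) :
    Tendsto f l (𝓝 a) := by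
  intro s hs
  have e1 := h₁ hs
  have e2 := h₂ hs
  rw [mem_map] at *
  filter_upwards [h, e1, e2] with x k k1 k2
  rcases k with k | k <;> simp only [mem_preimage, k] <;> assumption

lemma Zp_tendsto {α : Type} {l : Filter α} {γ : α → ℂ} {z : ℂ} (g : GG)
    (hx : Tendsto (fun t => X (γ t)) l (𝓝 (X z))) (hs : Tendsto (fun t => S (γ t)) l (𝓝 (S z)))
    (h : 0 < S z) : Tendsto (fun t => Zp X S g (γ t)) l (𝓝 (Zp X S g z)) := by
  have hC := (Cf_pos g (x := X z) h).ne'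
  have tC : Tendsto (fun t => Cf g (X (γ t)) (S (γ t))) l (𝓝 (Cf g (X z) (S z))) :=
    FF_tendsto hx hs _ _
  refine tendsto_mk ?_ ?_
  · exact (FF_tendsto hx hs _ _).neg.div tC hC
  · exact (hs.const_mul _).div (tC.pow 2) (pow_ne_zero 2 hC)

lemma Zp_rho {z : ℂ} {j : Fin (n + 1)} (h : On n X S z j) (g : GG) :
    Zp X S (rho hn j * g) z = Zp X S g z := by
  unfold Zp muf sgf Cf
  simp only [mul_app, FF_rho hn j h, dt_mul, dt_rho]
  congr 2; ring

lemma horo_limit {α : Type} {l : Filter α} {μ σ r : α → ℝ} {a : ℝ} (hσ : ∀ᶠ t in l, 0 < σ t)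
    (h : ∀ᶠ t in l, ((a - μ t) ^ 2 + σ t) ^ 2 = r t * σ t) (hr : Tendsto r l (𝓝 0)) :
    Tendsto (fun t => (⟨μ t, σ t⟩ : ℂ)) l (𝓝 (a : ℂ)) := by
  have b : ∀ᶠ t in l, (a - μ t) ^ 2 + σ t ≤ r t := by
    filter_upwards [hσ, h] with t h1 h2
    have h3 : 0 < (a - μ t) ^ 2 + σ t := by positivity
    have h4 : 0 ≤ r t := by
      by_contra hc; push Not at hc
      nlinarith [mul_pos_of_neg_of_neg hc (neg_lt_zero.2 h1), sq_nonneg ((a - μ t) ^ 2 + σ t)]
    by_contra hc; push Not at hc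
    nlinarith [mul_nonneg h4 (sq_nonneg (a - μ t))]
  have t1 : Tendsto σ l (𝓝 0) := by
    refine squeeze_zero' (hσ.mono fun _ h => h.le) ?_ hr
    filter_upwards [b] with t h1; nlinarith [sq_nonneg (a - μ t)]
  have t2 : Tendsto (fun t => (a - μ t) ^ 2) l (𝓝 0) := by
    refine squeeze_zero' (Eventually.of_forall fun _ => sq_nonneg _) ?_ hr
    filter_upwards [b, hσ] with t h1 h2; linarith
  have t3 : Tendsto (fun t => |a - μ t|) l (𝓝 0) := by
    have := t2.sqrt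
    simpa [Real.sqrt_sq_eq_abs] using this
  have t4 : Tendsto μ l (𝓝 a) := by
    have := (tendsto_zero_iff_abs_tendsto_zero _).2 t3
    simpa using (tendsto_const_nhds (x := a)).sub this
  exact tendsto_mk t4 t1

/-- a lifted edge -/
structure Leg (hn : 2 ≤ n) (p : Fin (n + 1) → ℂ) (X S Y : ℂ → ℝ) (c : Fin (n + 1)) (γ : ℝ → ℂ)
    (G : ℝ → GG) (u : V2) : Prop where
  cont : ContinuousOn γ (Ico 0 1)
  avoid : ∀ t ∈ Ico (0 : ℝ) 1, ∀ c, γ t ≠ p c
  lim : Tendsto γ (𝓝[Ico 0 1] 1) (𝓝 (p c))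
  lift : IsLift hn X S Y γ G (Ico 0 1)
  isEnd : IsEnd hn c u
  ev : ∀ᶠ t in 𝓝[Ico 0 1] 1, PM ((G t)⁻¹ u) (qv n c)

lemma FF_PM {x s : ℝ} {u v : V2} (h : PM u v) : FF x s u u = FF x s v v := by
  rcases h with rfl | rfl
  · rfl
  · simp [FF]; ring

lemma devel (C : Chart n p X S Y) {c : Fin (n + 1)} {γ : ℝ → ℂ} {G : ℝ → GG} {u : V2}
    (L : Leg hn p X S Y c γ G u) (k : GG) (hk : (k⁻¹ u).2 ≠ 0) :
    ∃ e : ℝ → ℂ, Continuous e ∧ e 0 = Zp X S ((G 0)⁻¹ * k) (γ 0) ∧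
      e 1 = (((k⁻¹ u).1 / (k⁻¹ u).2 : ℝ) : ℂ) ∧
      ∀ s, e s = (((k⁻¹ u).1 / (k⁻¹ u).2 : ℝ) : ℂ) ∨
        ∃ t ∈ Ico (0 : ℝ) 1, e s = Zp X S ((G t)⁻¹ * k) (γ t) := by
  set a : ℝ := (k⁻¹ u).1 / (k⁻¹ u).2 with ha
  let Z : ℝ → ℂ := fun t => if t < 1 then Zp X S ((G t)⁻¹ * k) (γ t) else a
  have hZ : ContinuousOn Z (Icc 0 1) := by
    intro t ht
    rcases ht.2.lt_or_eq with l | l
    · have ht' : t ∈ Ico (0 : ℝ) 1 := ⟨ht.1, l⟩
      have e : 𝓝[Icc (0 : ℝ) 1] t = 𝓝[Ico 0 1] t := by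
        apply nhdsWithin_eq_nhdsWithin' (Iio_mem_nhds l)
        ext y; simp only [mem_inter_iff, mem_Icc, mem_Ico, mem_Iio]
        constructor
        · rintro ⟨⟨h1, -⟩, h2⟩; exact ⟨⟨h1, h2⟩, h2⟩
        · rintro ⟨⟨h1, h3⟩, h2⟩; exact ⟨⟨h1, h3.le⟩, h2⟩
      unfold ContinuousWithinAt
      rw [e]
      have c1 : ContinuousWithinAt (fun t => X (γ t)) (Ico 0 1) t := (C.cX.comp L.cont L.avoid) t ht'
      have c2 : ContinuousWithinAt (fun t => S (γ t)) (Ico 0 1) t := (C.cS.comp L.cont L.avoid) t ht'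
      have sp := (C.inP _ (L.avoid t ht')).1
      have ev := eventually_nhdsWithin_iff.2 (L.lift t ht').2.2
      simp only [Z, if_pos l]
      by_cases hj : ∃ j, On n X S (γ t) j
      · obtain ⟨j, hj⟩ := hj
        refine tendsto_of_or (f₁ := fun y => Zp X S ((G t)⁻¹ * k) (γ y))
          (f₂ := fun y => Zp X S (rho hn j * ((G t)⁻¹ * k)) (γ y)) ?_ (Zp_tendsto _ c1 c2 sp) ?_
        · filter_upwards [ev, self_mem_nhdsWithin] with y h hy
          rw [if_pos hy.2]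
          rcases h with h | ⟨j', hj', h⟩
          · left; rw [h]
          · right
            rw [h, On_unique hn C (L.avoid t ht') hj' hj, mul_inv_rev, rho_inv, mul_assoc]
        · rw [← Zp_rho hn hj]; exact Zp_tendsto _ c1 c2 sp
      · refine (Zp_tendsto ((G t)⁻¹ * k) c1 c2 sp).congr' ?_
        filter_upwards [ev, self_mem_nhdsWithin] with y h hy
        rw [if_pos hy.2]
        rcases h with h | ⟨j', hj', h⟩
        · rw [h]
        · exact absurd ⟨j', hj'⟩ hj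
    · subst l
      rw [← Ico_insert_right zero_le_one, continuousWithinAt_insert_self]
      unfold ContinuousWithinAt
      simp only [Z, lt_irrefl, if_false]
      have h2 : Tendsto γ (𝓝[Ico 0 1] 1) (𝓝[{z | ∀ c, z ≠ p c}] (p c)) :=
        tendsto_nhdsWithin_iff.2 ⟨L.lim, eventually_mem_nhdsWithin.mono fun t ht => L.avoid t ht⟩
      have h3 := ((C.horo c).comp h2).div_const (dt k ^ 2 * (k⁻¹ u).2 ^ 4)
      rw [zero_div] at h3
      refine (horo_limit (μ := fun t => muf ((G t)⁻¹ * k) (X (γ t)) (S (γ t)))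
        (σ := fun t => sgf ((G t)⁻¹ * k) (X (γ t)) (S (γ t))) ?_ ?_ h3).congr' ?_
      · filter_upwards [self_mem_nhdsWithin] with t ht using sgf_pos _ (C.inP _ (L.avoid t ht)).1
      · filter_upwards [self_mem_nhdsWithin, L.ev] with t ht hp
        have sp := (C.inP _ (L.avoid t ht)).1
        have e1 := shape ((G t)⁻¹ * k) (x := X (γ t)) sp (k⁻¹ u) (k⁻¹ u)
        rw [← mul_app, mul_assoc, mul_inv_cancel, mul_one, FF_PM hp] at e1
        have hC := (Cf_pos ((G t)⁻¹ * k) (x := X (γ t)) sp).ne'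
        have d1 : dt ((G t)⁻¹ * k) ^ 2 = dt k ^ 2 := by
          rw [dt_mul, mul_pow, dt_inv_W hn (L.lift t ht).1]
          rcases dt_W hn (L.lift t ht).1 with h | h <;> rw [h] <;> simp
        have d2 := dt_ne k
        have e2 : sgf ((G t)⁻¹ * k) (X (γ t)) (S (γ t)) * Cf ((G t)⁻¹ * k) (X (γ t)) (S (γ t)) ^ 2
            = dt k ^ 2 * S (γ t) := by
          unfold sgf; rw [d1]; field_simp
        simp only [Function.comp]
        rw [e1]
        generalize muf ((G t)⁻¹ * k) (X (γ t)) (S (γ t)) = μ at *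
        generalize sgf ((G t)⁻¹ * k) (X (γ t)) (S (γ t)) = σ at *
        generalize Cf ((G t)⁻¹ * k) (X (γ t)) (S (γ t)) = K at *
        have e3 : FF μ σ (k⁻¹ u) (k⁻¹ u) = (k⁻¹ u).2 ^ 2 * ((a - μ) ^ 2 + σ) := by
          unfold FF; rw [ha]; field_simp
        rw [e3]
        have := sp.ne'
        field_simp
        linear_combination (-((a - μ) ^ 2 + σ) ^ 2) * e2
      · filter_upwards [self_mem_nhdsWithin] with t ht
        rw [if_pos ht.2]; rfl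
  refine ⟨fun s => Z (projIcc 0 1 zero_le_one s), ?_, ?_, ?_, ?_⟩
  · exact hZ.comp_continuous (continuous_subtype_val.comp continuous_projIcc)
      (fun s => (projIcc 0 1 zero_le_one s).2)
  · simp [Z]
  · simp [Z]
  · intro s
    have hs := (projIcc 0 1 zero_le_one s).2
    by_cases l : (projIcc 0 1 zero_le_one s : ℝ) < 1
    · right; exact ⟨_, ⟨hs.1, l⟩, if_pos l⟩
    · left; exact if_neg l

lemma Zp_inj (C : Chart n p X S Y) {z z' : ℂ} (hz : ∀ c, z ≠ p c) (hz' : ∀ c, z' ≠ p c)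
    {g g' h h' T : GG} (hg : g ∈ WW hn) (hg' : g' ∈ WW hn) (hh : h ∈ WW hn) (hh' : h' ∈ WW hn)
    (d : dt g = sg Y z) (d' : dt g' = sg Y z') (dh : dt h = dt h')
    (e : Zp X S (g⁻¹ * (h * T)) z = Zp X S (g'⁻¹ * (h' * T)) z') :
    z = z' ∧ g * g'⁻¹ = h * h'⁻¹ := by
  have P := C.inP z hz
  have P' := C.inP z' hz'
  have e1 : muf (g⁻¹ * (h * T)) (X z) (S z) = muf (g'⁻¹ * (h' * T)) (X z') (S z') :=
    congrArg Complex.re e
  have e2 : sgf (g⁻¹ * (h * T)) (X z) (S z) = sgf (g'⁻¹ * (h' * T)) (X z') (S z') :=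
    congrArg Complex.im e
  have hC := Cf_pos (g⁻¹ * (h * T)) (x := X z) P.1
  have hC' := Cf_pos (g'⁻¹ * (h' * T)) (x := X z') P'.1
  have mW : g'⁻¹ * h' * h⁻¹ * g ∈ WW hn :=
    mul_mem (mul_mem (mul_mem (inv_mem hg') hh') (inv_mem hh)) hg
  obtain ⟨k1, k2, k3⟩ := tile_inj hn mW P P' (div_pos hC hC') (fun u v => by
    have a := shape (g⁻¹ * (h * T)) (x := X z) P.1 ((g'⁻¹ * (h' * T))⁻¹ u) ((g'⁻¹ * (h' * T))⁻¹ v)
    have b := shape (g'⁻¹ * (h' * T)) (x := X z') P'.1 ((g'⁻¹ * (h' * T))⁻¹ u)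
      ((g'⁻¹ * (h' * T))⁻¹ v)
    rw [← mul_app, ← mul_app, mul_inv_cancel, one_app, one_app] at b
    rw [← mul_app, ← mul_app, show g⁻¹ * (h * T) * (g'⁻¹ * (h' * T))⁻¹ = (g'⁻¹ * h' * h⁻¹ * g)⁻¹ by
      group] at a
    rw [a, b, e1, e2]; field_simp)
  have dm : dt (g'⁻¹ * h' * h⁻¹ * g) = sg Y z' * sg Y z := by
    rw [dt_mul, dt_mul, dt_mul, dt_inv_W hn hg', dt_inv_W hn hh, d, d', ← dh]
    rcases dt_W hn hh with q | q <;> rw [q] <;> ring
  rcases k3 with k3 | ⟨j, k3, k4⟩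
  · rw [k3, dt_one] at dm
    constructor
    · refine C.inj z z' hz hz' k1 k2 ?_
      unfold sg at dm
      split_ifs at dm with a b b
      · simp [a, b]
      · norm_num at dm
      · norm_num at dm
      · simp [a, b]
    · have : g = (g'⁻¹ * h' * h⁻¹)⁻¹ := eq_inv_of_mul_eq_one_right k3
      rw [this]; group
  · exfalso
    have y1 : Y z = 0 := (C.side z).2 ⟨j, k4⟩
    have y2 : Y z' = 0 := (C.side z').2 ⟨j, by rw [← k1, ← k2]; exact k4⟩
    rw [k3, dt_rho] at dm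
    simp [sg, y1, y2] at dm
    norm_num at dm

/-- projective change of coordinates moving `x` to infinity -/
def Lx (x : ℝ) : GG where
  toFun v := (v.2, x * v.2 - v.1)
  invFun v := (x * v.1 - v.2, v.1)
  map_add' u v := by ext <;> simp; ring
  map_smul' c v := by ext <;> simp; ring
  left_inv v := by ext <;> simp
  right_inv v := by ext <;> simp

lemma Lx_app (x : ℝ) (v : V2) : Lx x v = (v.2, x * v.2 - v.1) := rfl

lemma Lx_ne {d M : ℝ} (hd : d = 1 ∨ d = -1) {v : V2} (hv : v ≠ 0) (hM : |v.1 / v.2| < M) :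
    (Lx (d * M) v).2 ≠ 0 := by
  rw [Lx_app]
  rcases vec_cases hv with ⟨c, hc, rfl⟩ | ⟨x, c, hc, rfl⟩
  · simpa using hc
  · simp only [mul_div_cancel_right₀ _ hc] at hM ⊢
    rw [← sub_mul]
    obtain ⟨h1, h2⟩ := abs_lt.1 hM
    rcases hd with rfl | rfl <;> exact mul_ne_zero (by linarith) hc

include hn in
lemma Lx_lt {d M : ℝ} (hd : d = 1 ∨ d = -1) {v v' : V2} (hv : v ≠ 0) (hv' : v' ≠ 0)
    (hM : |v.1 / v.2| < M) (hM' : |v'.1 / v'.2| < M) {j j' : Fin (n + 1)} (hj : j < j')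
    (h : In n d j v) (h' : In n d j' v') :
    (Lx (d * M) v).1 / (Lx (d * M) v).2 < (Lx (d * M) v').1 / (Lx (d * M) v').2 := by
  have hd0 : d ≠ 0 := by rcases hd with rfl | rfl <;> norm_num
  have hj1 : (j : ℕ) < j' := hj
  have hj2 := j'.is_lt
  have fin : ∀ x c : ℝ, c ≠ 0 → c / (d * M * c - x * c) = (d * M - x)⁻¹ := by
    intro x c hc
    rw [← sub_mul, mul_comm, div_mul_eq_div_div, div_self hc, one_div]
  simp only [Lx_app]
  rcases vec_cases hv with ⟨c, hc, rfl⟩ | ⟨x, c, hc, rfl⟩ <;>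
    rcases vec_cases hv' with ⟨c', hc', rfl⟩ | ⟨x', c', hc', rfl⟩
  · rw [In_inf hn d _ _ hc] at h
    rw [In_inf hn d _ _ hc'] at h'
    exfalso
    rcases h with h | h
    · rcases h' with h' | h'
      · omega
      · linarith [h.1, h'.1]
    · omega
  · rw [In_inf hn d _ _ hc] at h
    simp only [mul_div_cancel_right₀ _ hc'] at hM'
    simp only [zero_div, fin x' c' hc']
    rcases h with h | h
    · rcases hd with rfl | rfl
      · exact inv_pos.2 (by linarith [(abs_lt.1 hM').2])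
      · linarith [h.1]
    · omega
  · rw [In_inf hn d _ _ hc'] at h'
    simp only [mul_div_cancel_right₀ _ hc] at hM
    simp only [zero_div, fin x c hc]
    rcases h' with h' | h'
    · omega
    · rcases hd with rfl | rfl
      · linarith [h'.1]
      · exact inv_lt_zero.2 (by linarith [(abs_lt.1 hM).1])
  · have l := In_lt hn hd0 hj hc hc' h h'
    simp only [mul_div_cancel_right₀ _ hc] at hM
    simp only [mul_div_cancel_right₀ _ hc'] at hM'
    simp only [fin x c hc, fin x' c' hc']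
    rcases hd with rfl | rfl
    · exact inv_strictAnti₀ (by linarith [(abs_lt.1 hM').2]) (by linarith)
    · exact (inv_lt_inv_of_neg (by linarith [(abs_lt.1 hM).1]) (by linarith [(abs_lt.1 hM').1])).2
        (by linarith)

/-- two lifted stars with a common token meet -/
theorem cross (C : Chart n p X S Y) {D D' : Finset (Fin (n + 1))}
    {γ γ' : Fin (n + 1) → ℝ → ℂ} {G G' : Fin (n + 1) → ℝ → GG} {u u' : Fin (n + 1) → V2}
    {w w' : ℂ} {g g' : GG}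
    (L : ∀ c ∈ D, Leg hn p X S Y c (γ c) (G c) (u c) ∧ γ c 0 = w ∧ G c 0 = g)
    (L' : ∀ c ∈ D', Leg hn p X S Y c (γ' c) (G' c) (u' c) ∧ γ' c 0 = w' ∧ G' c 0 = g')
    {h h' : GG} {j : Fin (n + 1)} (m : (h, j) ∈ TT hn u D) (m' : (h', j) ∈ TT hn u' D')
    (dh : dt h = dt h') :
    ∃ c ∈ D, ∃ c' ∈ D', ∃ s ∈ Ico (0 : ℝ) 1, ∃ t ∈ Ico (0 : ℝ) 1,
      γ c s = γ' c' t ∧ G c s * (G' c' t)⁻¹ = h * h'⁻¹ := by
  by_contra hcon
  obtain ⟨hW, e₁, m₁, e₀, m₀, e₂, m₂, l₁, l₀, l₂⟩ := m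
  obtain ⟨hW', f₁, q₁, f₀, q₀, f₂, q₂, r₁, r₀, r₂⟩ := m'
  simp only at hW hW' l₁ l₀ l₂ r₁ r₀ r₂
  let E : Fin 3 → Fin (n + 1) := ![e₁, e₀, e₂]
  let F : Fin 3 → Fin (n + 1) := ![f₁, f₀, f₂]
  have hE : ∀ i, E i ∈ D := by intro i; fin_cases i <;> assumption
  have hF : ∀ i, F i ∈ D' := by intro i; fin_cases i <;> assumption
  have ord : ∀ i k, i < k → bb n h (u (E i)) < bb n h' (u' (F k)) ∧
      bb n h' (u' (F i)) < bb n h (u (E k)) := by
    intro i k hik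
    fin_cases i <;> fin_cases k <;> simp at hik <;> simp [E, F] <;> omega
  have nE : ∀ i, h⁻¹ (u (E i)) ≠ 0 := fun i => map_ne ((L _ (hE i)).1.isEnd.ne hn) _
  have nF : ∀ i, h'⁻¹ (u' (F i)) ≠ 0 := fun i => map_ne ((L' _ (hF i)).1.isEnd.ne hn) _
  have iE : ∀ i, In n (dt h) (bb n h (u (E i))) (h⁻¹ (u (E i))) := fun i =>
    bb_In hn h ((L _ (hE i)).1.isEnd.ne hn)
  have iF : ∀ i, In n (dt h) (bb n h' (u' (F i))) (h'⁻¹ (u' (F i))) := fun i =>
    dh ▸ bb_In hn h' ((L' _ (hF i)).1.isEnd.ne hn)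
  set M : ℝ := 1 + ∑ i, |(h⁻¹ (u (E i))).1 / (h⁻¹ (u (E i))).2| +
    ∑ i, |(h'⁻¹ (u' (F i))).1 / (h'⁻¹ (u' (F i))).2| with hM
  have s1 : 0 ≤ ∑ i, |(h⁻¹ (u (E i))).1 / (h⁻¹ (u (E i))).2| :=
    Finset.sum_nonneg fun _ _ => abs_nonneg _
  have s2 : 0 ≤ ∑ i, |(h'⁻¹ (u' (F i))).1 / (h'⁻¹ (u' (F i))).2| :=
    Finset.sum_nonneg fun _ _ => abs_nonneg _
  have ME : ∀ i, |(h⁻¹ (u (E i))).1 / (h⁻¹ (u (E i))).2| < M := fun i => by
    have := Finset.single_le_sum (f := fun i => |(h⁻¹ (u (E i))).1 / (h⁻¹ (u (E i))).2|)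
      (fun _ _ => abs_nonneg _) (Finset.mem_univ i)
    linarith
  have MF : ∀ i, |(h'⁻¹ (u' (F i))).1 / (h'⁻¹ (u' (F i))).2| < M := fun i => by
    have := Finset.single_le_sum (f := fun i => |(h'⁻¹ (u' (F i))).1 / (h'⁻¹ (u' (F i))).2|)
      (fun _ _ => abs_nonneg _) (Finset.mem_univ i)
    linarith
  set T : GG := (Lx (dt h * M))⁻¹ with hT
  have kE : ∀ (h : GG) (v : V2), (h * T)⁻¹ v = T⁻¹ (h⁻¹ v) := fun h v => by
    rw [mul_inv_rev, mul_app]
  have hT' : T⁻¹ = Lx (dt h * M) := inv_inv _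
  have dW := dt_W hn hW
  have dE := fun i => devel hn C (L _ (hE i)).1 (h * T) (by rw [kE, hT']; exact Lx_ne dW (nE i) (ME i))
  have dF := fun i => devel hn C (L' _ (hF i)).1 (h' * T)
    (by rw [kE, hT']; exact Lx_ne dW (nF i) (MF i))
  choose e ec e0 e1 es using dE
  choose f fc f0 f1 fs using dF
  simp only [kE, hT'] at e1 es f1 fs
  have O : ∀ i k, i < k →
      (Lx (dt h * M) (h⁻¹ (u (E i)))).1 / (Lx (dt h * M) (h⁻¹ (u (E i)))).2 <
        (Lx (dt h * M) (h'⁻¹ (u' (F k)))).1 / (Lx (dt h * M) (h'⁻¹ (u' (F k)))).2 ∧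
      (Lx (dt h * M) (h'⁻¹ (u' (F i)))).1 / (Lx (dt h * M) (h'⁻¹ (u' (F i)))).2 <
        (Lx (dt h * M) (h⁻¹ (u (E k)))).1 / (Lx (dt h * M) (h⁻¹ (u (E k)))).2 := fun i k hik =>
    ⟨Lx_lt hn dW (nE i) (nF k) (ME i) (MF k) (ord i k hik).1 (iE i) (iF k),
     Lx_lt hn dW (nF i) (nE k) (MF i) (ME k) (ord i k hik).2 (iF i) (iE k)⟩
  have posE : ∀ i, ∀ t ∈ Ico (0 : ℝ) 1, ∀ k : GG, 0 < (Zp X S k (γ (E i) t)).im := fun i t ht k =>
    sgf_pos _ (C.inP _ ((L _ (hE i)).1.avoid t ht)).1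
  have posF : ∀ i, ∀ t ∈ Ico (0 : ℝ) 1, ∀ k : GG, 0 < (Zp X S k (γ' (F i) t)).im := fun i t ht k =>
    sgf_pos _ (C.inP _ ((L' _ (hF i)).1.avoid t ht)).1
  refine tripod e f ec fc (Zp X S (g⁻¹ * (h * T)) w) (Zp X S (g'⁻¹ * (h' * T)) w') _ _
    (fun i => by rw [e0, (L _ (hE i)).2.1, (L _ (hE i)).2.2])
    (fun i => by rw [f0, (L' _ (hF i)).2.1, (L' _ (hF i)).2.2]) e1 f1 ?_ ?_ ?_ O
  · intro i s
    rcases es i s with k | ⟨t, ht, k⟩ <;> rw [k]
    · simp only [Complex.ofReal_im, le_refl]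
    · exact (posE i t ht _).le
  · intro i s
    rcases fs i s with k | ⟨t, ht, k⟩ <;> rw [k]
    · simp only [Complex.ofReal_im, le_refl]
    · exact (posF i t ht _).le
  · intro i k hik s t heq
    rcases es i s with a | ⟨s', hs', a⟩ <;> rcases fs k t with b | ⟨t', ht', b⟩ <;>
      rw [a, b] at heq
    · have := Complex.ofReal_injective heq
      rcases lt_or_gt_of_ne hik with l | l
      · exact (O i k l).1.ne this
      · exact (O k i l).2.ne' this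
    · have := posF k t' ht' ((G' (F k) t')⁻¹ * (h' * T))
      rw [← heq] at this; simp only [Complex.ofReal_im, lt_self_iff_false] at this
    · have := posE i s' hs' ((G (E i) s')⁻¹ * (h * T))
      rw [heq] at this; simp only [Complex.ofReal_im, lt_self_iff_false] at this
    · have LE := (L _ (hE i)).1
      have LF := (L' _ (hF k)).1
      obtain ⟨z1, z2⟩ := Zp_inj hn C (LE.avoid s' hs') (LF.avoid t' ht') (LE.lift s' hs').1
        (LF.lift t' ht').1 hW hW' (LE.lift s' hs').2.1 (LF.lift t' ht').2.1 dh heq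
      exact hcon ⟨_, hE i, _, hF k, s', hs', t', ht', z1, z2⟩

end Pool.Agent.H167Z.BP
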