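import Mathlib

set_option autoImplicit false

namespace Pool.Agent.H167Z.BP

/-- A drawing of a simple graph in the plane: distinct points for the vertices, and for every edge
a simple arc joining its two ends whose interior contains no vertex. -/
structure Drawing {V : Type} (G : SimpleGraph V) where
  pos : V → ℂ
  arc : Sym2 V → ℝ → ℂ
  pos_inj : Function.Injective pos
  cont : ∀ e ∈ G.edgeSet, ContinuousOn (arc e) (Set.Icc 0 1)
  inj : ∀ e ∈ G.edgeSet, Set.InjOn (arc e) (Set.Icc 0 1)
  ends : ∀ e ∈ G.edgeSet, ∃ u v, e = s(u, v) ∧ arc e 0 = pos u ∧ arc e 1 = pos v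
  avoid : ∀ e ∈ G.edgeSet, ∀ t ∈ Set.Ioo (0 : ℝ) 1, ∀ w, arc e t ≠ pos w

/-- The crossings of a drawing: an unordered pair of distinct edges together with a point lying in
the interior of both arcs. -/
def Drawing.crossings {V : Type} {G : SimpleGraph V} (D : Drawing G) : Set (Sym2 (Sym2 V) × ℂ) :=
  {x | ∃ e ∈ G.edgeSet, ∃ f ∈ G.edgeSet, e ≠ f ∧ x.1 = s(e, f) ∧
    x.2 ∈ D.arc e '' Set.Ioo 0 1 ∧ x.2 ∈ D.arc f '' Set.Ioo 0 1}

/-- The crossing number: the least number of crossings of a drawing. -/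
noncomputable def cr {V : Type} (G : SimpleGraph V) : ℕ∞ :=
  ⨅ D : Drawing G, D.crossings.encard

/-- The biplanar crossing number: the least value of `cr G₁ + cr G₂` over all pairs of graphs on the
vertex set of `G` whose union is `G`. -/
noncomputable def cr2 {V : Type} (G : SimpleGraph V) : ℕ∞ :=
  ⨅ (G₁ : SimpleGraph V) (G₂ : SimpleGraph V) (_ : G₁ ⊔ G₂ = G), cr G₁ + cr G₂

end Pool.Agent.H167Z.BP
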