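import Pool.Agent.H167Z.BP.Defs

set_option autoImplicit false

namespace Pool.Agent.H167Z.BP

/-- The biplanar crossing number taken over partitions of the edge set: the least value of
`cr G₁ + cr G₂` over all pairs of edge-disjoint graphs on the vertex set of `G` with union `G`. -/
noncomputable def cr2p {V : Type} (G : SimpleGraph V) : ℕ∞ :=
  ⨅ (G₁ : SimpleGraph V) (G₂ : SimpleGraph V) (_ : G₁ ⊔ G₂ = G ∧ Disjoint G₁ G₂), cr G₁ + cr G₂

end Pool.Agent.H167Z.BP
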