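import Pool.Agent.H167Z.BP.Refl

set_option autoImplicit false

namespace Pool.Agent.H167Z.BP

variable {n : ℕ} (hn : 2 ≤ n)

def cone (n : ℕ) (j : Fin (n + 1)) (u : V2) : ℝ := om u (al n j) * om u (be n j)

/-- the direction `u` lies in the half open sector of side `j` -/
def In (n : ℕ) (d : ℝ) (j : Fin (n + 1)) (u : V2) : Prop :=
  cone n j u < 0 ∨ (0 < d ∧ om u (al n j) = 0) ∨ (d < 0 ∧ om u (be n j) = 0)

include hn in
lemma In_fin (d : ℝ) (hd : d ≠ 0) (j : Fin (n + 1)) (x c : ℝ) (hc : c ≠ 0) :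
    In n d j (x * c, c) ↔ (0 < d ∧ ((j : ℕ) = 0 ∨ ((j : ℕ) : ℝ) ≤ x) ∧ ((j : ℕ) = n ∨ x < (j : ℕ) + 1)) ∨
      (d < 0 ∧ ((j : ℕ) = 0 ∨ ((j : ℕ) : ℝ) < x) ∧ ((j : ℕ) = n ∨ x ≤ (j : ℕ) + 1)) := by
  have hcc : 0 < c * c := mul_self_pos.2 hc
  unfold In cone
  rcases side_cases hn j with ⟨j0, h1, h2⟩ | ⟨j1, j2, h1, h2⟩ | ⟨j0, h1, h2⟩
  · have e1 : om (x * c, c) (al n j) = c := by simp [h1, om]
    have e2 : om (x * c, c) (be n j) = c * (x - 1) := by simp [h2, om]; ring
    have e3 : c * (c * (x - 1)) < 0 ↔ x < 1 := by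
      rw [← mul_assoc, mul_neg_iff]; constructor
      · rintro (h | h) <;> linarith [h.1, h.2]
      · intro h; left; exact ⟨hcc, by linarith⟩
    have e4 : (j : ℕ) ≠ n := by omega
    rw [e1, e2, e3]
    simp only [j0, hc, mul_eq_zero, false_or, true_or, true_and, and_false, Nat.cast_zero,
      zero_add, sub_eq_zero]
    have e5 : (0 = n) ↔ False := iff_false_intro (by omega)
    simp only [e5, false_or]
    rcases lt_or_gt_of_ne hd with h | h
    · simp only [h, not_lt.2 h.le, false_and, true_and, false_or]; exact le_iff_lt_or_eq.symm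
    · simp [h, not_lt.2 h.le]
  · have e1 : om (x * c, c) (al n j) = c * (x - (j : ℕ)) := by simp [h1, om]; ring
    have e2 : om (x * c, c) (be n j) = c * (x - ((j : ℕ) + 1)) := by simp [h2, om]; ring
    have e3 : c * (x - (j : ℕ)) * (c * (x - ((j : ℕ) + 1))) < 0 ↔ ((j : ℕ) : ℝ) < x ∧ x < (j : ℕ) + 1 := by
      rw [show c * (x - (j : ℕ)) * (c * (x - ((j : ℕ) + 1))) =
        (c * c) * ((x - (j : ℕ)) * (x - ((j : ℕ) + 1))) by ring, mul_neg_iff]
      constructor
      · rintro (h | h)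
        · rcases mul_neg_iff.1 h.2 with h | h <;> constructor <;> linarith [h.1, h.2]
        · linarith [h.1]
      · intro h; left; exact ⟨hcc, mul_neg_of_pos_of_neg (by linarith [h.1]) (by linarith [h.2])⟩
    have e4 : (j : ℕ) = n ↔ False := iff_false_intro (by omega)
    have e5 : (j : ℕ) = 0 ↔ False := iff_false_intro (by omega)
    rw [e1, e2, e3]
    simp only [e4, e5, hc, mul_eq_zero, false_or, sub_eq_zero]
    rcases lt_or_gt_of_ne hd with h | h
    · simp only [h, not_lt.2 h.le, false_and, true_and, false_or]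
      constructor
      · rintro (h | h)
        · exact ⟨h.1, h.2.le⟩
        · exact ⟨by linarith, h.le⟩
      · rintro ⟨h1, h2⟩
        rcases h2.lt_or_eq with h2 | h2
        · exact Or.inl ⟨h1, h2⟩
        · exact Or.inr h2
    · simp only [h, not_lt.2 h.le, false_and, true_and, or_false]
      constructor
      · rintro (h | h)
        · exact ⟨h.1.le, h.2⟩
        · exact ⟨h.ge, by linarith⟩
      · rintro ⟨h1, h2⟩
        rcases h1.lt_or_eq with h1 | h1
        · exact Or.inl ⟨h1, h2⟩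
        · exact Or.inr h1.symm
  · have e1 : om (x * c, c) (al n j) = c * (x - n) := by simp [h1, om]; ring
    have e2 : om (x * c, c) (be n j) = -c := by simp [h2, om]
    have e3 : c * (x - n) * -c < 0 ↔ (n : ℝ) < x := by
      rw [show c * (x - n) * -c = (c * c) * (n - x) by ring, mul_neg_iff]; constructor
      · rintro (h | h) <;> linarith [h.1, h.2]
      · intro h; left; exact ⟨hcc, by linarith⟩
    have e5 : (n = 0) ↔ False := iff_false_intro (by omega)
    rw [e1, e2, e3]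
    simp only [j0, e5, hc, mul_eq_zero, false_or, true_or, and_true, and_false, neg_eq_zero,
      or_false, sub_eq_zero]
    rcases lt_or_gt_of_ne hd with h | h
    · simp [h, not_lt.2 h.le]
    · simp only [h, not_lt.2 h.le, false_and, true_and, or_false]
      rw [le_iff_lt_or_eq, eq_comm]

include hn in
lemma In_inf (d : ℝ) (j : Fin (n + 1)) (c : ℝ) (hc : c ≠ 0) :
    In n d j (c, 0) ↔ (0 < d ∧ (j : ℕ) = 0) ∨ (d < 0 ∧ (j : ℕ) = n) := by
  have hcc : 0 < c * c := mul_self_pos.2 hc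
  unfold In cone
  rcases side_cases hn j with ⟨j0, h1, h2⟩ | ⟨j1, j2, h1, h2⟩ | ⟨j0, h1, h2⟩
  · have e5 : (0 = n) ↔ False := iff_false_intro (by omega)
    simp [h1, h2, om, j0, hc, e5]
  · have e4 : (j : ℕ) = n ↔ False := iff_false_intro (by omega)
    have e5 : (j : ℕ) = 0 ↔ False := iff_false_intro (by omega)
    simp [h1, h2, om, hc, e4, e5, hcc.le]
  · have e5 : (n = 0) ↔ False := iff_false_intro (by omega)
    simp [h1, h2, om, j0, hc, e5]

lemma vec_cases {u : V2} (hu : u ≠ 0) :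
    (∃ c, c ≠ 0 ∧ u = (c, 0)) ∨ ∃ x c, c ≠ 0 ∧ u = (x * c, c) := by
  by_cases h : u.2 = 0
  · left; exact ⟨u.1, fun h1 => hu (Prod.ext h1 h), Prod.ext rfl h⟩
  · right; exact ⟨u.1 / u.2, u.2, h, Prod.ext (by simp; field_simp) rfl⟩

include hn in
lemma In_exists {d : ℝ} (hd : d ≠ 0) {u : V2} (hu : u ≠ 0) : ∃ j, In n d j u := by
  rcases vec_cases hu with ⟨c, hc, rfl⟩ | ⟨x, c, hc, rfl⟩
  · rcases lt_or_gt_of_ne hd with h | h
    · exact ⟨Fin.last n, (In_inf hn d _ c hc).2 (Or.inr ⟨h, by simp⟩)⟩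
    · exact ⟨0, (In_inf hn d _ c hc).2 (Or.inl ⟨h, by simp⟩)⟩
  · simp only [In_fin hn d hd _ x c hc]
    rcases lt_or_gt_of_ne hd with h | h
    · by_cases h1 : x ≤ 1
      · exact ⟨0, Or.inr ⟨h, by simp, by simp [h1]⟩⟩
      · by_cases h2 : (n : ℝ) < x
        · exact ⟨Fin.last n, Or.inr ⟨h, by simp [h2], by simp⟩⟩
        · push Not at h1 h2
          have h3 : 1 < ⌈x⌉₊ := Nat.lt_ceil.2 (by simpa using h1)
          have h4 : ⌈x⌉₊ ≤ n := Nat.ceil_le.2 h2
          obtain ⟨m, hm⟩ : ∃ m, ⌈x⌉₊ = m + 1 := ⟨⌈x⌉₊ - 1, by omega⟩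
          refine ⟨⟨m, by omega⟩, Or.inr ⟨h, Or.inr ?_, Or.inr ?_⟩⟩
          · exact Nat.lt_ceil.1 (by simp; omega)
          · have := Nat.le_ceil x; rw [hm] at this; simpa using this
    · by_cases h1 : x < 1
      · exact ⟨0, Or.inl ⟨h, by simp, by simp [h1]⟩⟩
      · by_cases h2 : (n : ℝ) ≤ x
        · exact ⟨Fin.last n, Or.inl ⟨h, by simp [h2], by simp⟩⟩
        · push Not at h1 h2
          have h4 : ⌊x⌋₊ < n := (Nat.floor_lt (by linarith)).2 h2
          refine ⟨⟨⌊x⌋₊, by omega⟩, Or.inl ⟨h, Or.inr ?_, Or.inr ?_⟩⟩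
          · exact Nat.floor_le (by linarith)
          · exact Nat.lt_floor_add_one x

include hn in
lemma In_lt {d : ℝ} (hd : d ≠ 0) {j j' : Fin (n + 1)} (hj : j < j') {x c x' c' : ℝ} (hc : c ≠ 0)
    (hc' : c' ≠ 0) (h : In n d j (x * c, c)) (h' : In n d j' (x' * c', c')) : x < x' := by
  rw [In_fin hn d hd _ _ _ hc] at h
  rw [In_fin hn d hd _ _ _ hc'] at h'
  have hj1 : (j : ℕ) < j' := hj
  have hj2 := j'.is_lt
  have hj3 : ((j : ℕ) : ℝ) + 1 ≤ (j' : ℕ) := by exact_mod_cast hj1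
  rcases h with ⟨d1, -, h⟩ | ⟨d1, -, h⟩ <;> rcases h' with ⟨d2, h', -⟩ | ⟨d2, h', -⟩
  · rcases h with h | h; omega
    rcases h' with h' | h'; omega
    linarith
  · linarith
  · linarith
  · rcases h with h | h; omega
    rcases h' with h' | h'; omega
    linarith

include hn in
lemma In_unique {d : ℝ} (hd : d ≠ 0) {u : V2} (hu : u ≠ 0) {j j' : Fin (n + 1)}
    (h : In n d j u) (h' : In n d j' u) : j = j' := by
  rcases vec_cases hu with ⟨c, hc, rfl⟩ | ⟨x, c, hc, rfl⟩
  · rw [In_inf hn d _ c hc] at h h'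
    rcases h with h | h <;> rcases h' with h' | h'
    · exact Fin.ext (by omega)
    · linarith [h.1, h'.1]
    · linarith [h.1, h'.1]
    · exact Fin.ext (by omega)
  · rcases lt_trichotomy j j' with hl | hl | hl
    · exact absurd (In_lt hn hd hl hc hc h h') (lt_irrefl _)
    · exact hl
    · exact absurd (In_lt hn hd hl hc hc h' h) (lt_irrefl _)

include hn in
lemma not_both {u : V2} (hu : u ≠ 0) (j : Fin (n + 1)) (h1 : om u (al n j) = 0)
    (h2 : om u (be n j) = 0) : False := by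
  have h := om_al_be hn j
  unfold om at *
  apply hu
  ext
  · simp only [Prod.fst_zero]
    linear_combination u.1 * h - (al n j).1 * h2 + (be n j).1 * h1
  · simp only [Prod.snd_zero]
    linear_combination u.2 * h - (al n j).2 * h2 + (be n j).2 * h1

lemma cone_rho (j : Fin (n + 1)) (u : V2) : cone n j (rho hn j u) = -cone n j u := by
  unfold cone; rw [om_rho_al, om_rho_be]; ring

lemma In_rho {d : ℝ} (hd : d ≠ 0) {u : V2} (hu : u ≠ 0) (j : Fin (n + 1)) :
    In n (-d) j (rho hn j u) ↔ ¬In n d j u := by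
  have nb := not_both hn hu j
  unfold In
  rw [cone_rho, om_rho_al, om_rho_be]
  unfold cone
  generalize om u (al n j) = A at *
  generalize om u (be n j) = B at *
  by_cases hA : A = 0
  · have hB : B ≠ 0 := fun h => nb hA h
    rcases lt_or_gt_of_ne hd with h | h <;> simp [hA, hB, h, h.le]
  · by_cases hB : B = 0
    · rcases lt_or_gt_of_ne hd with h | h <;> simp [hA, hB, h, h.le]
    · have : A * B ≠ 0 := mul_ne_zero hA hB
      simp only [neg_eq_zero, hA, hB, and_false, or_false, neg_lt_zero, not_lt]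
      exact ⟨le_of_lt, fun h => lt_of_le_of_ne h this.symm⟩

lemma In_neg (d : ℝ) (j : Fin (n + 1)) (u : V2) : In n d j (-u) ↔ In n d j u := by
  have : ∀ v, om (-u) v = -om u v := fun v => by simp [om]; ring
  unfold In cone
  simp [this]

include hn in
lemma cone_two {u : V2} {j k : Fin (n + 1)} (hjk : j ≠ k) (h : cone n j u < 0) :
    0 < cone n k u := by
  have hu : u ≠ 0 := by rintro rfl; simp [cone, om] at h
  by_contra hc
  rcases (not_lt.1 hc).lt_or_eq with hc | hc
  · exact hjk (In_unique hn one_ne_zero hu (Or.inl h) (Or.inl hc))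
  · rcases mul_eq_zero.1 hc with hc | hc
    · exact hjk (In_unique hn one_ne_zero hu (Or.inl h) (Or.inr (Or.inl ⟨one_pos, hc⟩)))
    · exact hjk (In_unique hn (d := -1) (by norm_num) hu (Or.inl h)
        (Or.inr (Or.inr ⟨by norm_num, hc⟩)))

/-- equality up to sign -/
def PM (u v : V2) : Prop := u = v ∨ u = -v

lemma PM.refl (u : V2) : PM u u := Or.inl rfl
lemma PM.symm {u v : V2} (h : PM u v) : PM v u := by
  rcases h with rfl | rfl
  · exact Or.inl rfl
  · right; simp
lemma PM.trans {u v w : V2} (h : PM u v) (h' : PM v w) : PM u w := by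
  rcases h with rfl | rfl <;> rcases h' with rfl | rfl <;> simp [PM]
lemma PM.map {u v : V2} (g : GG) (h : PM u v) : PM (g u) (g v) := by
  rcases h with rfl | rfl <;> simp [PM]
lemma PM.In {u v : V2} (h : PM u v) {d : ℝ} {j : Fin (n + 1)} : In n d j u ↔ In n d j v := by
  rcases h with rfl | rfl
  · rfl
  · exact In_neg d j v
lemma PM.cone {u v : V2} (h : PM u v) (j : Fin (n + 1)) : cone n j u = cone n j v := by
  rcases h with rfl | rfl
  · rfl
  · simp [BP.cone, om]; ring

lemma rho_PM {u : V2} (j : Fin (n + 1)) (h : cone n j u = 0) : PM (rho hn j u) u := by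
  have h1 := om_al_be hn j
  rw [rho_apply]
  unfold om at h1
  rcases mul_eq_zero.1 h with h | h
  · left
    unfold om at *
    ext
    · simp only; linear_combination (-u.1) * h1 - 2 * (be n j).1 * h
    · simp only; linear_combination (-u.2) * h1 - 2 * (be n j).2 * h
  · right
    unfold om at *
    ext
    · simp only [Prod.fst_neg]; linear_combination u.1 * h1 - 2 * (al n j).1 * h
    · simp only [Prod.snd_neg]; linear_combination u.2 * h1 - 2 * (al n j).2 * h

lemma qv_ne (n i : ℕ) : qv n i ≠ 0 := by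
  unfold qv; split_ifs <;> simp [Prod.ext_iff]

lemma In_cusp_pos (c : Fin (n + 1)) {d : ℝ} (hd : 0 < d) : In n d c (qv n c) :=
  Or.inr (Or.inl ⟨hd, by unfold al om; ring⟩)

lemma In_cusp_neg (c : Fin (n + 1)) {d : ℝ} (hd : d < 0) : In n d (c - 1) (qv n c) := by
  refine Or.inr (Or.inr ⟨hd, ?_⟩)
  by_cases h : c = 0
  · subst h
    have : ((0 - 1 : Fin (n + 1)) : ℕ) = n := by simp
    unfold be qv; rw [this]; simp [om]
  · have h' : (c : ℕ) ≠ 0 := fun e => h (Fin.ext e)
    have : ((c - 1 : Fin (n + 1)) : ℕ) + 1 = c := by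
      rw [Fin.coe_sub_one, if_neg h]; omega
    unfold be; rw [this]; unfold om; ring

include hn in
lemma cone_cusp (c j : Fin (n + 1)) : 0 ≤ cone n j (qv n c) := by
  by_contra h
  push Not at h
  have := In_unique hn one_ne_zero (qv_ne n c) (Or.inl h) (In_cusp_pos c one_pos)
  subst this
  have : om (qv n j) (al n j) = 0 := by unfold al om; ring
  unfold cone at h; rw [this] at h; simp at h

include hn in
lemma cusp_eq {d : ℝ} (hd : d ≠ 0) {c c' j : Fin (n + 1)} (h : In n d j (qv n c))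
    (h' : In n d j (qv n c')) : c = c' := by
  rcases lt_or_gt_of_ne hd with hd' | hd'
  · have e1 := In_unique hn hd (qv_ne n c) h (In_cusp_neg c hd')
    have e2 := In_unique hn hd (qv_ne n c') h' (In_cusp_neg c' hd')
    exact sub_left_injective (e1.symm.trans e2)
  · have e1 := In_unique hn hd (qv_ne n c) h (In_cusp_pos c hd')
    have e2 := In_unique hn hd (qv_ne n c') h' (In_cusp_pos c' hd')
    exact e1.symm.trans e2

lemma cusp_red (c : Fin (n + 1)) (l : List (Fin (n + 1))) (hl : l.IsChain (· ≠ ·)) :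
    PM (pr hn l (qv n c)) (qv n c) ∨ ∃ j l', l = j :: l' ∧ cone n j (pr hn l (qv n c)) < 0 := by
  induction l with
  | nil => left; exact PM.refl _
  | cons j l ih =>
    rw [pr_cons, mul_app]
    rcases ih hl.tail with h | ⟨j', l', rfl, h⟩
    · rcases (cone_cusp hn c j).lt_or_eq with h1 | h1
      · right; refine ⟨j, l, rfl, ?_⟩
        rw [cone_rho, h.cone]; linarith
      · left; exact (h.map _).trans (rho_PM hn j h1.symm)
    · right; refine ⟨j, _, rfl, ?_⟩
      have := cone_two hn (List.isChain_cons_cons.1 hl).1.symm h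
      rw [cone_rho]; linarith

open Classical in
/-- the side of the polygon `h` through which the end `u` is seen -/
noncomputable def bb (n : ℕ) (h : GG) (u : V2) : Fin (n + 1) :=
  if H : ∃ j, In n (dt h) j (h⁻¹ u) then H.choose else 0

lemma map_ne {u : V2} (hu : u ≠ 0) (g : GG) : g u ≠ 0 := fun h =>
  hu (g.injective (h.trans (map_zero g).symm))

include hn in
lemma bb_In (h : GG) {u : V2} (hu : u ≠ 0) : In n (dt h) (bb n h u) (h⁻¹ u) := by
  have H := In_exists hn (dt_ne h) (map_ne hu h⁻¹)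
  unfold bb; rw [dif_pos H]; exact H.choose_spec

include hn in
lemma bb_eq (h : GG) {u : V2} (hu : u ≠ 0) {j : Fin (n + 1)} :
    bb n h u = j ↔ In n (dt h) j (h⁻¹ u) :=
  ⟨fun e => e ▸ bb_In hn h hu, fun e => In_unique hn (dt_ne h) (map_ne hu h⁻¹) (bb_In hn h hu) e⟩

lemma bb_step (h : GG) {u : V2} (hu : u ≠ 0) (j : Fin (n + 1)) :
    bb n (h * rho hn j) u = j ↔ bb n h u ≠ j := by
  rw [Ne, bb_eq hn _ hu, bb_eq hn _ hu, dt_mul, dt_rho, mul_inv_rev, rho_inv, mul_app,
    mul_neg_one, In_rho hn (dt_ne h) (map_ne hu h⁻¹)]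

lemma bb_nest {u : V2} (hu : u ≠ 0) (l : List (Fin (n + 1))) (j : Fin (n + 1))
    (hl : (j :: l).IsChain (· ≠ ·)) (h : GG) (hb : bb n h u ≠ j) :
    bb n (h * pr hn (j :: l)) u = (j :: l).getLast (by simp) := by
  induction l generalizing j h with
  | nil => rw [pr_cons, pr_nil, mul_one]; exact (bb_step hn h hu j).2 hb
  | cons k l ih =>
    have h1 := (bb_step hn h hu j).2 hb
    have := ih k hl.tail (h * rho hn j) (by rw [h1]; exact (List.isChain_cons_cons.1 hl).1)
    rw [pr_cons hn j, ← mul_assoc, this]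
    simp

/-- walking towards the end `u` -/
noncomputable def fol (u : V2) (h : GG) : ℕ → GG
  | 0 => h
  | m + 1 => fol u h m * rho hn (bb n (fol u h m) u)

lemma fol_mem (u : V2) {h : GG} (hh : h ∈ WW hn) (m : ℕ) : fol hn u h m ∈ WW hn := by
  induction m with
  | zero => exact hh
  | succ m ih => exact mul_mem ih (rho_mem hn _)

lemma fol_succ' (u : V2) (h : GG) (m : ℕ) :
    fol hn u h (m + 1) = fol hn u (h * rho hn (bb n h u)) m := by
  induction m with
  | zero => rfl
  | succ m ih => rw [fol, ih]; rfl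

/-- `u` is a lift of the cusp `c` -/
def IsEnd (c : Fin (n + 1)) (u : V2) : Prop := ∃ g ∈ WW hn, PM u (g (qv n c))

lemma IsEnd.ne {c : Fin (n + 1)} {u : V2} (h : IsEnd hn c u) : u ≠ 0 := by
  obtain ⟨g, -, h | h⟩ := h
  · rw [h]; exact map_ne (qv_ne _ _) g
  · rw [h]; exact neg_ne_zero.2 (map_ne (qv_ne _ _) g)

lemma fol_stay (c : Fin (n + 1)) {u : V2} (hu : u ≠ 0) (h : GG) (hp : PM (h⁻¹ u) (qv n c))
    (m : ℕ) : PM ((fol hn u h m)⁻¹ u) (qv n c) := by
  induction m with
  | zero => exact hp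
  | succ m ih =>
    rw [fol, mul_inv_rev, rho_inv, mul_app]
    have h1 := ih.In.1 (bb_In hn (fol hn u h m) hu)
    refine (ih.map _).trans (rho_PM hn _ ?_)
    rcases h1 with h1 | h1 | h1
    · exact absurd h1 (not_lt.2 (cone_cusp hn c _))
    · unfold cone; rw [h1.2, zero_mul]
    · unfold cone; rw [h1.2, mul_zero]

lemma fol_term (c : Fin (n + 1)) {u : V2} (hu : u ≠ 0) (l : List (Fin (n + 1)))
    (hl : l.IsChain (· ≠ ·)) (h : GG) (hp : PM (h⁻¹ u) (pr hn l (qv n c))) :
    ∃ N, ∀ m ≥ N, PM ((fol hn u h m)⁻¹ u) (qv n c) := by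
  induction l generalizing h with
  | nil => exact ⟨0, fun m _ => fol_stay hn c hu h hp m⟩
  | cons j l ih =>
    rcases cusp_red hn c (j :: l) hl with h1 | ⟨j', l', e, h1⟩
    · exact ⟨0, fun m _ => fol_stay hn c hu h (hp.trans h1) m⟩
    · obtain ⟨rfl, rfl⟩ := List.cons.inj e
      have h2 : bb n h u = j := (bb_eq hn h hu).2 (hp.In.2 (Or.inl h1))
      obtain ⟨N, hN⟩ := ih hl.tail (h * rho hn j) (by
        rw [mul_inv_rev, rho_inv, mul_app]
        have := hp.map (rho hn j)
        rwa [pr_cons, mul_app, rho_rho] at this)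
      refine ⟨N + 1, fun m hm => ?_⟩
      obtain ⟨m, rfl⟩ : ∃ m', m = m' + 1 := ⟨m - 1, by omega⟩
      rw [fol_succ', h2]
      exact hN m (by omega)

lemma IsEnd.term {c : Fin (n + 1)} {u : V2} (hu : IsEnd hn c u) {h : GG} (hh : h ∈ WW hn) :
    ∃ N, ∀ m ≥ N, PM ((fol hn u h m)⁻¹ u) (qv n c) := by
  obtain ⟨g, hg, hp⟩ := hu
  obtain ⟨l, hl, e⟩ := exists_red hn (mul_mem (inv_mem hh) hg)
  exact fol_term hn c (IsEnd.ne hn ⟨g, hg, hp⟩) l hl h (by rw [← e, mul_app]; exact hp.map _)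

lemma diverge {c c' : Fin (n + 1)} {u u' : V2} (hu : IsEnd hn c u) (hu' : IsEnd hn c' u')
    (hcc : c ≠ c') {h : GG} (hh : h ∈ WW hn) :
    ∃ N, ∀ m ≥ N, bb n (fol hn u h m) u' ≠ bb n (fol hn u h m) u := by
  have ex : ∃ N, bb n (fol hn u h N) u' ≠ bb n (fol hn u h N) u := by
    by_contra hc
    push Not at hc
    have e : ∀ m, fol hn u' h m = fol hn u h m := by
      intro m
      induction m with
      | zero => rfl
      | succ m ih => rw [fol, fol, ih, hc]
    obtain ⟨N, hN⟩ := hu.term hn hh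
    obtain ⟨N', hN'⟩ := hu'.term hn hh
    have h1 := (hN (N + N') (by omega)).In.1 (bb_In hn (fol hn u h (N + N')) (hu.ne hn))
    have h2 := (hN' (N + N') (by omega)).In.1 (bb_In hn (fol hn u' h (N + N')) (hu'.ne hn))
    rw [e, hc] at h2
    exact hcc (cusp_eq hn (dt_ne _) h1 h2)
  obtain ⟨N, hN⟩ := ex
  refine ⟨N, fun m hm => ?_⟩
  induction m, hm using Nat.le_induction with
  | base => exact hN
  | succ m _ ih =>
    rw [fol]
    have h1 := (bb_step hn (fol hn u h m) (hu'.ne hn) _).2 ih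
    have h2 := (bb_step hn (fol hn u h m) (hu.ne hn) (bb n (fol hn u h m) u)).not.2 (by simp)
    rw [h1]; exact fun e => h2 e.symm

end Pool.Agent.H167Z.BP
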