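import Pool.Agent.H167Z.BP.Upper
import Pool.Agent.H167Z.BP.Bip

set_option autoImplicit false

namespace Pool.Agent.H167Z.BP

open Set

def kap (m : ℕ) : Fin (m + 2) ≃ Fin m ⊕ Bool :=
  finSumFinEquiv.symm.trans (Equiv.sumCongr (Equiv.refl _) finTwoEquiv)

lemma cr2_le {V : Type} {G G₁ G₂ : SimpleGraph V} (h : G₁ ⊔ G₂ = G) {a b c : ℕ}
    (h1 : cr G₁ ≤ a) (h2 : cr G₂ ≤ b) (h3 : a + b ≤ c) : cr2 G ≤ c :=
  (iInf_le_of_le G₁ (iInf_le_of_le G₂ (iInf_le _ h))).trans
    ((add_le_add h1 h2).trans (by exact_mod_cast h3))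

lemma plane6 (q : ℕ) (h : Fin q → Bool) (j : Fin q → Fin 4)
    (hi : ∀ w w', h w = h w' → j w = j w' → (w : ℕ) % 8 = w' % 8) :
    cr (bip (fun w c => Leaf (fun i : Fin 4 => i + 1) (h w) (j w) False (kap 4 c))) ≤
      ((∑ w : Fin q, (w : ℕ) / 8 : ℕ) : ℕ∞) := by
  classical
  refine (level_le (kap 4) h j (fun _ => False) (fun w => w / 8) fan4 ?_).trans ?_
  · intro w w' e1 e2 _ e3
    have := hi w w' e1 e2
    apply Fin.ext; omega
  · refine Nat.cast_le.2 (Finset.sum_le_sum fun w' _ => ?_)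
    simp only [false_and, and_false, Finset.filter_false, Finset.card_empty, add_zero, zero_add]
    exact fib_le 8 _ _ (fun w k => k.2.2.2)
      (fun w v k k' => hi w v (k.1.trans k'.1.symm) (k.2.1.trans k'.2.1.symm))

theorem upper6 (q : ℕ) : cr2 (completeBipartiteGraph (Fin 6) (Fin q)) ≤
    ((2 * (q / 8) * (q - 4 * (q / 8) - 4) : ℕ) : ℕ∞) := by
  let h : Fin q → Bool := fun w => decide ((w : ℕ) % 8 < 4)
  let j : Fin q → Fin 4 := fun w => ⟨w % 4, Nat.mod_lt _ (by norm_num)⟩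
  have hi : ∀ w w', h w = h w' → j w = j w' → (w : ℕ) % 8 = w' % 8 := by
    intro w w' e1 e2
    simp only [h, j, decide_eq_decide, Fin.mk.injEq] at e1 e2
    omega
  refine cr2_le (bip_sup _ _ ?_) (plane6 q h j hi)
    (plane6 q (fun w => !h w) (fun w => j w + 2)
      (fun w w' e1 e2 => hi w w' (Bool.not_inj e1) (add_right_cancel e2))) ?_
  · intro w c
    generalize kap 4 c = x
    generalize h w = a
    generalize j w = b
    simp only [Leaf]
    revert x a b
    decide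
  · have := sum_div 8 q
    have h := Nat.div_mul_le_self q 8
    generalize q / 8 = k at *
    rcases Nat.eq_zero_or_pos k with rfl | hk
    · omega
    obtain ⟨r, rfl⟩ : ∃ r, q = 4 * k + 4 + r := ⟨q - (4 * k + 4), by omega⟩
    rw [show 4 * k + 4 + r - 4 * k - 4 = r by omega]
    nlinarith

lemma plane8 (q : ℕ) (h : Fin q → Bool) (j : Fin q → Fin 6)
    (hi : ∀ w w', j w = j w' → (w : ℕ) % 6 = w' % 6)
    (hp : ∀ w w', h w = h w' → j w' ≠ j w + 1) :
    cr (bip (fun w c => Leaf (fun i : Fin 6 => i + 1) (h w) (j w) True (kap 6 c))) ≤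
      ((2 * ∑ w : Fin q, (w : ℕ) / 6 : ℕ) : ℕ∞) := by
  classical
  refine (level_le (kap 6) h j (fun _ => True) (fun w => w / 6) fan6 ?_).trans ?_
  · intro w w' e1 e2 _ e3
    have := hi w w' e2
    apply Fin.ext; omega
  · rw [Finset.mul_sum]
    refine Nat.cast_le.2 (Finset.sum_le_sum fun w' _ => ?_)
    refine le_trans (add_le_add (add_le_add (add_le_add (fib_le 6 0 _ ?_ ?_)
      (fib_le 6 (w' / 6) _ ?_ ?_)) (fib_le 6 (w' / 6) _ ?_ ?_)) (fib_le 6 0 _ ?_ ?_)) (by omega)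
    · exact fun w k => (k.2.2.2 trivial).elim
    · exact fun w _ k => (k.2.2.2 trivial).elim
    · exact fun w k => k.2.2.2
    · exact fun w v k k' => hi w v (k.2.1.trans k'.2.1.symm)
    · exact fun w k => k.2.2.2.2
    · exact fun w v k k' => hi w v (k.2.1.trans k'.2.1.symm)
    · exact fun w k => (hp w w' k.1 k.2.1).elim
    · exact fun w _ k => (hp w w' k.1 k.2.1).elim

theorem upper8 (q : ℕ) : cr2 (completeBipartiteGraph (Fin 8) (Fin q)) ≤
    ((4 * (q / 6) * (q - 3 * (q / 6) - 3) : ℕ) : ℕ∞) := by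
  let j : Fin q → Fin 6 := fun w => ⟨w % 6, Nat.mod_lt _ (by norm_num)⟩
  let H : Fin 6 → Bool := fun i => decide ((i : ℕ) % 2 = 0)
  have hi : ∀ w w', j w = j w' → (w : ℕ) % 6 = w' % 6 := by
    intro w w' e2
    simpa [j] using e2
  have p1 : ∀ a b, H a = H b → b ≠ a + 1 := by decide
  have p2 : ∀ a b, (!H a) = (!H b) → b + 3 ≠ a + 3 + 1 := by decide
  refine cr2_le (bip_sup _ _ ?_) (plane8 q (fun w => H (j w)) j hi (fun w w' => p1 _ _))
    (plane8 q (fun w => !H (j w)) (fun w => j w + 3)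
      (fun w w' e2 => hi w w' (add_right_cancel e2)) (fun w w' => p2 _ _)) ?_
  · intro w c
    generalize kap 6 c = x
    generalize H (j w) = a
    generalize j w = b
    simp only [Leaf]
    revert x a b
    decide
  · have := sum_div 6 q
    have h := Nat.div_mul_le_self q 6
    generalize q / 6 = k at *
    rcases Nat.eq_zero_or_pos k with rfl | hk
    · omega
    obtain ⟨r, rfl⟩ : ∃ r, q = 3 * k + 3 + r := ⟨q - (3 * k + 3), by omega⟩
    rw [show 3 * k + 3 + r - 3 * k - 3 = r by omega]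
    nlinarith

end Pool.Agent.H167Z.BP
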