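import Pool.Agent.H167Z.BP.Chart

set_option autoImplicit false

namespace Pool.Agent.H167Z.BP

open Filter Topology Set

variable {n : ℕ} (hn : 2 ≤ n) {p : Fin (n + 1) → ℂ} {X S Y : ℂ → ℝ}

noncomputable def sg (Y : ℂ → ℝ) (z : ℂ) : ℝ := if 0 ≤ Y z then 1 else -1

def On (n : ℕ) (X S : ℂ → ℝ) (z : ℂ) (j : Fin (n + 1)) : Prop :=
  FF (X z) (S z) (al n j) (be n j) = 0

/-- `G` follows the tiles visited by the path `γ` on the time set `s` -/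
def IsLift (X S Y : ℂ → ℝ) (γ : ℝ → ℂ) (G : ℝ → GG) (s : Set ℝ) : Prop :=
  ∀ t ∈ s, G t ∈ WW hn ∧ dt (G t) = sg Y (γ t) ∧
    ∀ᶠ t' in 𝓝 t, t' ∈ s → G t' = G t ∨ ∃ j, On n X S (γ t) j ∧ G t' = G t * rho hn j

lemma IsLift.mono {γ : ℝ → ℂ} {G : ℝ → GG} {s s' : Set ℝ} (h : IsLift hn X S Y γ G s)
    (hs : s' ⊆ s) : IsLift hn X S Y γ G s' := fun t ht =>
  ⟨(h t (hs ht)).1, (h t (hs ht)).2.1, (h t (hs ht)).2.2.mono fun _ k m => k (hs m)⟩

include hn in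
lemma On_unique (C : Chart n p X S Y) {z : ℂ} (hz : ∀ c, z ≠ p c) {j k : Fin (n + 1)}
    (h1 : On n X S z j) (h2 : On n X S z k) : j = k := by
  by_contra hne
  exact (two_sides hn (C.inP z hz).1 hne h1.le).ne' h2

lemma FF_tendsto {α : Type} {l : Filter α} {x s : α → ℝ} {a b : ℝ} (hx : Tendsto x l (𝓝 a))
    (hs : Tendsto s l (𝓝 b)) (u v : V2) :
    Tendsto (fun t => FF (x t) (s t) u v) l (𝓝 (FF a b u v)) := by
  unfold FF
  exact ((tendsto_const_nhds.sub (hx.mul_const _)).mul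
    (tendsto_const_nhds.sub (hx.mul_const _))).add ((hs.mul_const _).mul_const _)

lemma sg_cases (z : ℂ) : sg Y z = 1 ∨ sg Y z = -1 := by unfold sg; split_ifs <;> simp

section path
variable (C : Chart n p X S Y) {γ : ℝ → ℂ} (hγ : ContinuousOn γ (Ico 0 1))
  (hU : ∀ t ∈ Ico (0 : ℝ) 1, ∀ c, γ t ≠ p c)
include C hγ hU

lemma sg_loc {t : ℝ} (ht : t ∈ Ico (0 : ℝ) 1) (h : Y (γ t) ≠ 0) :
    ∀ᶠ t' in 𝓝 t, t' ∈ Ico (0 : ℝ) 1 → Y (γ t') ≠ 0 ∧ sg Y (γ t') = sg Y (γ t) := by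
  have c : ContinuousWithinAt (fun t => Y (γ t)) (Ico 0 1) t := (C.cY.comp hγ hU) t ht
  rw [← eventually_nhdsWithin_iff]
  rcases lt_or_gt_of_ne h with h | h
  · filter_upwards [c.eventually (gt_mem_nhds h)] with t' h'
    exact ⟨h'.ne, by simp [sg, not_le.2 h, not_le.2 h']⟩
  · filter_upwards [c.eventually (lt_mem_nhds h)] with t' h'
    exact ⟨h'.ne', by simp [sg, h.le, h'.le]⟩

include hn in
lemma side_loc {t : ℝ} (ht : t ∈ Ico (0 : ℝ) 1) :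
    ∃ j, ∀ᶠ t' in 𝓝 t, t' ∈ Ico (0 : ℝ) 1 → ∀ k, On n X S (γ t') k → k = j := by
  by_cases h : Y (γ t) = 0
  · obtain ⟨j, hj⟩ := (C.side _).1 h
    refine ⟨j, ?_⟩
    rw [← eventually_nhdsWithin_iff, eventually_all]
    intro k
    by_cases hk : k = j
    · exact Eventually.of_forall fun _ _ => hk
    · have pos := two_sides hn (C.inP _ (hU t ht)).1 (Ne.symm hk) hj.le
      have c1 : ContinuousWithinAt (fun t => X (γ t)) (Ico 0 1) t := (C.cX.comp hγ hU) t ht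
      have c2 : ContinuousWithinAt (fun t => S (γ t)) (Ico 0 1) t := (C.cS.comp hγ hU) t ht
      have c : ContinuousWithinAt (fun t => FF (X (γ t)) (S (γ t)) (al n k) (be n k))
          (Ico 0 1) t := FF_tendsto c1 c2 _ _
      filter_upwards [c.eventually (lt_mem_nhds pos)] with t' h' h0
      exact absurd h0 h'.ne'
  · refine ⟨0, ?_⟩
    filter_upwards [sg_loc C hγ hU ht h] with t' h' m k hk
    exact absurd ((C.side _).2 ⟨k, hk⟩) (h' m).1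

lemma lift_loc {s : Set ℝ} (hs : s ⊆ Ico 0 1) (j : Fin (n + 1))
    (hj : ∀ t ∈ s, ∀ k, On n X S (γ t) k → k = j) {g : GG} (hg : g ∈ WW hn) :
    IsLift hn X S Y γ (fun t => if sg Y (γ t) = dt g then g else g * rho hn j) s := by
  intro t ht
  beta_reduce
  refine ⟨?_, ?_, ?_⟩
  · split_ifs
    · exact hg
    · exact mul_mem hg (rho_mem hn j)
  · split_ifs with h
    · exact h.symm
    · rw [dt_mul, dt_rho]
      rcases sg_cases (Y := Y) (γ t) with a | a <;> rcases dt_W hn hg with b | b <;>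
        simp_all
  · by_cases h : Y (γ t) = 0
    · obtain ⟨k, hk⟩ := (C.side _).1 h
      have := hj t ht k hk
      subst this
      refine Eventually.of_forall fun t' _ => ?_
      split_ifs
      · exact Or.inl rfl
      · exact Or.inr ⟨k, hk, by rw [mul_assoc, rho_mul_self, mul_one]⟩
      · exact Or.inr ⟨k, hk, rfl⟩
      · exact Or.inl rfl
    · filter_upwards [sg_loc C hγ hU (hs ht) h] with t' h' m
      left; rw [(h' (hs m)).2]

omit C hγ hU in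
lemma lift_glue {G G' : ℝ → GG} {a b : ℝ} (h : IsLift hn X S Y γ G (Icc 0 a))
    (h' : IsLift hn X S Y γ G' (Icc a b)) (e : G' a = G a) :
    IsLift hn X S Y γ (fun t => if t ≤ a then G t else G' t) (Icc 0 b) := by
  intro t ht
  rcases lt_trichotomy t a with l | l | l
  · obtain ⟨h1, h2, h3⟩ := h t ⟨ht.1, l.le⟩
    simp only [if_pos l.le]
    refine ⟨h1, h2, ?_⟩
    filter_upwards [h3, eventually_lt_nhds l] with t' k k' m
    rw [if_pos k'.le]; exact k ⟨m.1, k'.le⟩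
  · subst l
    obtain ⟨h1, h2, h3⟩ := h t ⟨ht.1, le_rfl⟩
    obtain ⟨-, -, h4⟩ := h' t ⟨le_rfl, ht.2⟩
    simp only [if_pos le_rfl]
    refine ⟨h1, h2, ?_⟩
    filter_upwards [h3, h4] with t' k k' m
    split_ifs with q
    · exact k ⟨m.1, q⟩
    · rw [← e]; exact k' ⟨(not_le.1 q).le, m.2⟩
  · obtain ⟨h1, h2, h3⟩ := h' t ⟨l.le, ht.2⟩
    simp only [if_neg (not_le.2 l)]
    refine ⟨h1, h2, ?_⟩
    filter_upwards [h3, eventually_gt_nhds l] with t' k k' m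
    rw [if_neg (not_le.2 k')]; exact k ⟨k'.le, m.2⟩

lemma lift_exists_Icc {g₀ : GG} (hg : g₀ ∈ WW hn) (hd : dt g₀ = sg Y (γ 0)) {T : ℝ}
    (hT : T ∈ Ico (0 : ℝ) 1) : ∃ G, G 0 = g₀ ∧ IsLift hn X S Y γ G (Icc 0 T) := by
  have base : ∃ G, G 0 = g₀ ∧ IsLift hn X S Y γ G (Icc 0 0) := by
    refine ⟨fun _ => g₀, rfl, fun t ht => ⟨hg, ?_, Eventually.of_forall fun _ _ => Or.inl rfl⟩⟩
    rw [le_antisymm ht.2 ht.1]; exact hd
  refine isPreconnected_Ico.induction₂'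
    (fun a b => (∃ G : ℝ → GG, G 0 = g₀ ∧ IsLift hn X S Y γ G (Icc 0 a)) →
      ∃ G : ℝ → GG, G 0 = g₀ ∧ IsLift hn X S Y γ G (Icc 0 b)) ?_ (fun _ _ _ _ _ _ h1 h2 h => h2 (h1 h))
      (show (0 : ℝ) ∈ Ico (0 : ℝ) 1 by simp) hT base
  intro x hx
  obtain ⟨j, hj⟩ := side_loc hn C hγ hU hx
  obtain ⟨δ, hδ, hb⟩ := Metric.eventually_nhds_iff_ball.1 hj
  have key : ∀ a ∈ Ico (0 : ℝ) 1, ∀ b ∈ Ico (0 : ℝ) 1, a ∈ Metric.ball x δ → b ∈ Metric.ball x δ →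
      (∃ G, G 0 = g₀ ∧ IsLift hn X S Y γ G (Icc 0 a)) →
      ∃ G, G 0 = g₀ ∧ IsLift hn X S Y γ G (Icc 0 b) := by
    rintro a ha b hb' ma mb ⟨G, h0, hG⟩
    by_cases l : b ≤ a
    · exact ⟨G, h0, hG.mono hn (Icc_subset_Icc le_rfl l)⟩
    · have sub : Icc a b ⊆ Ico 0 1 := fun t ht => ⟨ha.1.trans ht.1, ht.2.trans_lt hb'.2⟩
      obtain ⟨k1, k2, -⟩ := hG a ⟨ha.1, le_rfl⟩
      have h' := lift_loc hn C hγ hU sub j (fun t ht => hb t
        ((convex_ball x δ).ordConnected.out ma mb ht) (sub ht)) k1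
      exact ⟨_, by simp [ha.1, h0], lift_glue hn hG h' (by simp [k2])⟩
  filter_upwards [self_mem_nhdsWithin,
    mem_nhdsWithin_of_mem_nhds (Metric.ball_mem_nhds x hδ)] with y hy my
  exact ⟨key x hx y hy (Metric.mem_ball_self hδ) my, key y hy x hx my (Metric.mem_ball_self hδ)⟩

omit hγ in
lemma lift_unique {G G' : ℝ → GG} {T : ℝ} (hT : T < 1) (h : IsLift hn X S Y γ G (Icc 0 T))
    (h' : IsLift hn X S Y γ G' (Icc 0 T)) (e : G 0 = G' 0) {t : ℝ} (ht : t ∈ Icc 0 T) :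
    G t = G' t := by
  have := isPreconnected_Icc.induction₂' (fun a b => G a * (G' a)⁻¹ = G b * (G' b)⁻¹) ?_
    (fun _ _ _ _ _ _ h1 h2 => h1.trans h2) (show (0 : ℝ) ∈ Icc 0 T from ⟨le_rfl, ht.1.trans ht.2⟩) ht
  · rw [e, mul_inv_cancel] at this
    exact mul_inv_eq_one.1 this.symm
  intro x hx
  obtain ⟨-, d1, l1⟩ := h x hx
  obtain ⟨-, d2, l2⟩ := h' x hx
  rw [eventually_nhdsWithin_iff]
  filter_upwards [l1, l2] with y k1 k2 hy
  have d3 := (h y hy).2.1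
  have d4 := (h' y hy).2.1
  have d5 := dt_ne (G x)
  suffices G x * (G' x)⁻¹ = G y * (G' y)⁻¹ from ⟨this, this.symm⟩
  rcases k1 hy with a | ⟨j, hj, a⟩ <;> rcases k2 hy with b | ⟨k, hk, b⟩
  · rw [a, b]
  · exfalso; rw [a] at d3; rw [b, dt_mul, dt_rho] at d4; apply d5; linarith
  · exfalso; rw [a, dt_mul, dt_rho] at d3; rw [b] at d4; apply d5; linarith
  · have := On_unique hn C (hU x ⟨hx.1, hx.2.trans_lt hT⟩) hj hk
    subst this
    rw [a, b]; group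

lemma lift_exists {g₀ : GG} (hg : g₀ ∈ WW hn) (hd : dt g₀ = sg Y (γ 0)) :
    ∃ G, G 0 = g₀ ∧ IsLift hn X S Y γ G (Ico 0 1) := by
  have ex := fun T (hT : T ∈ Ico (0 : ℝ) 1) => lift_exists_Icc hn C hγ hU hg hd hT
  choose! F F0 FL using ex
  refine ⟨fun t => F t t, F0 0 (by simp), fun t ht => ?_⟩
  have hT : (t + 1) / 2 ∈ Ico (0 : ℝ) 1 := ⟨by linarith [ht.1], by linarith [ht.2]⟩
  have eq : ∀ y ∈ Ico (0 : ℝ) 1, y ≤ (t + 1) / 2 → F y y = F ((t + 1) / 2) y := fun y hy l =>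
    lift_unique hn C hU hy.2 (FL y hy) ((FL _ hT).mono hn (Icc_subset_Icc le_rfl l))
      (by rw [F0 y hy, F0 _ hT]) ⟨hy.1, le_rfl⟩
  have lt : t < (t + 1) / 2 := by linarith [ht.2]
  obtain ⟨k1, k2, k3⟩ := FL _ hT t ⟨ht.1, lt.le⟩
  simp only [eq t ht lt.le]
  refine ⟨k1, k2, ?_⟩
  filter_upwards [k3, eventually_lt_nhds lt] with y a b hy
  rw [eq y hy b.le]; exact a ⟨hy.1, b.le⟩

omit hγ in
lemma lift_end {c : Fin (n + 1)} (h1 : Tendsto γ (𝓝[Ico 0 1] 1) (𝓝 (p c))) {G : ℝ → GG}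
    (hG : IsLift hn X S Y γ G (Ico 0 1)) :
    ∃ u, IsEnd hn c u ∧ ∀ᶠ t in 𝓝[Ico 0 1] 1, PM ((G t)⁻¹ u) (qv n c) := by
  have h2 : Tendsto γ (𝓝[Ico 0 1] 1) (𝓝[{z | ∀ c, z ≠ p c}] (p c)) :=
    tendsto_nhdsWithin_iff.2 ⟨h1, eventually_mem_nhdsWithin.mono fun t ht => hU t ht⟩
  have h3 := h2.eventually (C.near c)
  rw [eventually_nhdsWithin_iff] at h3
  obtain ⟨δ, hδ, hb⟩ := Metric.eventually_nhds_iff_ball.1 h3
  set t₀ := max 0 (1 - δ / 2) with ht₀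
  have m0 : t₀ ∈ Ico (0 : ℝ) 1 := ⟨le_max_left _ _, max_lt one_pos (by linarith)⟩
  have sub : Ico t₀ 1 ⊆ Ico 0 1 := Ico_subset_Ico m0.1 le_rfl
  have key : ∀ t ∈ Ico t₀ 1, PM (G t₀ (qv n c)) (G t (qv n c)) := by
    intro t ht
    refine isPreconnected_Ico.induction₂' (fun a b => PM (G a (qv n c)) (G b (qv n c))) ?_
      (fun _ _ _ _ _ _ h1 h2 => h1.trans h2) ⟨le_rfl, m0.2⟩ ht
    intro x hx
    have hxb : x ∈ Metric.ball (1 : ℝ) δ := by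
      rw [Metric.mem_ball, Real.dist_eq, abs_lt]
      constructor <;> linarith [hx.1, hx.2, le_max_right 0 (1 - δ / 2)]
    rw [eventually_nhdsWithin_iff]
    filter_upwards [(hG x (sub hx)).2.2] with y k hy
    suffices PM (G y (qv n c)) (G x (qv n c)) from ⟨this.symm, this⟩
    rcases k (sub hy) with a | ⟨j, hj, a⟩
    · rw [a]; exact PM.refl _
    · rw [a, mul_app]; exact (rho_PM hn j (hb x hxb (sub hx) j hj)).map _
  refine ⟨G t₀ (qv n c), ⟨G t₀, (hG t₀ m0).1, PM.refl _⟩, ?_⟩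
  filter_upwards [self_mem_nhdsWithin, mem_nhdsWithin_of_mem_nhds (eventually_gt_nhds m0.2)]
    with t ht ht'
  have := (key t ⟨le_of_lt ht', ht.2⟩).map (G t)⁻¹
  rwa [← mul_app (G t)⁻¹ (G t), inv_mul_cancel, one_app] at this

end path

end Pool.Agent.H167Z.BP
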