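import Pool.Agent.H167Z.BP.Cross
import Pool.Agent.H167Z.BP.Defs

set_option autoImplicit false

namespace Pool.Agent.H167Z.BP

open Filter Topology Set

lemma fiber_le {α β γ : Type} [DecidableEq γ] (P : Finset α) (Q : Finset β) (κ : α → γ)
    (κ' : β → γ)
    (h : ∀ a ∈ P, (P.filter (fun x => κ x = κ a)).card ≤ (Q.filter (fun y => κ' y = κ a)).card) :
    P.card ≤ Q.card := by
  classical
  rw [Finset.card_eq_sum_card_fiberwise (f := κ) (t := P.image κ)
    (fun a ha => Finset.mem_coe.2 (Finset.mem_image_of_mem κ ha))]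
  calc ∑ c ∈ P.image κ, (P.filter (fun x => κ x = c)).card
      ≤ ∑ c ∈ P.image κ, (Q.filter (fun y => κ' y = c)).card := by
        apply Finset.sum_le_sum
        intro c hc
        obtain ⟨a, ha, rfl⟩ := Finset.mem_image.1 hc
        exact h a ha
    _ = (Q.filter (fun y => κ' y ∈ P.image κ)).card := by
        rw [Finset.card_eq_sum_card_fiberwise (f := κ') (t := P.image κ)
          (s := Q.filter (fun y => κ' y ∈ P.image κ))
          (fun a ha => Finset.mem_coe.2 (Finset.mem_filter.1 ha).2)]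
        apply Finset.sum_congr rfl
        intro c hc
        rw [Finset.filter_filter]
        congr 1
        apply Finset.filter_congr
        intro y _
        exact ⟨fun e => ⟨e ▸ hc, e⟩, fun e => e.2⟩
    _ ≤ Q.card := Finset.card_filter_le _ _

lemma turan_count {α τ : Type} [DecidableEq α] [DecidableEq τ] (U : Finset α) (T : Finset τ)
    (f : α → τ) (hf : ∀ a ∈ U, f a ∈ T) (k : ℕ) :
    2 * k * U.card ≤ ((U ×ˢ U).filter (fun x => x.1 ≠ x.2 ∧ f x.1 = f x.2)).card +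
      T.card * (k * (k + 1)) := by
  rw [Finset.card_eq_sum_card_fiberwise (f := f) (s := U) (t := T) (fun a ha => hf a ha),
    Finset.card_eq_sum_card_fiberwise (f := fun x => f x.1) (t := T)
      (s := (U ×ˢ U).filter (fun x => x.1 ≠ x.2 ∧ f x.1 = f x.2))
      (fun a ha => hf _ (Finset.mem_product.1 (Finset.mem_filter.1 ha).1).1),
    Finset.mul_sum, Finset.card_eq_sum_ones T, Finset.sum_mul, ← Finset.sum_add_distrib]
  apply Finset.sum_le_sum
  intro t _
  have e : ((U ×ˢ U).filter (fun x => x.1 ≠ x.2 ∧ f x.1 = f x.2)).filter (fun x => f x.1 = t) =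
      (U.filter (fun a => f a = t)).offDiag := by
    ext ⟨a, b⟩
    simp only [Finset.mem_filter, Finset.mem_product, Finset.mem_offDiag]
    constructor
    · rintro ⟨⟨⟨h1, h2⟩, h3, h4⟩, h5⟩; exact ⟨⟨h1, h5⟩, ⟨h2, h4 ▸ h5⟩, h3⟩
    · rintro ⟨⟨h1, h5⟩, ⟨h2, h4⟩, h3⟩; exact ⟨⟨⟨h1, h2⟩, h3, h5.trans h4.symm⟩, h5⟩
  rw [e, Finset.offDiag_card]
  generalize (U.filter (fun a => f a = t)).card = N
  have h1 : N ≤ N * N := Nat.le_mul_self N
  zify [h1]
  by_cases h : (N : ℤ) ≤ k <;> nlinarith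

lemma orient {V : Type} {H : SimpleGraph V} (D : Drawing H) {a b : V} (h : H.Adj a b) :
    ∃ γ : ℝ → ℂ, ContinuousOn γ (Icc 0 1) ∧ InjOn γ (Icc 0 1) ∧ γ 0 = D.pos a ∧ γ 1 = D.pos b ∧
      ∀ t ∈ Ioo (0 : ℝ) 1, γ t ∈ D.arc s(a, b) '' Ioo 0 1 := by
  have he : s(a, b) ∈ H.edgeSet := h
  obtain ⟨u, v, e, h0, h1⟩ := D.ends _ he
  rcases Sym2.eq_iff.1 e with ⟨rfl, rfl⟩ | ⟨rfl, rfl⟩
  · exact ⟨D.arc s(a, b), D.cont _ he, D.inj _ he, h0, h1, fun t ht => ⟨t, ht, rfl⟩⟩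
  · have m : MapsTo (fun t : ℝ => 1 - t) (Icc 0 1) (Icc 0 1) := fun t ht =>
      ⟨by linarith [ht.2], by linarith [ht.1]⟩
    refine ⟨fun t => D.arc s(a, b) (1 - t), (D.cont _ he).comp (by fun_prop) m, ?_, by simpa using h1,
      by simpa using h0, fun t ht => ⟨1 - t, ⟨by linarith [ht.2], by linarith [ht.1]⟩, rfl⟩⟩
    intro s hs t ht e
    have := D.inj _ he (m hs) (m ht) e
    linarith

open Classical in
theorem plane_bound {n q : ℕ} (hn : 2 ≤ n) (H : SimpleGraph (Fin (n + 1) ⊕ Fin q)) (D : Drawing H)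
    (m : ℕ) (hm : D.crossings.encard = m) (k : ℕ) :
    k * ∑ w : Fin q, (Finset.univ.filter (fun c => H.Adj (.inr w) (.inl c))).card ≤
      m + (n - 1) * (k * (k + 1)) + 2 * k * q := by
  set N : Fin q → Finset (Fin (n + 1)) :=
    fun w => Finset.univ.filter (fun c => H.Adj (.inr w) (.inl c)) with hN
  have memN : ∀ w c, c ∈ N w ↔ H.Adj (.inr w) (.inl c) := by simp [hN]
  obtain ⟨X, S, Y, C⟩ := exists_chart hn (fun c => D.pos (.inl c))
    (fun a b h => Sum.inl_injective (D.pos_inj h))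
  have ex1 := fun (w : Fin q) (c : Fin (n + 1)) (h : c ∈ N w) => orient D ((memN w c).1 h)
  choose! γ γc γi γ0 γ1 γa using ex1
  have γv : ∀ w, ∀ c ∈ N w, ∀ t ∈ Ioo (0 : ℝ) 1, ∀ v, γ w c t ≠ D.pos v := by
    intro w c hc t ht v
    obtain ⟨s, hs, e⟩ := γa w c hc t ht
    rw [← e]; exact D.avoid _ ((memN w c).1 hc) s hs v
  have γU : ∀ w, ∀ c ∈ N w, ∀ t ∈ Ico (0 : ℝ) 1, ∀ c', γ w c t ≠ D.pos (.inl c') := by
    intro w c hc t ht c'
    rcases ht.1.lt_or_eq with l | l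
    · exact γv w c hc t ⟨l, ht.2⟩ _
    · rw [← l, γ0 w c hc]; intro e; simpa using D.pos_inj e
  let g : Fin q → GG := fun w => if 0 ≤ Y (D.pos (.inr w)) then 1 else rho hn 0
  have gW : ∀ w, g w ∈ WW hn := fun w => by
    simp only [g]; split_ifs; exacts [one_mem _, rho_mem hn 0]
  have gd : ∀ w, dt (g w) = sg Y (D.pos (.inr w)) := fun w => by
    simp only [g, sg]; split_ifs; exacts [dt_one, dt_rho hn 0]
  have ex2 : ∀ w, ∀ c ∈ N w, ∃ (G : ℝ → GG) (u : V2),
      Leg hn (fun c => D.pos (.inl c)) X S Y c (γ w c) G u ∧ γ w c 0 = D.pos (.inr w) ∧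
        G 0 = g w := by
    intro w c hc
    have c1 := (γc w c hc).mono Ico_subset_Icc_self
    have c2 : Tendsto (γ w c) (𝓝[Ico 0 1] 1) (𝓝 (D.pos (.inl c))) := by
      rw [← γ1 w c hc]
      exact (γc w c hc 1 (by simp)).mono Ico_subset_Icc_self
    obtain ⟨G, h0, hG⟩ := lift_exists hn C c1 (γU w c hc) (gW w) (by rw [γ0 w c hc]; exact gd w)
    obtain ⟨u, h1, h2⟩ := lift_end hn C (γU w c hc) c2 hG
    exact ⟨G, u, ⟨c1, γU w c hc, c2, hG, h1, h2⟩, γ0 w c hc, h0⟩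
  choose! G u L using ex2
  have un : ∀ w, ∀ c ∈ N w, u w c ≠ 0 := fun w c hc => (L w c hc).1.isEnd.ne hn
  have fin : ∀ w, (TT hn (u w) (N w)).Finite := fun w => TT_finite hn _ _ (un w)
  set U : Finset (Fin q × GG × Fin (n + 1)) :=
    Finset.univ.biUnion (fun w => (fin w).toFinset.image (fun x => (w, x))) with hU
  have memU : ∀ a, a ∈ U ↔ a.2 ∈ TT hn (u a.1) (N a.1) := by
    rintro ⟨w, x⟩; simp [hU]
  have cardU : ∑ w, (N w).card ≤ U.card + 2 * q := by
    rw [hU, Finset.card_biUnion]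
    · calc ∑ w, (N w).card ≤ ∑ w, (((fin w).toFinset.image (fun x => (w, x))).card + 2) := by
            apply Finset.sum_le_sum
            intro w _
            rw [Finset.card_image_of_injective _ (Prod.mk_right_injective w),
              ← Set.ncard_eq_toFinset_card _ (fin w)]
            exact TT_card hn _ _ (fun c hc => (L w c hc).1.isEnd)
        _ = _ := by rw [Finset.sum_add_distrib]; simp [mul_comm]
    · intro w _ w' _ hne
      simp only [Function.onFun, Finset.disjoint_left, Finset.mem_image]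
      rintro _ ⟨x, -, rfl⟩ ⟨y, -, e⟩
      exact hne (congrArg Prod.fst e).symm
  let τ : Fin q × GG × Fin (n + 1) → ℝ × Fin (n + 1) := fun a => (dt a.2.1, a.2.2)
  let T : Finset (ℝ × Fin (n + 1)) := ({1, -1} : Finset ℝ) ×ˢ Finset.Ioo 0 (Fin.last n)
  have cardT : T.card = 2 * (n - 1) := by
    rw [Finset.card_product, Finset.card_pair (by norm_num), Fin.card_Ioo]; simp
  have τT : ∀ a ∈ U, τ a ∈ T := by
    intro a ha
    obtain ⟨h1, e₁, -, e₀, -, e₂, -, l₁, -, l₂⟩ := (memU a).1 ha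
    refine Finset.mem_product.2 ⟨by simpa using dt_W hn h1, Finset.mem_Ioo.2 ⟨?_, ?_⟩⟩
    · exact lt_of_le_of_lt (Fin.zero_le _) l₁
    · exact lt_of_lt_of_le l₂ (Fin.le_last _)
  have tur := turan_count U T τ τT k
  set P := (U ×ˢ U).filter (fun x => x.1 ≠ x.2 ∧ τ x.1 = τ x.2) with hP
  let Xo : Set ((Fin q × Fin (n + 1)) × (Fin q × Fin (n + 1)) × ℝ × ℝ) :=
    {x | x.1.2 ∈ N x.1.1 ∧ x.2.1.2 ∈ N x.2.1.1 ∧ x.1 ≠ x.2.1 ∧ x.2.2.1 ∈ Ioo (0 : ℝ) 1 ∧
      x.2.2.2 ∈ Ioo (0 : ℝ) 1 ∧ γ x.1.1 x.1.2 x.2.2.1 = γ x.2.1.1 x.2.1.2 x.2.2.2}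
  let ed : Fin q × Fin (n + 1) → Sym2 (Fin (n + 1) ⊕ Fin q) := fun a => s(.inr a.1, .inl a.2)
  have edi : Function.Injective ed := by
    rintro ⟨a, b⟩ ⟨c, d⟩ e
    simpa [ed] using e
  have Xenc : Xo.encard ≤ (2 * m : ℕ) := by
    let φ : ((Fin q × Fin (n + 1)) × (Fin q × Fin (n + 1)) × ℝ × ℝ) →
        (Sym2 (Sym2 (Fin (n + 1) ⊕ Fin q)) × ℂ) × Prop :=
      fun x => ((s(ed x.1, ed x.2.1), γ x.1.1 x.1.2 x.2.2.1), toLex x.1 < toLex x.2.1)
    have maps : MapsTo φ Xo (D.crossings ×ˢ (univ : Set Prop)) := by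
      rintro ⟨a, b, s, t⟩ ⟨h1, h2, h3, h4, h5, h6⟩
      refine ⟨⟨ed a, (memN _ _).1 h1, ed b, (memN _ _).1 h2, fun e => h3 (edi e), rfl,
        γa _ _ h1 s h4, ?_⟩, trivial⟩
      simp only [φ] at h6 ⊢
      rw [h6]; exact γa _ _ h2 t h5
    have inj : InjOn φ Xo := by
      rintro ⟨a, b, s, t⟩ ⟨h1, h2, h3, h4, h5, h6⟩ ⟨a', b', s', t'⟩ ⟨k1, k2, k3, k4, k5, k6⟩ e
      simp only [φ, Prod.mk.injEq, Sym2.eq_iff, edi.eq_iff, eq_iff_iff] at e h1 h2 h3 h4 h5 h6 k1 k2 k3 k4 k5 k6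
      obtain ⟨⟨e1, e2⟩, e3⟩ := e
      rcases e1 with ⟨rfl, rfl⟩ | ⟨rfl, rfl⟩
      · have a1 := γi _ _ h1 (Ioo_subset_Icc_self h4) (Ioo_subset_Icc_self k4) e2
        have a2 := γi _ _ h2 (Ioo_subset_Icc_self h5) (Ioo_subset_Icc_self k5)
          (h6.symm.trans (e2.trans k6))
        rw [a1, a2]
      · exfalso
        rcases lt_trichotomy (toLex a) (toLex b) with l | l | l
        · exact lt_asymm l (e3.1 l)
        · exact h3 (toLex.injective l)
        · exact lt_asymm l (e3.2 l)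
    have := Set.encard_le_encard_of_injOn maps inj
    rw [Set.encard_prod, hm, Set.encard_univ] at this
    simpa [mul_comm] using this
  have Xfin : Xo.Finite := Set.finite_of_encard_le_coe Xenc
  have Xcard : Xfin.toFinset.card ≤ 2 * m := by
    rw [Xfin.encard_eq_coe_toFinset_card] at Xenc
    exact_mod_cast Xenc
  have PX : P.card ≤ Xfin.toFinset.card := by
    refine fiber_le P Xfin.toFinset (fun x => (x.1.1, x.2.1, x.1.2.1 * x.2.2.1⁻¹))
      (fun x => (x.1.1, x.2.1.1, G x.1.1 x.1.2 x.2.2.1 * (G x.2.1.1 x.2.1.2 x.2.2.2)⁻¹)) ?_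
    rintro ⟨⟨w, h₀, j₀⟩, ⟨w', h₀', j₀'⟩⟩ ha
    simp only
    set δ := h₀ * h₀'⁻¹ with hδ
    set Q := Xfin.toFinset.filter (fun x => (x.1.1, x.2.1.1,
      G x.1.1 x.1.2 x.2.2.1 * (G x.2.1.1 x.2.1.2 x.2.2.2)⁻¹) = (w, w', δ)) with hQ
    set Cs := Q.image (fun x => x.1.2) with hCs
    have CN : Cs ⊆ N w := by
      intro c hc
      obtain ⟨x, hx, rfl⟩ := Finset.mem_image.1 hc
      obtain ⟨h1, h2⟩ := Finset.mem_filter.1 hx
      have := ((Set.Finite.mem_toFinset _).1 h1).1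
      rwa [show x.1.1 = w from congrArg Prod.fst h2] at this
    have e0 : N w \ Cs ∪ Cs = N w := Finset.sdiff_union_of_subset CN
    have b1 := TT_diff hn (u w) (N w \ Cs) Cs (by rw [e0]; exact un w)
    rw [e0] at b1
    have b2 : (↑(P.filter (fun x => (x.1.1, x.2.1, x.1.2.1 * x.2.2.1⁻¹) = (w, w', δ))) :
        Set ((Fin q × GG × Fin (n + 1)) × Fin q × GG × Fin (n + 1))).encard ≤
        (TT hn (u w) (N w) \ TT hn (u w) (N w \ Cs)).encard := by
      refine Set.encard_le_encard_of_injOn (f := fun x => x.1.2) ?_ ?_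
      · rintro ⟨⟨v, h, j⟩, ⟨v', h', j'⟩⟩ hx
        simp only [hP, Finset.coe_filter, Finset.mem_filter, Finset.mem_product, memU, τ,
          Prod.mk.injEq, mem_ofPred_eq] at hx
        obtain ⟨⟨⟨m1, m2⟩, ne, dh, rfl⟩, rfl, rfl, e⟩ := hx
        refine ⟨m1, fun m3 => ?_⟩
        obtain ⟨c, hc, c', hc', s, hs, t, ht, k1, k2⟩ := cross hn C
          (fun c hc => L v c (Finset.mem_sdiff.1 hc).1) (fun c hc => L v' c hc) m3 m2 dh
        obtain ⟨hc1, hc2⟩ := Finset.mem_sdiff.1 hc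
        have triv : v = v' → G v c s = G v' c' t → False := by
          rintro rfl k
          rw [k, mul_inv_cancel] at k2
          exact ne (by rw [mul_inv_eq_one.1 k2.symm])
        have both : s = 0 → t = 0 → False := by
          rintro rfl rfl
          rw [γ0 _ _ hc1, γ0 _ _ hc'] at k1
          have := Sum.inr_injective (D.pos_inj k1)
          exact triv this (by rw [(L _ _ hc1).2.2, (L _ _ hc').2.2, this])
        have s0 : 0 < s := by
          rcases hs.1.lt_or_eq with l | l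
          · exact l
          · rcases ht.1.lt_or_eq with l' | l'
            · rw [← l, γ0 _ _ hc1] at k1
              exact absurd k1.symm (γv _ _ hc' t ⟨l', ht.2⟩ _)
            · exact (both l.symm l'.symm).elim
        have t0 : 0 < t := by
          rcases ht.1.lt_or_eq with l' | l'
          · exact l'
          · rw [← l', γ0 _ _ hc'] at k1
            exact absurd k1 (γv _ _ hc1 s ⟨s0, hs.2⟩ _)
        apply hc2
        refine Finset.mem_image.2 ⟨((v, c), (v', c'), s, t), Finset.mem_filter.2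
          ⟨(Set.Finite.mem_toFinset _).2 ⟨hc1, hc', ?_, ⟨s0, hs.2⟩, ⟨t0, ht.2⟩, k1⟩, ?_⟩, rfl⟩
        · intro e'
          obtain ⟨rfl, rfl⟩ := Prod.mk.inj e'
          have := γi _ _ hc1 (Ico_subset_Icc_self hs) (Ico_subset_Icc_self ht) k1
          exact triv rfl (by rw [this])
        · simp only [k2, e]
      · rintro ⟨⟨v, h, j⟩, ⟨v', h', j'⟩⟩ hx ⟨⟨v₂, h₂, j₂⟩, ⟨v₂', h₂', j₂'⟩⟩ hy e
        simp only [hP, Finset.coe_filter, Finset.mem_filter, Finset.mem_product, memU, τ,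
          Prod.mk.injEq, mem_ofPred_eq] at hx hy e
        obtain ⟨⟨-, -, -, rfl⟩, rfl, rfl, e1⟩ := hx
        obtain ⟨⟨-, -, -, rfl⟩, rfl, rfl, e2⟩ := hy
        obtain ⟨rfl, rfl⟩ := e
        have : h' = h₂' := by simpa using e1.trans e2.symm
        rw [this]
    rw [Set.encard_coe_eq_coe_finsetCard] at b2
    have b3 : Cs.card ≤ Q.card := Finset.card_image_le
    have b4 := b2.trans b1
    exact le_trans (by exact_mod_cast b4) b3
  rw [cardT] at tur
  have := Nat.mul_le_mul_left k cardU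
  nlinarith

end Pool.Agent.H167Z.BP
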