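import Mathlib

set_option autoImplicit false

namespace Pool.Agent.H167Z.BP

abbrev V2 := ℝ × ℝ
abbrev GG := V2 ≃ₗ[ℝ] V2

def om (u v : V2) : ℝ := u.1 * v.2 - u.2 * v.1

/-- cusp vectors -/
def qv (n i : ℕ) : V2 := if i = 0 then (-1, 0) else if i ≤ n then (i, 1) else (1, 0)

def al (n : ℕ) (j : Fin (n + 1)) : V2 := qv n j
def be (n : ℕ) (j : Fin (n + 1)) : V2 := qv n (j + 1)

lemma side_cases {n : ℕ} (hn : 2 ≤ n) (j : Fin (n + 1)) :
    ((j : ℕ) = 0 ∧ al n j = (-1, 0) ∧ be n j = (1, 1)) ∨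
    (1 ≤ (j : ℕ) ∧ (j : ℕ) + 1 ≤ n ∧ al n j = (((j : ℕ) : ℝ), 1) ∧ be n j = (((j : ℕ) : ℝ) + 1, 1)) ∨
    ((j : ℕ) = n ∧ al n j = ((n : ℝ), 1) ∧ be n j = (1, 0)) := by
  have := j.is_lt
  unfold al be qv
  by_cases h0 : (j : ℕ) = 0
  · left; simp [h0]; omega
  · by_cases h1 : (j : ℕ) = n
    · right; right; simp [h1]; omega
    · right; left
      refine ⟨by omega, by omega, ?_, ?_⟩
      · rw [if_neg h0, if_pos (by omega)]
      · rw [if_neg (by omega), if_pos (by omega)]; simp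

lemma om_al_be {n : ℕ} (hn : 2 ≤ n) (j : Fin (n + 1)) : om (al n j) (be n j) = -1 := by
  rcases side_cases hn j with ⟨-, h1, h2⟩ | ⟨-, -, h1, h2⟩ | ⟨-, h1, h2⟩ <;> simp [h1, h2, om]

/-- the reflection fixing `a` and negating `b` (when `om a b = -1`) -/
def rl (a b : V2) : V2 →ₗ[ℝ] V2 where
  toFun u := (-om u b * a.1 + om a u * b.1, -om u b * a.2 + om a u * b.2)
  map_add' u v := by ext <;> simp [om] <;> ring
  map_smul' c u := by ext <;> simp [om] <;> ring

lemma rl_inv (a b : V2) (h : om a b = -1) : Function.Involutive (rl a b) := by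
  intro u
  unfold om at h
  ext
  · simp only [rl, om, LinearMap.coe_mk, AddHom.coe_mk]
    linear_combination (a.1 * b.2 - a.2 * b.1 - 1) * u.1 * h
  · simp only [rl, om, LinearMap.coe_mk, AddHom.coe_mk]
    linear_combination (a.1 * b.2 - a.2 * b.1 - 1) * u.2 * h

variable {n : ℕ} (hn : 2 ≤ n)

/-- reflection in side `j` -/
def rho (j : Fin (n + 1)) : GG :=
  LinearEquiv.ofInvolutive (rl (al n j) (be n j)) (rl_inv _ _ (om_al_be hn j))

lemma rho_apply (j : Fin (n + 1)) (u : V2) : rho hn j u =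
    (-om u (be n j) * (al n j).1 + om (al n j) u * (be n j).1,
     -om u (be n j) * (al n j).2 + om (al n j) u * (be n j).2) := rfl

lemma rho_rho (j : Fin (n + 1)) (u : V2) : rho hn j (rho hn j u) = u :=
  rl_inv _ _ (om_al_be hn j) u

lemma rho_mul_self (j : Fin (n + 1)) : rho hn j * rho hn j = 1 := by
  ext1 u; exact rho_rho hn j u

lemma rho_inv (j : Fin (n + 1)) : (rho hn j)⁻¹ = rho hn j :=
  inv_eq_of_mul_eq_one_right (rho_mul_self hn j)

lemma mul_app (g h : GG) (u : V2) : (g * h) u = g (h u) := rfl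

lemma one_app (u : V2) : (1 : GG) u = u := rfl

lemma rho_al (j : Fin (n + 1)) : rho hn j (al n j) = al n j := by
  have h := om_al_be hn j
  rw [rho_apply, h]; ext <;> simp [om] <;> left <;> ring

lemma rho_be (j : Fin (n + 1)) : rho hn j (be n j) = -be n j := by
  have h := om_al_be hn j
  rw [rho_apply, h]; ext <;> simp [om] <;> left <;> ring

lemma om_rho_al (j : Fin (n + 1)) (u : V2) : om (rho hn j u) (al n j) = -om u (al n j) := by
  have h := om_al_be hn j
  rw [rho_apply]; unfold om at *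
  linear_combination (-((al n j).1 * u.2 - (al n j).2 * u.1)) * h

lemma om_rho_be (j : Fin (n + 1)) (u : V2) : om (rho hn j u) (be n j) = om u (be n j) := by
  have h := om_al_be hn j
  rw [rho_apply]; unfold om at *
  linear_combination (-(u.1 * (be n j).2 - u.2 * (be n j).1)) * h

/-- determinant -/
def dt (g : GG) : ℝ := om (g (1, 0)) (g (0, 1))

lemma lin_app (g : GG) (u : V2) : g u = (u.1 * (g (1, 0)).1 + u.2 * (g (0, 1)).1,
    u.1 * (g (1, 0)).2 + u.2 * (g (0, 1)).2) := by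
  have : u = u.1 • ((1, 0) : V2) + u.2 • ((0, 1) : V2) := by ext <;> simp
  conv_lhs => rw [this, map_add, map_smul, map_smul]
  ext <;> simp

lemma om_map (g : GG) (u v : V2) : om (g u) (g v) = dt g * om u v := by
  rw [lin_app g u, lin_app g v]; unfold dt om; ring

lemma dt_mul (g h : GG) : dt (g * h) = dt g * dt h := by
  unfold dt; rw [mul_app, mul_app, om_map]; rfl

lemma dt_one : dt 1 = 1 := by simp [dt, om, one_app]

lemma dt_rho (j : Fin (n + 1)) : dt (rho hn j) = -1 := by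
  have h := om_map (rho hn j) (al n j) (be n j)
  rw [rho_al, rho_be] at h
  have h2 := om_al_be hn j
  have : om (al n j) (-be n j) = -om (al n j) (be n j) := by simp [om]; ring
  rw [this, h2] at h; linarith

lemma dt_ne (g : GG) : dt g ≠ 0 := by
  intro h
  have := dt_mul g g⁻¹
  rw [mul_inv_cancel, dt_one, h] at this
  simp at this

/-- the reflection group -/
def WW : Subgroup GG := Subgroup.closure (Set.range (rho hn))

def pr (l : List (Fin (n + 1))) : GG := (l.map (rho hn)).prod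

lemma pr_nil : pr hn [] = 1 := rfl
lemma pr_cons (j : Fin (n + 1)) (l : List (Fin (n + 1))) : pr hn (j :: l) = rho hn j * pr hn l := by
  simp [pr]

lemma rho_mem (j : Fin (n + 1)) : rho hn j ∈ WW hn := Subgroup.subset_closure ⟨j, rfl⟩

lemma exists_red {g : GG} (hg : g ∈ WW hn) :
    ∃ l : List (Fin (n + 1)), l.IsChain (· ≠ ·) ∧ g = pr hn l := by
  have step : ∀ (j : Fin (n + 1)) (l : List (Fin (n + 1))), l.IsChain (· ≠ ·) →
      ∃ l' : List (Fin (n + 1)), l'.IsChain (· ≠ ·) ∧ rho hn j * pr hn l = pr hn l' := by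
    intro j l hl
    cases l with
    | nil => exact ⟨[j], by simp, by simp [pr]⟩
    | cons k l =>
      by_cases h : j = k
      · subst h
        exact ⟨l, hl.tail, by rw [pr_cons, ← mul_assoc, rho_mul_self, one_mul]⟩
      · exact ⟨j :: k :: l, List.IsChain.cons_cons h hl, by rw [pr_cons hn j]⟩
  induction hg using Subgroup.closure_induction_left with
  | one => exact ⟨[], by simp, rfl⟩
  | mul_left x hx y hy ih =>
    obtain ⟨j, rfl⟩ := hx
    obtain ⟨l, hl, rfl⟩ := ih
    exact step j l hl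
  | inv_mul_cancel x hx y hy ih =>
    obtain ⟨j, rfl⟩ := hx
    obtain ⟨l, hl, rfl⟩ := ih
    rw [rho_inv]
    exact step j l hl

lemma dt_W {g : GG} (hg : g ∈ WW hn) : dt g = 1 ∨ dt g = -1 := by
  obtain ⟨l, -, rfl⟩ := exists_red hn hg
  induction l with
  | nil => left; exact dt_one
  | cons j l ih =>
    rw [pr_cons, dt_mul, dt_rho]
    have : pr hn l ∈ WW hn := by
      clear ih hg
      induction l with
      | nil => exact one_mem _
      | cons k l ih => rw [pr_cons]; exact mul_mem (rho_mem hn k) ih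
    rcases ih this with h | h <;> rw [h] <;> simp

lemma dt_inv_W {g : GG} (hg : g ∈ WW hn) : dt g⁻¹ = dt g := by
  have := dt_mul g g⁻¹
  rw [mul_inv_cancel, dt_one] at this
  rcases dt_W hn hg with h | h <;> rw [h] at this ⊢ <;> linarith

/-! ### forms -/

/-- the positive form attached to a point of the upper half plane -/
def FF (x s : ℝ) (u v : V2) : ℝ := (u.1 - x * u.2) * (v.1 - x * v.2) + s * u.2 * v.2

def Cf (g : GG) (x s : ℝ) : ℝ := FF x s (g (1, 0)) (g (1, 0))
noncomputable def muf (g : GG) (x s : ℝ) : ℝ := -FF x s (g (1, 0)) (g (0, 1)) / Cf g x s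
noncomputable def sgf (g : GG) (x s : ℝ) : ℝ := dt g ^ 2 * s / Cf g x s ^ 2

lemma FF_pos {x s : ℝ} (hs : 0 < s) {u : V2} (hu : u ≠ 0) : 0 < FF x s u u := by
  unfold FF
  by_cases h : u.2 = 0
  · have : u.1 ≠ 0 := fun h1 => hu (Prod.ext h1 h)
    rw [h]; simp only [mul_zero, sub_zero, add_zero]; exact mul_self_pos.2 this
  · have := mul_self_pos.2 h
    nlinarith [mul_self_nonneg (u.1 - x * u.2), mul_pos hs this]

lemma Cf_pos (g : GG) {x s : ℝ} (hs : 0 < s) : 0 < Cf g x s :=
  FF_pos hs (by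
    intro h
    have := g.injective (h.trans (map_zero g).symm)
    simp at this)

lemma sgf_pos (g : GG) {x s : ℝ} (hs : 0 < s) : 0 < sgf g x s := by
  have := Cf_pos g (x := x) hs
  have := dt_ne g
  unfold sgf; positivity

lemma shape (g : GG) {x s : ℝ} (hs : 0 < s) (u v : V2) :
    FF x s (g u) (g v) = Cf g x s * FF (muf g x s) (sgf g x s) u v := by
  have hC := (Cf_pos g (x := x) hs).ne'
  rw [lin_app g u, lin_app g v]
  unfold muf sgf
  generalize hCC : Cf g x s = C at *
  unfold Cf at hCC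
  unfold dt om
  unfold FF at *
  generalize (g (1, 0)).1 = a at *
  generalize (g (1, 0)).2 = c at *
  generalize (g (0, 1)).1 = b at *
  generalize (g (0, 1)).2 = d at *
  field_simp
  subst hCC
  ring

include hn in
lemma two_sides {x s : ℝ} (hs : 0 < s) {j k : Fin (n + 1)} (hjk : j ≠ k)
    (h : FF x s (al n j) (be n j) ≤ 0) : 0 < FF x s (al n k) (be n k) := by
  have hne : (j : ℕ) ≠ k := fun e => hjk (Fin.ext e)
  have hn' : (2 : ℝ) ≤ n := by exact_mod_cast hn
  rcases side_cases hn j with ⟨j0, h1, h2⟩ | ⟨j1, j2, h1, h2⟩ | ⟨j0, h1, h2⟩ <;>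
  rcases side_cases hn k with ⟨k0, h3, h4⟩ | ⟨k1, k2, h3, h4⟩ | ⟨k0, h3, h4⟩ <;>
  simp only [h1, h2, h3, h4, FF] at h ⊢
  · omega
  · have : (1 : ℝ) ≤ (k : ℕ) := by exact_mod_cast k1
    nlinarith
  · nlinarith
  · have : (1 : ℝ) ≤ (j : ℕ) := by exact_mod_cast j1
    by_contra hc; nlinarith
  · rcases lt_or_gt_of_ne hne with hlt | hlt
    · have : ((j : ℕ) : ℝ) + 1 ≤ (k : ℕ) := by exact_mod_cast hlt
      have : x < (j : ℕ) + 1 := by by_contra hc; nlinarith
      nlinarith
    · have : ((k : ℕ) : ℝ) + 1 ≤ (j : ℕ) := by exact_mod_cast hlt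
      have : ((j : ℕ) : ℝ) < x := by by_contra hc; nlinarith
      nlinarith
  · have : ((j : ℕ) : ℝ) + 1 ≤ n := by exact_mod_cast j2
    by_contra hc; nlinarith
  · nlinarith
  · have : ((k : ℕ) : ℝ) + 1 ≤ n := by exact_mod_cast k2
    nlinarith
  · omega

/-- point of the fundamental polygon -/
def InP (n : ℕ) (x s : ℝ) : Prop := 0 < s ∧ ∀ j : Fin (n + 1), 0 ≤ FF x s (al n j) (be n j)

lemma FF_neg_right (x s : ℝ) (u v : V2) : FF x s u (-v) = -FF x s u v := by
  simp [FF]; ring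

lemma pingpong {x s : ℝ} (hP : InP n x s) (l : List (Fin (n + 1))) (j : Fin (n + 1))
    (hl : (j :: l).IsChain (· ≠ ·)) :
    FF x s ((pr hn (j :: l))⁻¹ (al n j)) ((pr hn (j :: l))⁻¹ (be n j)) ≤ 0 ∧
    (l ≠ [] → FF x s ((pr hn (j :: l))⁻¹ (al n j)) ((pr hn (j :: l))⁻¹ (be n j)) < 0) := by
  induction l generalizing j with
  | nil =>
    rw [pr_cons, pr_nil, mul_one, rho_inv, rho_al, rho_be, FF_neg_right]
    exact ⟨by linarith [hP.2 j], fun h => absurd rfl h⟩
  | cons k l ih =>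
    have h1 := (ih k hl.tail).1
    have hjk : j ≠ k := (List.isChain_cons_cons.1 hl).1
    have hC := Cf_pos (pr hn (k :: l))⁻¹ (x := x) hP.1
    rw [shape _ hP.1] at h1
    have h2 := two_sides hn (sgf_pos (pr hn (k :: l))⁻¹ (x := x) hP.1) hjk.symm
      (by by_contra hc; push Not at hc; exact absurd (mul_pos hC hc) (not_lt.2 h1))
    have h3 : FF x s ((pr hn (j :: k :: l))⁻¹ (al n j)) ((pr hn (j :: k :: l))⁻¹ (be n j)) < 0 := by
      rw [pr_cons hn j, mul_inv_rev, rho_inv, mul_app, mul_app, rho_al, rho_be, map_neg,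
        FF_neg_right, shape _ hP.1]
      have := mul_pos hC h2
      linarith
    exact ⟨h3.le, fun _ => h3⟩

lemma FF_rho {x s : ℝ} (j : Fin (n + 1)) (h : FF x s (al n j) (be n j) = 0) (u v : V2) :
    FF x s (rho hn j u) (rho hn j v) = FF x s u v := by
  have h1 := om_al_be hn j
  rw [rho_apply, rho_apply]
  unfold FF om at *
  generalize (al n j).1 = a1 at *
  generalize (al n j).2 = a2 at *
  generalize (be n j).1 = b1 at *
  generalize (be n j).2 = b2 at *
  have hu1 : u.1 = -(u.1 * b2 - u.2 * b1) * a1 - (a1 * u.2 - a2 * u.1) * b1 := by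
    linear_combination u.1 * h1
  have hu2 : u.2 = -(u.1 * b2 - u.2 * b1) * a2 - (a1 * u.2 - a2 * u.1) * b2 := by
    linear_combination u.2 * h1
  have hv1 : v.1 = -(v.1 * b2 - v.2 * b1) * a1 - (a1 * v.2 - a2 * v.1) * b1 := by
    linear_combination v.1 * h1
  have hv2 : v.2 = -(v.1 * b2 - v.2 * b1) * a2 - (a1 * v.2 - a2 * v.1) * b2 := by
    linear_combination v.2 * h1
  generalize u.1 * b2 - u.2 * b1 = p at *
  generalize a1 * u.2 - a2 * u.1 = q at *
  generalize v.1 * b2 - v.2 * b1 = p' at *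
  generalize a1 * v.2 - a2 * v.1 = q' at *
  rw [hu1, hu2, hv1, hv2]
  linear_combination (-2 * (p * q' + q * p')) * h

lemma FF_ext {x s x' s' κ : ℝ} (h : ∀ u v, FF x s u v = κ * FF x' s' u v) : x = x' ∧ s = s' := by
  have h1 := h (1, 0) (1, 0)
  have h2 := h (1, 0) (0, 1)
  have h3 := h (0, 1) (0, 1)
  simp [FF] at h1 h2 h3
  subst h1
  have : x = x' := by linarith
  subst this
  exact ⟨rfl, by linarith⟩

/-- the translates of the fundamental polygon only meet along sides -/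
lemma tile_inj {g : GG} (hg : g ∈ WW hn) {x s x' s' κ : ℝ} (hP : InP n x s) (hP' : InP n x' s')
    (hκ : 0 < κ) (h : ∀ u v, FF x s (g⁻¹ u) (g⁻¹ v) = κ * FF x' s' u v) :
    x = x' ∧ s = s' ∧ (g = 1 ∨ ∃ j, g = rho hn j ∧ FF x s (al n j) (be n j) = 0) := by
  obtain ⟨l, hl, rfl⟩ := exists_red hn hg
  cases l with
  | nil =>
    have := FF_ext (x := x) (s := s) (x' := x') (s' := s') (κ := κ) (fun u v => h u v)
    exact ⟨this.1, this.2, Or.inl rfl⟩
  | cons j l =>
    have h1 := pingpong hn hP l j hl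
    rw [h] at h1
    have h2 := mul_nonneg hκ.le (hP'.2 j)
    have h3 : l = [] := by
      by_contra hc; exact absurd (h1.2 hc) (not_lt.2 h2)
    subst h3
    have h4 : FF x s (al n j) (be n j) = 0 := by
      have := h (al n j) (be n j)
      rw [pr_cons, pr_nil, mul_one, rho_inv, rho_al, rho_be, FF_neg_right] at this
      linarith [hP.2 j]
    have h5 := FF_ext (x := x) (s := s) (x' := x') (s' := s') (κ := κ) (fun u v => by
      rw [← h, pr_cons, pr_nil, mul_one, rho_inv, FF_rho hn j h4])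
    exact ⟨h5.1, h5.2, Or.inr ⟨j, by rw [pr_cons, pr_nil, mul_one], h4⟩⟩

end Pool.Agent.H167Z.BP
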