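import Pool.Agent.H167Z.BP.Final
import Pool.Agent.H167Z.BP.Defs2

set_option autoImplicit false

namespace Pool.Agent.H167Z.BP

open Set Filter Topology

lemma plane7 (q : ℕ) (h : Fin q → Bool) (j : Fin q → Fin 5) (Q : Fin q → Bool)
    (hi : ∀ w w', h w = h w' → j w = j w' → Q w = Q w' → (w : ℕ) % 20 = w' % 20) :
    cr (bip (fun w c => Leaf (fun i : Fin 5 => i + 1) (h w) (j w) (Q w = true) (kap 5 c))) ≤
      ((∑ w : Fin q, (if Q w then 2 else 1) * ((w : ℕ) / 20 + (q / 20 + 1)) : ℕ) : ℕ∞) := by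
  classical
  have s5 := Real.sq_sqrt (show (0 : ℝ) ≤ 5 by norm_num)
  have s0 : 1 < √5 := Real.lt_sqrt_of_sq_lt (by norm_num)
  refine (level_le (kap 5) h j (fun w => Q w = true) (fun w => w / 20)
    (fan5 (α := (√5 - 1) / 2) (by linarith) (by nlinarith)) ?_).trans ?_
  · intro w w' e1 e2 e e3
    have := hi w w' e1 e2 (Bool.eq_iff_iff.2 e)
    apply Fin.ext; omega
  refine Nat.cast_le.2 (Finset.sum_le_sum fun w' _ => ?_)
  have lt : ∀ w : Fin q, (w : ℕ) / 20 < q / 20 + 1 := fun w => by have := w.2; omega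
  by_cases hq : Q w' = true
  · rw [if_pos hq]
    have c4 : ∀ {_ : DecidablePred fun w => h w = h w' ∧ j w' = j w + 1 ∧ Q w' = true},
        (Finset.univ.filter (fun w => h w = h w' ∧ j w' = j w + 1 ∧ Q w' = true)).card ≤
        (q / 20 + 1) + (q / 20 + 1) := by
      intro _
      rw [← Finset.card_filter_add_card_filter_not (fun w => Q w = true), Finset.filter_filter,
        Finset.filter_filter]
      refine add_le_add (fib_le 20 _ _ (fun w _ => lt w) ?_) (fib_le 20 _ _ (fun w _ => lt w) ?_)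
      · exact fun w v k k' => hi w v (k.1.1.trans k'.1.1.symm)
          (add_right_cancel (k.1.2.1.symm.trans k'.1.2.1)) (k.2.trans k'.2.symm)
      · exact fun w v k k' => hi w v (k.1.1.trans k'.1.1.symm)
          (add_right_cancel (k.1.2.1.symm.trans k'.1.2.1))
          (Bool.eq_iff_iff.2 (iff_of_false k.2 k'.2))
    refine le_trans (add_le_add (add_le_add (add_le_add (fib_le 20 0 _ ?_ ?_)
      (fib_le 20 (w' / 20) _ ?_ ?_)) (fib_le 20 (w' / 20) _ ?_ ?_)) c4) (by omega)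
    · exact fun w k => (k.2.2.2 hq).elim
    · exact fun w _ k => (k.2.2.2 hq).elim
    · exact fun w k => k.2.2.2
    · exact fun w v k k' => hi w v (k.1.trans k'.1.symm) (k.2.1.trans k'.2.1.symm)
        (Bool.eq_iff_iff.2 (k.2.2.1.trans k'.2.2.1.symm))
    · exact fun w k => k.2.2.2.2
    · exact fun w v k k' => hi w v (k.1.trans k'.1.symm) (k.2.1.trans k'.2.1.symm)
        (k.2.2.1.trans k'.2.2.1.symm)
  · rw [if_neg hq]
    refine le_trans (add_le_add (add_le_add (add_le_add (fib_le 20 (q / 20 + 1) _ ?_ ?_)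
      (fib_le 20 (w' / 20) _ ?_ ?_)) (fib_le 20 0 _ ?_ ?_)) (fib_le 20 0 _ ?_ ?_)) (by omega)
    · exact fun w _ => lt w
    · exact fun w v k k' => hi w v (k.1.trans k'.1.symm) (k.2.1.trans k'.2.1.symm)
        (k.2.2.1.trans k'.2.2.1.symm)
    · exact fun w k => k.2.2.2
    · exact fun w v k k' => hi w v (k.1.trans k'.1.symm) (k.2.1.trans k'.2.1.symm)
        (Bool.eq_iff_iff.2 (k.2.2.1.trans k'.2.2.1.symm))
    · exact fun w k => (hq k.2.2.2.1).elim
    · exact fun w _ k => (hq k.2.2.2.1).elim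
    · exact fun w k => (hq k.2.2).elim
    · exact fun w _ k => (hq k.2.2).elim

theorem upper7 (q : ℕ) : ∃ m : ℕ, cr2 (completeBipartiteGraph (Fin 7) (Fin q)) ≤ m ∧
    40 * m ≤ 9 * q ^ 2 + 120 * q := by
  let Q : Fin q → Bool := fun w => decide ((w : ℕ) % 20 < 10)
  let h : Fin q → Bool := fun w => decide ((w : ℕ) % 10 < 5)
  let j : Fin q → Fin 5 := fun w => ⟨w % 5, Nat.mod_lt _ (by norm_num)⟩
  have hi : ∀ w w', h w = h w' → j w = j w' → Q w = Q w' → (w : ℕ) % 20 = w' % 20 := by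
    intro w w' e1 e2 e3
    simp only [h, j, Q, decide_eq_decide, Fin.mk.injEq] at e1 e2 e3
    omega
  refine ⟨_, cr2_le (bip_sup _ _ ?_) (plane7 q h j Q hi)
    (plane7 q (fun w => !h w) (fun w => j w + if Q w then 2 else 3) (fun w => !Q w)
      (fun w w' e1 e2 e3 => hi w w' (Bool.not_inj e1) ?_ (Bool.not_inj e3))) le_rfl, ?_⟩
  · intro w c
    generalize kap 5 c = x
    generalize h w = a
    generalize j w = b
    generalize Q w = d
    simp only [Leaf]
    revert x a b d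
    decide
  · rw [Bool.not_inj e3] at e2
    exact add_right_cancel e2
  · rw [← Finset.sum_add_distrib]
    have e : ∀ w : Fin q, (if Q w then 2 else 1) * ((w : ℕ) / 20 + (q / 20 + 1)) +
        (if (!Q w) then 2 else 1) * ((w : ℕ) / 20 + (q / 20 + 1)) =
        3 * ((w : ℕ) / 20) + 3 * (q / 20 + 1) := fun w => by
      cases Q w <;> simp <;> ring
    rw [Finset.sum_congr rfl (fun w _ => e w), Finset.sum_add_distrib, ← Finset.mul_sum]
    have := sum_div 20 q
    have h := Nat.div_mul_le_self q 20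
    simp only [Finset.sum_const, Finset.card_univ, Fintype.card_fin, smul_eq_mul]
    generalize q / 20 = k at *
    obtain ⟨r, rfl⟩ : ∃ r, q = 20 * k + r := ⟨q - 20 * k, by omega⟩
    nlinarith

lemma tendsto_of_bounds (f : ℕ → ℕ∞) (c C : ℝ)
    (h : ∀ q : ℕ, ∃ a b : ℕ, (a : ℕ∞) ≤ f q ∧ f q ≤ b ∧ c * q ^ 2 - C * q ≤ a ∧
      (b : ℝ) ≤ c * q ^ 2 + C * q) :
    Tendsto (fun q : ℕ => ((f q).toNat : ℝ) / (q : ℝ) ^ 2) atTop (𝓝 c) := by
  have t : Tendsto (fun q : ℕ => C / (q : ℝ)) atTop (𝓝 0) := tendsto_const_div_atTop_nhds_zero_nat C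
  have t1 := t.const_sub c
  have t2 := t.const_add c
  rw [sub_zero] at t1
  rw [add_zero] at t2
  refine tendsto_of_tendsto_of_tendsto_of_le_of_le' t1 t2 ?_ ?_ <;>
    filter_upwards [eventually_gt_atTop 0] with q hq <;>
    obtain ⟨a, b, h1, h2, h3, h4⟩ := h q <;>
    obtain ⟨m, hm⟩ := ENat.ne_top_iff_exists.1 (ne_top_of_le_ne_top (ENat.natCast_ne_top b) h2) <;>
    rw [← hm] at h1 h2 ⊢ <;> rw [ENat.toNat_natCast] <;>
    have q0 : (0 : ℝ) < q := by exact_mod_cast hq
  · have : (a : ℝ) ≤ m := by exact_mod_cast h1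
    rw [le_div_iff₀ (by positivity)]
    calc (c - C / q) * (q : ℝ) ^ 2 = c * q ^ 2 - C * q := by field_simp
      _ ≤ (m : ℝ) := by linarith
  · have : (m : ℝ) ≤ b := by exact_mod_cast h2
    rw [div_le_iff₀ (by positivity)]
    calc (m : ℝ) ≤ c * q ^ 2 + C * q := by linarith
      _ = (c + C / q) * q ^ 2 := by field_simp

theorem asym7 : Tendsto (fun q : ℕ =>
    ((cr2 (completeBipartiteGraph (Fin 7) (Fin q))).toNat : ℝ) / (q : ℝ) ^ 2) atTop (𝓝 (9 / 40)) := by
  refine tendsto_of_bounds _ _ 3 fun q => ?_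
  obtain ⟨m, h1, h2⟩ := upper7 q
  have d := Nat.div_add_mod (3 * q) 20
  have d' := Nat.mod_lt (3 * q) (show 0 < 20 by norm_num)
  generalize 3 * q / 20 = k at *
  generalize 3 * q % 20 = r at *
  refine ⟨k * (10 * k + r - 10), m, cr2_lower (n := 6) (by norm_num) k _ ?_, h1, ?_, ?_⟩
  · rcases Nat.eq_zero_or_pos k with rfl | hk
    · simp
    obtain ⟨s, hs⟩ : ∃ s, 10 * k + r = s + 10 := ⟨10 * k + r - 10, by omega⟩
    rw [hs, Nat.add_sub_cancel]
    norm_num; nlinarith
  · have e : (20 : ℝ) * k + r = 3 * q := by exact_mod_cast d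
    have e' : (r : ℝ) < 20 := by exact_mod_cast d'
    have r0 : (0 : ℝ) ≤ r := Nat.cast_nonneg r
    have k0 : (0 : ℝ) ≤ k := Nat.cast_nonneg k
    have : (10 : ℝ) * k + r - 10 ≤ ((10 * k + r - 10 : ℕ) : ℝ) := by
      have : 10 * k + r ≤ (10 * k + r - 10) + 10 := by omega
      have : ((10 * k + r : ℕ) : ℝ) ≤ ((10 * k + r - 10) + 10 : ℕ) := by exact_mod_cast this
      push_cast at this ⊢; linarith
    push_cast
    nlinarith
  · have : (40 : ℝ) * m ≤ 9 * q ^ 2 + 120 * q := by exact_mod_cast h2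
    linarith

theorem asym6 : Tendsto (fun q : ℕ =>
    ((cr2 (completeBipartiteGraph (Fin 6) (Fin q))).toNat : ℝ) / (q : ℝ) ^ 2) atTop (𝓝 (1 / 8)) := by
  refine tendsto_of_bounds _ _ 3 fun q => ⟨_, _, lower6 q, upper6 q, ?_⟩
  have d := Nat.div_add_mod q 8
  have d' := Nat.mod_lt q (show 0 < 8 by norm_num)
  generalize q / 8 = k at *
  generalize q % 8 = r at *
  subst d
  have e' : (r : ℝ) < 8 := by exact_mod_cast d'
  have r0 : (0 : ℝ) ≤ r := Nat.cast_nonneg r
  rcases k with _ | k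
  · constructor <;> simp <;> nlinarith
  have k0 : (0 : ℝ) ≤ k := Nat.cast_nonneg k
  rw [show 8 * (k + 1) + r - 4 * (k + 1) - 4 = 4 * k + r by omega]
  constructor <;> push_cast <;> nlinarith

theorem asym8 : Tendsto (fun q : ℕ =>
    ((cr2 (completeBipartiteGraph (Fin 8) (Fin q))).toNat : ℝ) / (q : ℝ) ^ 2) atTop (𝓝 (1 / 3)) := by
  refine tendsto_of_bounds _ _ 3 fun q => ⟨_, _, lower8 q, upper8 q, ?_⟩
  have d := Nat.div_add_mod q 6
  have d' := Nat.mod_lt q (show 0 < 6 by norm_num)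
  generalize q / 6 = k at *
  generalize q % 6 = r at *
  subst d
  have e' : (r : ℝ) < 6 := by exact_mod_cast d'
  have r0 : (0 : ℝ) ≤ r := Nat.cast_nonneg r
  rcases k with _ | k
  · constructor <;> simp <;> nlinarith
  have k0 : (0 : ℝ) ≤ k := Nat.cast_nonneg k
  rw [show 6 * (k + 1) + r - 3 * (k + 1) - 3 = 3 * k + r by omega]
  constructor <;> push_cast <;> nlinarith

lemma cr_mono {V : Type} {G H : SimpleGraph V} (h : H ≤ G) : cr H ≤ cr G := by
  refine le_iInf fun D => ?_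
  have s := SimpleGraph.edgeSet_mono h
  refine (iInf_le _ ⟨D.pos, D.arc, D.pos_inj, fun e he => D.cont e (s he),
    fun e he => D.inj e (s he), fun e he => D.ends e (s he), fun e he => D.avoid e (s he)⟩).trans
    (Set.encard_le_encard ?_)
  rintro x ⟨e, he, f, hf, k⟩
  exact ⟨e, s he, f, s hf, k⟩

theorem cr2p_eq {V : Type} (G : SimpleGraph V) : cr2p G = cr2 G := by
  apply le_antisymm
  · refine le_iInf fun G₁ => le_iInf fun G₂ => le_iInf fun h => ?_
    exact (iInf_le_of_le G₁ (iInf_le_of_le (G₂ \ G₁) (iInf_le _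
      ⟨by rw [sup_sdiff_self_right, h], disjoint_sdiff_self_right⟩))).trans
      (add_le_add le_rfl (cr_mono sdiff_le))
  · exact le_iInf fun G₁ => le_iInf fun G₂ => le_iInf fun h =>
      iInf_le_of_le G₁ (iInf_le_of_le G₂ (iInf_le _ h.1))

end Pool.Agent.H167Z.BP
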