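import Pool.Agent.H167Z.BP.Defs

set_option autoImplicit false

namespace Pool.Agent.H167Z.BP

open Set

abbrev V3 := ℝ × ℝ × ℝ

/-- The complement of the ray through `(1, 1, 0)`. -/
def UU : Set V3 := {v | ¬ (v.1 = v.2.1 ∧ v.2.2 = 0 ∧ 0 ≤ v.1)}

noncomputable def den (v : V3) : ℝ :=
  √((v.1 - v.2.1) ^ 2 + v.2.2 ^ 2 + (v.1 + v.2.1) ^ 2) - (v.1 + v.2.1)

noncomputable def Phi (v : V3) : ℂ :=
  (((v.1 - v.2.1) / den v : ℝ) : ℂ) + ((v.2.2 / den v : ℝ) : ℂ) * Complex.I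

lemma den_pos {v : V3} (h : v ∈ UU) : 0 < den v := by
  obtain ⟨x, y, z⟩ := v
  simp only [UU, mem_ofPred_eq, den] at h ⊢
  rw [sub_pos]
  by_cases h1 : x = y ∧ z = 0
  · have : x < 0 := by
      by_contra h2; exact h ⟨h1.1, h1.2, not_lt.1 h2⟩
    exact lt_of_lt_of_le (by linarith [h1.1]) (Real.sqrt_nonneg _)
  · apply Real.lt_sqrt_of_sq_lt
    rcases not_and_or.1 h1 with h2 | h2
    · have := sq_pos_of_ne_zero (sub_ne_zero.2 h2); nlinarith [sq_nonneg z]
    · have := sq_pos_of_ne_zero h2; nlinarith [sq_nonneg (x - y)]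

lemma Phi_cont : ContinuousOn Phi UU := by
  have hd : Continuous den := by unfold den; fun_prop
  unfold Phi
  refine ContinuousOn.add (Complex.continuous_ofReal.comp_continuousOn ?_)
    (ContinuousOn.mul (Complex.continuous_ofReal.comp_continuousOn ?_) continuousOn_const)
  · exact ContinuousOn.div (by fun_prop) hd.continuousOn (fun v hv => (den_pos hv).ne')
  · exact ContinuousOn.div (by fun_prop) hd.continuousOn (fun v hv => (den_pos hv).ne')

lemma Phi_smul (v : V3) {l : ℝ} (hl : 0 < l) : Phi (l • v) = Phi v := by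
  obtain ⟨x, y, z⟩ := v
  have : den (l • (x, y, z)) = l * den (x, y, z) := by
    simp only [den, Prod.smul_mk, smul_eq_mul]
    rw [show (l * x - l * y) ^ 2 + (l * z) ^ 2 + (l * x + l * y) ^ 2 =
      l ^ 2 * ((x - y) ^ 2 + z ^ 2 + (x + y) ^ 2) by ring, Real.sqrt_mul (sq_nonneg l),
      Real.sqrt_sq hl.le]
    ring
  unfold Phi
  rw [this]
  simp only [Prod.smul_mk, smul_eq_mul]
  rw [← mul_sub, mul_div_mul_left _ _ hl.ne', mul_div_mul_left _ _ hl.ne']

lemma Phi_inj {v w : V3} (hv : v ∈ UU) (hw : w ∈ UU) (h : Phi v = Phi w) :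
    ∃ l : ℝ, 0 < l ∧ w = l • v := by
  have d1 := den_pos hv
  have d2 := den_pos hw
  have key : ∀ u : V3, (u.1 - u.2.1) ^ 2 + u.2.2 ^ 2 = den u * (den u + 2 * (u.1 + u.2.1)) := by
    intro u
    have := Real.sq_sqrt (show 0 ≤ (u.1 - u.2.1) ^ 2 + u.2.2 ^ 2 + (u.1 + u.2.1) ^ 2 by positivity)
    unfold den; nlinarith
  have k1 := key v
  have k2 := key w
  have r := congrArg Complex.re h
  have i := congrArg Complex.im h
  simp only [Phi, Complex.add_re, Complex.ofReal_re, Complex.mul_re, Complex.I_re, mul_zero,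
    Complex.ofReal_im, Complex.I_im, mul_one, sub_self, add_zero, Complex.add_im, Complex.mul_im,
    zero_add] at r i
  obtain ⟨x, y, z⟩ := v
  obtain ⟨x', y', z'⟩ := w
  generalize den (x, y, z) = d at *
  generalize den (x', y', z') = d' at *
  simp only at *
  rw [div_eq_div_iff d1.ne' d2.ne'] at r i
  have s : (x + y) * d' = (x' + y') * d := by
    have : d * d' * ((x + y) * d') = d * d' * ((x' + y') * d) := by
      linear_combination (-d' ^ 2 / 2) * k1 + (d ^ 2 / 2) * k2 +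
        ((x - y) * d' + (x' - y') * d) / 2 * r + (z * d' + z' * d) / 2 * i
    exact mul_left_cancel₀ (by positivity) this
  refine ⟨d' / d, by positivity, ?_⟩
  simp only [Prod.smul_mk, smul_eq_mul, Prod.mk.injEq]
  refine ⟨?_, ?_, ?_⟩ <;> field_simp <;> linarith

lemma zero_notin : (0 : V3) ∉ UU := by simp [UU]

section
variable {V : Type} {G : SimpleGraph V} {P : V → V3}

/-- The hypotheses on a geodesic drawing on the sphere. -/
structure Geo (G : SimpleGraph V) (P : V → V3) : Prop where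
  vU : ∀ a, P a ∈ UU
  eU : ∀ a b, G.Adj a b → ∀ s t : ℝ, 0 < s → 0 < t → s • P a + t • P b ∈ UU
  inj : ∀ a b (l : ℝ), 0 < l → P b = l • P a → a = b
  avoid : ∀ a b, G.Adj a b → ∀ s t : ℝ, 0 < s → 0 < t → ∀ w, P w ≠ s • P a + t • P b

lemma Geo.ind (h : Geo G P) {a b : V} (hab : G.Adj a b) {A B : ℝ} (e : A • P a = B • P b) :
    A = 0 ∧ B = 0 := by
  have ne : ∀ c, P c ≠ 0 := fun c e => zero_notin (e ▸ h.vU c)
  have main : ∀ A B : ℝ, 0 < B → A • P a = B • P b → False := by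
    intro A B hB e
    rcases lt_trichotomy A 0 with l | l | l
    · apply zero_notin
      have := h.eU a b hab (-A) B (by linarith) hB
      rwa [← e, neg_smul, neg_add_cancel] at this
    · rw [l, zero_smul] at e
      exact ne b ((smul_eq_zero.1 e.symm).resolve_left hB.ne')
    · refine hab.ne (h.inj a b (A / B) (by positivity) ?_)
      rw [div_eq_inv_mul, mul_smul, e, smul_smul, inv_mul_cancel₀ hB.ne', one_smul]
  rcases lt_trichotomy B 0 with l | l | l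
  · exact (main (-A) (-B) (by linarith) (by rw [neg_smul, neg_smul, e])).elim
  · rw [l, zero_smul] at e
    exact ⟨(smul_eq_zero.1 e).resolve_right (ne a), l⟩
  · exact (main A B l e).elim

lemma Geo.av (h : Geo G P) {a b w : V} (hab : G.Adj a b) {s t l : ℝ} (hs : 0 < s) (ht : 0 < t)
    (hl : 0 < l) (e : l • P w = s • P a + t • P b) : False := by
  refine h.avoid a b hab (s / l) (t / l) (by positivity) (by positivity) w ?_
  rw [div_eq_inv_mul, div_eq_inv_mul, mul_smul, mul_smul, ← smul_add, ← e, smul_smul,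
    inv_mul_cancel₀ hl.ne', one_smul]

lemma Geo.eqv (h : Geo G P) {a b : V} {s t : ℝ} (hs : 0 < s) (ht : 0 < t)
    (e : s • P a = t • P b) : a = b := by
  refine h.inj a b (s / t) (by positivity) ?_
  rw [div_eq_inv_mul, mul_smul, e, smul_smul, inv_mul_cancel₀ ht.ne', one_smul]

lemma Geo.uniq0 (h : Geo G P) {a b c d : V} (hab : G.Adj a b) (hcd : G.Adj c d)
    {s₁ t₁ x₁ y₁ s₂ t₂ x₂ y₂ : ℝ} (p1 : 0 < s₁) (p2 : 0 < t₁) (p3 : 0 < x₁) (p4 : 0 < y₁)
    (q1 : 0 < s₂) (q2 : 0 < t₂) (q3 : 0 < x₂) (q4 : 0 < y₂)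
    (e₁ : s₁ • P a + t₁ • P b = x₁ • P c + y₁ • P d)
    (e₂ : s₂ • P a + t₂ • P b = x₂ • P c + y₂ • P d)
    (D : s₂ * t₁ < s₁ * t₂) (D' : x₂ * y₁ < x₁ * y₂) : a = c ∧ b = d := by
  have Ea : (s₁ * t₂ - s₂ * t₁) • P a = (t₂ * x₁ - t₁ * x₂) • P c + (t₂ * y₁ - t₁ * y₂) • P d := by
    linear_combination (norm := module) t₂ • e₁ - t₁ • e₂
  have Eb : (s₁ * t₂ - s₂ * t₁) • P b = (s₁ * x₂ - s₂ * x₁) • P c + (s₁ * y₂ - s₂ * y₁) • P d := by
    linear_combination (norm := module) s₁ • e₂ - s₂ • e₁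
  have Ec : (x₁ * y₂ - x₂ * y₁) • P c = (s₁ * y₂ - s₂ * y₁) • P a + (t₁ * y₂ - t₂ * y₁) • P b := by
    linear_combination (norm := module) y₁ • e₂ - y₂ • e₁
  have Ed : (x₁ * y₂ - x₂ * y₁) • P d = (s₂ * x₁ - s₁ * x₂) • P a + (t₂ * x₁ - t₁ * x₂) • P b := by
    linear_combination (norm := module) x₂ • e₁ - x₁ • e₂
  constructor
  · rcases lt_trichotomy (t₂ * y₁) (t₁ * y₂) with l | l | l
    · refine (h.av hab ?_ (by linarith) (by linarith) Ec).elim
      have : t₂ * (s₂ * y₁) < t₂ * (s₁ * y₂) := by nlinarith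
      linarith [lt_of_mul_lt_mul_left this q2.le]
    · rw [l, sub_self, zero_smul, add_zero] at Ea
      refine h.eqv (by linarith) ?_ Ea
      have : y₂ * (t₁ * x₂) < y₂ * (t₂ * x₁) := by nlinarith
      linarith [lt_of_mul_lt_mul_left this q4.le]
    · refine (h.av hcd ?_ (by linarith) (by linarith) Ea).elim
      have : y₂ * (t₁ * x₂) < y₂ * (t₂ * x₁) := by nlinarith
      linarith [lt_of_mul_lt_mul_left this q4.le]
  · rcases lt_trichotomy (s₁ * x₂) (s₂ * x₁) with l | l | l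
    · refine (h.av hab (by linarith) ?_ (by linarith) Ed).elim
      have : s₂ * (t₁ * x₂) < s₂ * (t₂ * x₁) := by nlinarith
      linarith [lt_of_mul_lt_mul_left this q1.le]
    · rw [l, sub_self, zero_smul, zero_add] at Eb
      refine h.eqv (by linarith) ?_ Eb
      have : x₂ * (s₂ * y₁) < x₂ * (s₁ * y₂) := by nlinarith
      linarith [lt_of_mul_lt_mul_left this q3.le]
    · refine (h.av hcd (by linarith) ?_ (by linarith) Eb).elim
      have : x₂ * (s₂ * y₁) < x₂ * (s₁ * y₂) := by nlinarith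
      linarith [lt_of_mul_lt_mul_left this q3.le]

lemma Geo.uniq (h : Geo G P) {a b c d : V} (hab : G.Adj a b) (hcd : G.Adj c d)
    (ne : s(a, b) ≠ s(c, d))
    {s₁ t₁ x₁ y₁ s₂ t₂ x₂ y₂ : ℝ} (p1 : 0 < s₁) (p2 : 0 < t₁) (p3 : 0 < x₁) (p4 : 0 < y₁)
    (q1 : 0 < s₂) (q2 : 0 < t₂) (q3 : 0 < x₂) (q4 : 0 < y₂)
    (e₁ : s₁ • P a + t₁ • P b = x₁ • P c + y₁ • P d)
    (e₂ : s₂ • P a + t₂ • P b = x₂ • P c + y₂ • P d) :
    s₂ • P a + t₂ • P b = (s₂ / s₁) • (s₁ • P a + t₁ • P b) := by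
  by_cases D : s₂ * t₁ = s₁ * t₂
  · have : t₂ = s₂ / s₁ * t₁ := by field_simp; linarith
    rw [smul_add, smul_smul, smul_smul, ← this, div_mul_cancel₀ _ p1.ne']
  exfalso
  have D' : x₂ * y₁ ≠ x₁ * y₂ := by
    intro D'
    have E : (x₂ * s₁ - x₁ * s₂) • P a = (x₁ * t₂ - x₂ * t₁) • P b := by
      linear_combination (norm := module) x₂ • e₁ - x₁ • e₂ + D' • P d
    obtain ⟨k1, k2⟩ := h.ind hab E
    apply D
    have : x₁ * (s₂ * t₁) = x₁ * (s₁ * t₂) := by linear_combination (-t₁) * k1 - s₁ * k2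
    exact mul_left_cancel₀ p3.ne' this
  apply ne
  rcases lt_or_gt_of_ne D with l | l <;> rcases lt_or_gt_of_ne D' with l' | l'
  · obtain ⟨rfl, rfl⟩ := h.uniq0 hab hcd p1 p2 p3 p4 q1 q2 q3 q4 e₁ e₂ l l'; rfl
  · obtain ⟨rfl, rfl⟩ := h.uniq0 hab hcd.symm p1 p2 p4 p3 q1 q2 q4 q3 (e₁.trans (add_comm _ _))
      (e₂.trans (add_comm _ _)) l (by linarith)
    exact Sym2.eq_swap
  · obtain ⟨rfl, rfl⟩ := h.uniq0 hab hcd.symm q1 q2 q4 q3 p1 p2 p4 p3 (e₂.trans (add_comm _ _))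
      (e₁.trans (add_comm _ _)) l (by linarith)
    exact Sym2.eq_swap
  · obtain ⟨rfl, rfl⟩ := h.uniq0 hab hcd q1 q2 q3 q4 p1 p2 p3 p4 e₂ e₁ l l'; rfl

theorem Geo.cr_le (h : Geo G P) (X : Finset (Sym2 (Sym2 V)))
    (hX : ∀ a b c d, G.Adj a b → G.Adj c d → s(a, b) ≠ s(c, d) → ∀ s t x y : ℝ, 0 < s → 0 < t →
      0 < x → 0 < y → s • P a + t • P b = x • P c + y • P d → s(s(a, b), s(c, d)) ∈ X) :
    cr G ≤ X.card := by
  have ex : ∀ e : Sym2 V, ∃ a b, e = s(a, b) := fun e => Sym2.inductionOn e fun a b => ⟨a, b, rfl⟩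
  choose A B hAB using ex
  have adj : ∀ e ∈ G.edgeSet, G.Adj (A e) (B e) := fun e he => by rwa [hAB e] at he
  have mem : ∀ e ∈ G.edgeSet, ∀ t ∈ Icc (0 : ℝ) 1, (1 - t) • P (A e) + t • P (B e) ∈ UU := by
    intro e he t ht
    rcases ht.1.eq_or_lt with rfl | l
    · simpa using h.vU _
    rcases ht.2.eq_or_lt with rfl | l'
    · simpa using h.vU _
    exact h.eU _ _ (adj e he) _ _ (by linarith) l
  let D : Drawing G :=
    { pos := fun v => Phi (P v)
      arc := fun e t => Phi ((1 - t) • P (A e) + t • P (B e))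
      pos_inj := fun a b e => by
        obtain ⟨l, hl, e⟩ := Phi_inj (h.vU a) (h.vU b) e
        exact h.inj a b l hl e
      cont := fun e he => Phi_cont.comp (by fun_prop) (fun t ht => mem e he t ht)
      inj := fun e he s hs t ht k => by
        obtain ⟨l, hl, k⟩ := Phi_inj (mem e he s hs) (mem e he t ht) k
        have E : (1 - t - l * (1 - s)) • P (A e) = (l * s - t) • P (B e) := by
          linear_combination (norm := module) k
        obtain ⟨k1, k2⟩ := h.ind (adj e he) E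
        have : l = 1 := by linarith
        subst this; linarith
      ends := fun e he => ⟨A e, B e, hAB e, by simp, by simp⟩
      avoid := fun e he t ht w k => by
        obtain ⟨l, hl, k⟩ := Phi_inj (h.vU w) (mem e he t (Ioo_subset_Icc_self ht)) k.symm
        exact h.av (adj e he) (by linarith [ht.2]) ht.1 hl k.symm }
  refine (iInf_le _ D).trans ?_
  have dec : ∀ e ∈ G.edgeSet, ∀ f ∈ G.edgeSet, ∀ z, z ∈ D.arc e '' Ioo 0 1 →
      z ∈ D.arc f '' Ioo 0 1 → ∃ s t x y : ℝ, 0 < s ∧ 0 < t ∧ 0 < x ∧ 0 < y ∧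
      s • P (A e) + t • P (B e) = x • P (A f) + y • P (B f) ∧
      z = Phi (s • P (A e) + t • P (B e)) := by
    rintro e he f hf z ⟨s, hs, rfl⟩ ⟨t, ht, k⟩
    obtain ⟨l, hl, k⟩ := Phi_inj (mem f hf t (Ioo_subset_Icc_self ht))
      (mem e he s (Ioo_subset_Icc_self hs)) k
    refine ⟨1 - s, s, l * (1 - t), l * t, by linarith [hs.2], hs.1,
      mul_pos hl (by linarith [ht.2]), mul_pos hl ht.1, ?_, rfl⟩
    rw [k, smul_add, smul_smul, smul_smul]
  rw [← Set.encard_coe_eq_coe_finsetCard]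
  refine Set.encard_le_encard_of_injOn (f := Prod.fst) ?_ ?_
  · rintro ⟨E, z⟩ ⟨e, he, f, hf, ne, rfl, h1, h2⟩
    obtain ⟨s, t, x, y, p1, p2, p3, p4, k, -⟩ := dec e he f hf z h1 h2
    have := hX _ _ _ _ (adj e he) (adj f hf) (by rwa [← hAB e, ← hAB f]) s t x y p1 p2 p3 p4 k
    rwa [← hAB e, ← hAB f] at this
  · rintro ⟨E, z⟩ ⟨e, he, f, hf, ne, rfl, h1, h2⟩ ⟨E', z'⟩ ⟨e', he', f', hf', ne', rfl, k1, k2⟩ eq
    simp only at eq h1 h2 k1 k2
    have : z' ∈ D.arc e '' Ioo 0 1 ∧ z' ∈ D.arc f '' Ioo 0 1 := by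
      rcases Sym2.eq_iff.1 eq with ⟨rfl, rfl⟩ | ⟨rfl, rfl⟩
      exacts [⟨k1, k2⟩, ⟨k2, k1⟩]
    obtain ⟨s, t, x, y, p1, p2, p3, p4, k, rfl⟩ := dec e he f hf z h1 h2
    obtain ⟨s', t', x', y', q1, q2, q3, q4, k', rfl⟩ := dec e he f hf z' this.1 this.2
    rw [h.uniq (adj e he) (adj f hf) (by rwa [← hAB e, ← hAB f]) p1 p2 p3 p4 q1 q2 q3 q4 k k',
      Phi_smul _ (by positivity), eq]

end

end Pool.Agent.H167Z.BP
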