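import Pool.Agent.H167Z.BP.Bipyr

set_option autoImplicit false

namespace Pool.Agent.H167Z.BP

open Set

open Classical in
theorem level_le {I : Type} {nx : I → I} {u : I → ℝ × ℝ} {α : ℝ} {B W : Type} [Fintype W]
    (κ : B ≃ I ⊕ Bool) (h : W → Bool) (j : W → I) (Q : W → Prop) (lv : W → ℕ) (F : Fan nx u α)
    (hi : ∀ w w', h w = h w' → j w = j w' → (Q w ↔ Q w') → lv w = lv w' → w = w') :
    cr (bip (fun w c => Leaf nx (h w) (j w) (Q w) (κ c))) ≤ ((∑ w' : W,
      ((Finset.univ.filter (fun w => h w = h w' ∧ j w = j w' ∧ Q w ∧ ¬ Q w')).card +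
      (Finset.univ.filter (fun w => h w = h w' ∧ j w = j w' ∧ (Q w ↔ Q w') ∧ lv w < lv w')).card +
      (Finset.univ.filter (fun w => h w = h w' ∧ j w = j w' ∧ Q w ∧ Q w' ∧ lv w < lv w')).card +
      (Finset.univ.filter (fun w => h w = h w' ∧ j w' = nx (j w) ∧ Q w')).card) : ℕ) : ℕ∞) := by
  let g : ℕ → ℝ := fun k => 1 / 8 - 1 / (8 * ((k : ℝ) + 2))
  have g0 : ∀ k, 0 < g k := fun k => by
    have : 1 / (8 * ((k : ℝ) + 2)) < 1 / 8 :=
      one_div_lt_one_div_of_lt (by norm_num) (by have := Nat.cast_nonneg (α := ℝ) k; linarith)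
    simp only [g]; linarith
  have g1 : ∀ k, g k < 1 / 8 := fun k => by
    have : 0 < 1 / (8 * ((k : ℝ) + 2)) := by positivity
    simp only [g]; linarith
  have gm : StrictMono g := fun a b hab => by
    have h1 : (a : ℝ) < b := by exact_mod_cast hab
    have : 1 / (8 * ((b : ℝ) + 2)) < 1 / (8 * ((a : ℝ) + 2)) :=
      one_div_lt_one_div_of_lt (by positivity) (by linarith)
    simp only [g]; linarith
  let β : W → ℝ := fun w => (if Q w then 0 else 1 / 8) + g (lv w)
  have lt : ∀ w w', β w < β w' → (Q w ∧ ¬ Q w') ∨ ((Q w ↔ Q w') ∧ lv w < lv w') := by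
    intro w w' e
    have := g0 (lv w); have := g1 (lv w')
    by_cases a : Q w <;> by_cases b : Q w' <;> simp only [β, a, b, if_true, if_false] at e
    · exact Or.inr ⟨by tauto, gm.lt_iff_lt.1 (by linarith)⟩
    · exact Or.inl ⟨a, b⟩
    · linarith
    · exact Or.inr ⟨by tauto, gm.lt_iff_lt.1 (by linarith)⟩
  refine (bipyr_le κ h j Q β F (fun w => ?_) (fun w => ?_) (fun w w' e1 e2 e => ?_)).trans ?_
  · have := g0 (lv w); simp only [β]; split_ifs <;> linarith
  · have := g1 (lv w); simp only [β]; split_ifs <;> linarith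
  · have := g0 (lv w); have := g1 (lv w'); have := g0 (lv w'); have := g1 (lv w)
    by_cases a : Q w <;> by_cases b : Q w' <;> simp only [β, a, b, if_true, if_false] at e
    · exact hi w w' e1 e2 (by tauto) (gm.injective (by linarith))
    · linarith
    · linarith
    · exact hi w w' e1 e2 (by tauto) (gm.injective (by linarith))
  · refine Nat.cast_le.2 (Finset.sum_le_sum fun w' _ => add_le_add (add_le_add ?_ ?_) le_rfl)
    · refine le_trans (Finset.card_le_card ?_) (Finset.card_union_le _ _)
      intro w hw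
      simp only [Finset.mem_union, Finset.mem_filter, Finset.mem_univ, true_and] at hw ⊢
      have := lt w w' hw.2.2
      tauto
    · refine Finset.card_le_card ?_
      intro w hw
      simp only [Finset.mem_filter, Finset.mem_univ, true_and] at hw ⊢
      have := lt w w' hw.2.2.1
      tauto

lemma fib_le {q : ℕ} (t m : ℕ) (p : Fin q → Prop) {_ : DecidablePred p}
    (h1 : ∀ w, p w → (w : ℕ) / t < m) (h2 : ∀ w w', p w → p w' → (w : ℕ) % t = w' % t) :
    (Finset.univ.filter p).card ≤ m := by
  rw [← Finset.card_range m]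
  refine Finset.card_le_card_of_injOn (fun w => (w : ℕ) / t) ?_ ?_
  · intro w hw; simpa using h1 w (by simpa using hw)
  · intro w hw w' hw' e
    apply Fin.ext
    rw [← Nat.div_add_mod w t, ← Nat.div_add_mod w' t, h2 w w' (by simpa using hw) (by simpa using hw'),
      show (w : ℕ) / t = w' / t from e]

lemma sum_div (t q : ℕ) :
    2 * ∑ w : Fin q, (w : ℕ) / t + t * (q / t * (q / t + 1)) = 2 * (q / t) * q := by
  rw [Fin.sum_univ_eq_sum_range (fun w => w / t) q]
  induction q with
  | zero => simp
  | succ q ih =>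
    rw [Finset.sum_range_succ, Nat.succ_div]
    split_ifs with hd
    · have e : t * (q / t + 1) = q + 1 := by
        have := Nat.mul_div_cancel' hd
        rwa [Nat.succ_div, if_pos hd] at this
      generalize q / t = k at *
      nlinarith
    · generalize q / t = k at *
      simp only [add_zero]
      nlinarith

lemma fan4 : Fan (fun i : Fin 4 => i + 1) ![(1, 0), (0, 1), (-1, 0), (0, -1)] 0 where
  a0 := le_rfl
  a1 := zero_le_one
  rel := fun i => by fin_cases i <;> simp
  uniq := fun j j' a b a' b' h1 h2 h3 h4 e => by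
    fin_cases j <;> fin_cases j' <;> simp at e ⊢ <;> first | exact e | (obtain ⟨e1, e2⟩ := e; first | linarith | (constructor <;> linarith))
  pole := fun i => by fin_cases i <;> simp
  inj := add_left_injective 1

lemma fan6 : Fan (fun i : Fin 6 => i + 1)
    ![(1, 0), (0, 1), (-1, 1), (-1, 0), (0, -1), (1, -1)] 1 where
  a0 := zero_le_one
  a1 := le_rfl
  rel := fun i => by fin_cases i <;> simp
  uniq := fun j j' a b a' b' h1 h2 h3 h4 e => by
    fin_cases j <;> fin_cases j' <;> simp at e ⊢ <;> first | exact e | (obtain ⟨e1, e2⟩ := e; first | linarith | (constructor <;> linarith))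
  pole := fun i => by fin_cases i <;> simp <;> norm_num
  inj := add_left_injective 1

lemma fan5 {α : ℝ} (h0 : 0 < α) (h : α * α + α = 1) : Fan (fun i : Fin 5 => i + 1)
    ![(1, 0), (0, 1), (-1, α), (-α, -α), (α, -1)] α where
  a0 := h0.le
  a1 := by nlinarith
  rel := fun i => by fin_cases i <;> simp <;> first | linarith | (constructor <;> linarith)
  uniq := fun j j' a b a' b' h1 h2 h3 h4 e => by
    have hq : ∀ x : ℝ, x * α * α = x - x * α := fun x => by linear_combination x * h
    have := hq a
    have := hq b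
    have := hq a'
    have := hq b'
    have l1 : 3 / 5 < α := by nlinarith
    have l2 : α < 5 / 8 := by nlinarith
    have := mul_lt_mul_of_pos_left l1 h1
    have := mul_lt_mul_of_pos_left l2 h1
    have := mul_lt_mul_of_pos_left l1 h3
    have := mul_lt_mul_of_pos_left l2 h3
    have := mul_le_mul_of_nonneg_left l1.le h2
    have := mul_le_mul_of_nonneg_left l2.le h2
    have := mul_le_mul_of_nonneg_left l1.le h4
    have := mul_le_mul_of_nonneg_left l2.le h4
    fin_cases j <;> fin_cases j' <;> simp at e ⊢ <;> first | exact e | (obtain ⟨e1, e2⟩ := e; first | linarith | (constructor <;> nlinarith) | (have e3 : _ * α = _ * α := congrArg (· * α) e1; have e4 : _ * α = _ * α := congrArg (· * α) e2; linarith))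
  pole := fun i => by fin_cases i <;> simp <;> intros <;> linarith
  inj := add_left_injective 1

end Pool.Agent.H167Z.BP
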